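import Mathlib

/-!
Oriented matroids, Euclidean programs, Mandel oriented matroids and the mutation graph
(definitions for MP_6b648c_co).
-/

namespace Pool.Agent.MandelOM

variable {E : Type*} {r : ℕ}

/-- An oriented matroid of rank `r` on the ground set `E`, given by a chirotope: a map
`χ : E ^ r → {-1, 0, 1}` that is not identically zero, alternating, and satisfies the signed
basis exchange axiom: if `χ x ≠ 0` and `χ y ≠ 0` then for each position `k` there is a position
`i` such that exchanging `x k` and `y i` gives the product `χ x * χ y` again.  The chirotopes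
`χ` and `-χ` describe the same oriented matroid. -/
structure OM (E : Type*) (r : ℕ) where
  /-- the chirotope -/
  chi : (Fin r → E) → SignType
  nonzero : ∃ x, chi x ≠ 0
  alternating : ∀ (x : Fin r → E) (i j : Fin r), i ≠ j → chi (x ∘ Equiv.swap i j) = -chi x
  exchange : ∀ (x y : Fin r → E) (k : Fin r), chi x ≠ 0 → chi y ≠ 0 →
    ∃ i : Fin r, chi (Function.update x k (y i)) * chi (Function.update y i (x k)) =
      chi x * chi y

namespace OM

/-- Uniform: every `r`-subset is a basis. -/
def Uniform (O : OM E r) : Prop := ∀ x : Fin r → E, Function.Injective x → O.chi x ≠ 0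

/-- `e` is a loop: it lies in no basis. -/
def IsLoop (O : OM E r) (e : E) : Prop := ∀ x : Fin r → E, (∃ i, x i = e) → O.chi x = 0

/-- `e` is a coloop: it lies in every basis. -/
def IsColoop (O : OM E r) (e : E) : Prop := ∀ x : Fin r → E, O.chi x ≠ 0 → ∃ i, x i = e

/-- Cocircuits: the nonzero sign vectors `± χ(x_1, …, e, …, x_r)`, where `e` is the variable and
the other elements are fixed. -/
def IsCocircuit (O : OM E r) (Y : E → SignType) : Prop :=
  (∃ e, Y e ≠ 0) ∧ ∃ (x : Fin r → E) (k : Fin r) (s : SignType),
    ∀ e, Y e = s * O.chi (Function.update x k e)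

/-- Covectors: the compositions of finitely many cocircuits. -/
inductive IsCovector (O : OM E r) : (E → SignType) → Prop
  | zero : IsCovector O 0
  | comp {X Y : E → SignType} : IsCovector O X → O.IsCocircuit Y →
      IsCovector O (fun e => if X e = 0 then Y e else X e)

/-- Topes: the covectors that are maximal for the conformal order. -/
def IsTope (O : OM E r) (T : E → SignType) : Prop :=
  O.IsCovector T ∧ ∀ X, O.IsCovector X → (∀ e, T e ≠ 0 → X e = T e) → X = T

/-- The tope `T` is bounded by `e` (in a uniform oriented matroid): changing only the sign of `e`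
to `0` gives a covector. -/
def Bounds (O : OM E r) (T : E → SignType) (e : E) : Prop :=
  ∃ X, O.IsCovector X ∧ X e = 0 ∧ ∀ e', e' ≠ e → X e' = T e'

/-- `B` is (the set of elements bounding) a mutation: there is a tope bounded by exactly the
elements of `B`, and `B` has `r` elements. -/
def IsMutation (O : OM E r) (B : Finset E) : Prop :=
  B.card = r ∧ ∃ T, O.IsTope T ∧ ∀ e, e ∈ B ↔ O.Bounds T e

open Classical in
/-- The chirotope of `O'` is, up to a global sign, that of `O` with the sign reversed on the
ordered bases with underlying set `B`. -/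
def IsFlip (O O' : OM E r) (B : Finset E) : Prop :=
  ∃ s : SignType, s ≠ 0 ∧
    ∀ x : Fin r → E, O'.chi x = s * (if Set.range x = (B : Set E) then -O.chi x else O.chi x)

/-- `O'` is a mutant of `O`. -/
def Mutant (O O' : OM E r) : Prop := ∃ B : Finset E, O.IsMutation B ∧ O.IsFlip O' B

/-- `P` is a single-element extension of `O`; the new element is `none`. -/
def Extends (P : OM (Option E) r) (O : OM E r) : Prop :=
  ∀ x : Fin r → E, P.chi (fun i => some (x i)) = O.chi x

/-- `(O, g, f)` is an oriented matroid program. -/
def IsProgram (O : OM E r) (g f : E) : Prop := ¬ O.IsLoop g ∧ f ≠ g ∧ ¬ O.IsColoop f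

/-- The program `(O, g, f)` is Euclidean: for every cocircuit `Y` with `Y g ≠ 0` (a vertex of the
affine space `(O, g)`) there is a single-element extension `P = O ∪ p` of `O`, with `p` not a
loop, such that `p` goes through `Y` and `p` is parallel to `f` with respect to `g`, that is, `p`
contains the intersection of `f` and `g`. -/
def EuclideanProgram (O : OM E r) (g f : E) : Prop :=
  ∀ Y : E → SignType, O.IsCocircuit Y → Y g ≠ 0 →
    ∃ P : OM (Option E) r, P.Extends O ∧ ¬ P.IsLoop none ∧
      P.IsCocircuit (fun o => o.elim 0 Y) ∧
      ∀ Z : Option E → SignType, P.IsCocircuit Z → Z (some f) = 0 → Z (some g) = 0 → Z none = 0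

/-- Euclidean oriented matroids. -/
def Euclidean (O : OM E r) : Prop := ∀ g f : E, O.IsProgram g f → O.EuclideanProgram g f

/-- The new element of `P = O ∪ p` is in general position: replacing any element of a basis of
`O` by `p` gives a basis. -/
def GeneralPosition (P : OM (Option E) r) (O : OM E r) : Prop :=
  ∀ (x : Fin r → E) (k : Fin r), O.chi x ≠ 0 →
    P.chi (Function.update (fun i => some (x i)) k none) ≠ 0

/-- Mandel oriented matroids. -/
def Mandel (O : OM E r) : Prop :=
  ∃ P : OM (Option E) r, P.Extends O ∧ P.GeneralPosition O ∧ ¬ P.IsColoop none ∧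
    ∀ f : E, ¬ O.IsLoop f → ¬ O.IsColoop f → P.EuclideanProgram none (some f)

end OM

/-- The chirotopes of the uniform oriented matroids of rank `r` on `E`. -/
def UniformOM (E : Type*) (r : ℕ) : Type _ := {O : OM E r // O.Uniform}

/-- Two chirotopes give the same oriented matroid if they agree up to a global sign. -/
def sameOM (E : Type*) (r : ℕ) : Setoid (UniformOM E r) where
  r O O' := ∃ s : SignType, s ≠ 0 ∧ ∀ x, O'.1.chi x = s * O.1.chi x
  iseqv := by
    refine ⟨fun O => ⟨1, by decide, fun x => by simp⟩, ?_, ?_⟩
    · rintro O O' ⟨s, hs, h⟩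
      refine ⟨s, hs, fun x => ?_⟩
      have hss : s * s = 1 := by cases s <;> first | rfl | exact absurd rfl hs
      rw [h x, ← mul_assoc, hss, one_mul]
    · rintro O O' O'' ⟨s, hs, h⟩ ⟨t, ht, h'⟩
      refine ⟨t * s, ?_, fun x => ?_⟩
      · cases s <;> cases t <;> first | exact absurd rfl hs | exact absurd rfl ht | decide
      · rw [h' x, h x, mul_assoc]

/-- The mutation graph: the vertices are the uniform oriented matroids of rank `r` on `E`, two of
them are adjacent when one of them is a mutant of the other (the relation is symmetric, as flipping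
the mutation `B` back gives the first oriented matroid again). -/
def mutationGraph (E : Type*) (r : ℕ) : SimpleGraph (Quotient (sameOM E r)) where
  Adj q q' := q ≠ q' ∧ ∃ O O' : UniformOM E r,
    Quotient.mk (sameOM E r) O = q ∧ Quotient.mk (sameOM E r) O' = q' ∧
      (O.1.Mutant O'.1 ∨ O'.1.Mutant O.1)
  symm := ⟨by
    rintro q q' ⟨hne, O, O', h1, h2, h3⟩
    exact ⟨hne.symm, O', O, h2, h1, h3.symm⟩⟩
  loopless := ⟨fun q h => h.1 rfl⟩

/-- The oriented matroid given by a chirotope. -/
def UniformOM.toVertex (O : UniformOM E r) : Quotient (sameOM E r) := Quotient.mk (sameOM E r) O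

end Pool.Agent.MandelOM
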