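import Pool.Agent.MandelOM.Data

/-!
The example is a Mandel oriented matroid.
-/

namespace Pool.Agent.MandelOM

theorem sort4 {F : Type*} (k : F → ℕ) (hk : Function.Injective k) {R : F → F → F → F → Prop}
    (h01 : ∀ a b d e, R a b d e → R b a d e) (h12 : ∀ a b d e, R a b d e → R a d b e)
    (h23 : ∀ a b d e, R a b d e → R a b e d)
    (hs : ∀ a b d e, k a < k b → k b < k d → k d < k e → R a b d e) (a b d e : F)
    (ab : a ≠ b) (ad : a ≠ d) (ae : a ≠ e) (bd : b ≠ d) (be : b ≠ e) (de : d ≠ e) :
    R a b d e := by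
  have lt : ∀ {u v}, u ≠ v → k u < k v ∨ k v < k u := fun h => lt_or_gt_of_ne (hk.ne h)
  have S3 : ∀ a b d e, k a < k b → k b < k d → a ≠ e → b ≠ e → d ≠ e → R a b d e := by
    intro a b d e h1 h2 ae be de
    rcases lt de with h | h
    · exact hs _ _ _ _ h1 h2 h
    apply h23
    rcases lt be with h' | h'
    · exact hs _ _ _ _ h1 h' h
    apply h12
    rcases lt ae with h'' | h''
    · exact hs _ _ _ _ h'' h' h2
    apply h01
    exact hs _ _ _ _ h'' h1 h2
  have S2 : ∀ a b d e, k a < k b → a ≠ d → b ≠ d → a ≠ e → b ≠ e → d ≠ e → R a b d e := by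
    intro a b d e h1 ad bd ae be de
    rcases lt bd with h | h
    · exact S3 _ _ _ _ h1 h ae be de
    apply h12
    rcases lt ad with h' | h'
    · exact S3 _ _ _ _ h' h ae de be
    apply h01
    exact S3 _ _ _ _ h' h1 de ae be
  rcases lt ab with h | h
  · exact S2 _ _ _ _ h ad bd ae be de
  · apply h01
    exact S2 _ _ _ _ h bd ad be ae de

theorem orL {x y : ℕ} {b : Bool} (h : (Nat.beq x y || b) = true) (hne : x ≠ y) : b = true := by
  rcases Bool.or_eq_true _ _ ▸ h with h1 | h1
  · exact absurd (Nat.eq_of_beq_eq_true h1) hne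
  · exact h1

theorem orL2 {x y z w : ℕ} {b : Bool} (h : (Nat.beq x y || Nat.beq z w || b) = true)
    (h1 : x ≠ y) (h2 : z ≠ w) : b = true := by
  rcases Bool.or_eq_true _ _ ▸ h with h3 | h3
  · rcases Bool.or_eq_true _ _ ▸ h3 with h4 | h4
    · exact absurd (Nat.eq_of_beq_eq_true h4) h1
    · exact absurd (Nat.eq_of_beq_eq_true h4) h2
  · exact h3

theorem orL3 {x y z w u v : ℕ} {b : Bool}
    (h : (Nat.beq x y || Nat.beq z w || Nat.beq u v || b) = true)
    (h1 : x ≠ y) (h2 : z ≠ w) (h3 : u ≠ v) : b = true := by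
  rcases Bool.or_eq_true _ _ ▸ h with h4 | h4
  · have := orL2 h4 h1 h2
    exact absurd (Nat.eq_of_beq_eq_true this) h3
  · exact h4

theorem beqS_eq : ∀ {a b : SignType}, beqS a b = true → a = b := by decide

theorem dist4_true {x y a b : ℕ} (h1 : x ≠ y) (h2 : x ≠ a) (h3 : x ≠ b) (h4 : y ≠ a) (h5 : y ≠ b)
    (h6 : a ≠ b) : dist4 x y a b = true := by
  have hb : ∀ {m n : ℕ}, m ≠ n → Nat.beq m n = false := by
    intro m n h
    rw [Bool.eq_false_iff]
    intro h'
    exact h (Nat.eq_of_beq_eq_true h')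
  unfold dist4
  rw [hb h1, hb h2, hb h3, hb h4, hb h5, hb h6]
  rfl

theorem tab_ne {x y a b : ℕ} (h : dist4 x y a b = true) : tab x y a b ≠ 0 := by
  unfold tab
  rw [h]
  cases ngT x y a b <;> decide

theorem ng_tab {x y a b : ℕ} (h : dist4 x y a b = true) : ng (tab x y a b) = ngT x y a b := by
  unfold tab
  rw [h]
  cases ngT x y a b <;> decide

/-- The elements as numbers. -/
def cd : Option (Fin 9) → ℕ
  | none => 9
  | some i => i.val

theorem cd_lt (x : Option (Fin 9)) : cd x < 10 := by
  cases x with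
  | none => decide
  | some i => exact Nat.lt_of_lt_of_le i.isLt (by decide)

theorem cd_inj : Function.Injective cd := by
  intro x y h
  cases x with
  | none =>
    cases y with
    | none => rfl
    | some j => have := j.isLt; simp only [cd] at h; omega
  | some i =>
    cases y with
    | none => have := i.isLt; simp only [cd] at h; omega
    | some j => rw [Fin.ext (h : i.val = j.val)]

/-- The chirotope of the extended example. -/
def cP : Option (Fin 9) → Option (Fin 9) → Option (Fin 9) → Option (Fin 9) → SignType :=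
  fun x y a b => tab (cd x) (cd y) (cd a) (cd b)

theorem alt_cP : Alt4 cP := by
  have key : ∀ x y a b : Option (Fin 9),
      cP y x a b = -cP x y a b ∧ cP x a y b = -cP x y a b ∧ cP x y b a = -cP x y a b := by
    intro x y a b
    have h := allLT_spec (allLT_spec (allLT_spec (allLT_spec altCheck_true _ (cd_lt x)) _ (cd_lt y))
      _ (cd_lt a)) _ (cd_lt b)
    rw [Bool.and_eq_true, Bool.and_eq_true] at h
    exact ⟨beqS_eq h.1.1, beqS_eq h.1.2, beqS_eq h.2⟩
  exact ⟨fun x y a b => (key x y a b).1, fun x y a b => (key x y a b).2.1,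
    fun x y a b => (key x y a b).2.2⟩

theorem dist_cd {x y a b : Option (Fin 9)} (h : [x, y, a, b].Nodup) :
    dist4 (cd x) (cd y) (cd a) (cd b) = true := by
  simp only [List.nodup_cons, List.mem_cons, List.not_mem_nil, or_false, not_or,
        List.nodup_nil, and_true, not_false_eq_true] at h
  exact dist4_true (cd_inj.ne h.1.1) (cd_inj.ne h.1.2.1) (cd_inj.ne h.1.2.2) (cd_inj.ne h.2.1.1)
    (cd_inj.ne h.2.1.2) (cd_inj.ne h.2.2)

theorem cP_ne {x y a b : Option (Fin 9)} (h : [x, y, a, b].Nodup) : cP x y a b ≠ 0 :=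
  tab_ne (dist_cd h)

theorem ng_cP {x y a b : Option (Fin 9)} (h : [x, y, a, b].Nodup) :
    ng (cP x y a b) = ngT (cd x) (cd y) (cd a) (cd b) := ng_tab (dist_cd h)

theorem u4_cP : U4 cP where
  toAlt4 := alt_cP
  nz := fun x y a b h => cP_ne h
  gp := by
    intro x y a b d e hn
    have hd : x ≠ y ∧ x ≠ a ∧ x ≠ b ∧ x ≠ d ∧ x ≠ e ∧ y ≠ a ∧ y ≠ b ∧ y ≠ d ∧ y ≠ e ∧ a ≠ b ∧
        a ≠ d ∧ a ≠ e ∧ b ≠ d ∧ b ≠ e ∧ d ≠ e := by
      simp only [List.nodup_cons, List.mem_cons, List.not_mem_nil, or_false, not_or,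
        List.nodup_nil, and_true, not_false_eq_true] at hn
      tauto
    obtain ⟨xy, xa, xb, xd, xe, ya, yb, yd, ye, ab, ad, ae, bd, be, de⟩ := hd
    refine sort4 cd cd_inj (R := fun a b d e => [x, y, a, b, d, e].Nodup →
      nae (ng (cP x y a b) ^^ ng (cP x y d e)) (!(ng (cP x y a d) ^^ ng (cP x y b e)))
      (ng (cP x y a e) ^^ ng (cP x y b d)) = true) ?_ ?_ ?_ ?_ a b d e ab ad ae bd be de hn
    · clear hn xy xa xb xd xe ya yb yd ye ab ad ae bd be de a b d e
      intro a b d e h hn
      have hd : x ≠ y ∧ x ≠ a ∧ x ≠ b ∧ y ≠ a ∧ y ≠ b ∧ a ≠ b := by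
        simp only [List.nodup_cons, List.mem_cons, List.not_mem_nil, or_false, not_or,
          List.nodup_nil, and_true, not_false_eq_true] at hn
        tauto
      have h' := h (by
        simp only [List.nodup_cons, List.mem_cons, List.not_mem_nil, or_false, not_or,
          List.nodup_nil, and_true, not_false_eq_true] at hn ⊢
        tauto)
      rw [alt_cP.s23 x y a b, ng_neg (cP_ne (by
        simp only [List.nodup_cons, List.mem_cons, List.not_mem_nil, or_false, not_or,
          List.nodup_nil, and_true, not_false_eq_true]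
        tauto))]
      revert h'
      clear h hn hd
      generalize ng (cP x y a b) = v1
      generalize ng (cP x y d e) = v2
      generalize ng (cP x y a d) = v3
      generalize ng (cP x y b e) = v4
      generalize ng (cP x y a e) = v5
      generalize ng (cP x y b d) = v6
      revert v1 v2 v3 v4 v5 v6
      decide +kernel
    · clear hn xy xa xb xd xe ya yb yd ye ab ad ae bd be de a b d e
      intro a b d e h hn
      have hd : x ≠ y ∧ x ≠ b ∧ x ≠ d ∧ y ≠ b ∧ y ≠ d ∧ b ≠ d := by
        simp only [List.nodup_cons, List.mem_cons, List.not_mem_nil, or_false, not_or,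
          List.nodup_nil, and_true, not_false_eq_true] at hn
        tauto
      have h' := h (by
        simp only [List.nodup_cons, List.mem_cons, List.not_mem_nil, or_false, not_or,
          List.nodup_nil, and_true, not_false_eq_true] at hn ⊢
        tauto)
      rw [alt_cP.s23 x y b d, ng_neg (cP_ne (by
        simp only [List.nodup_cons, List.mem_cons, List.not_mem_nil, or_false, not_or,
          List.nodup_nil, and_true, not_false_eq_true]
        tauto))]
      revert h'
      clear h hn hd
      generalize ng (cP x y a b) = v1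
      generalize ng (cP x y d e) = v2
      generalize ng (cP x y a d) = v3
      generalize ng (cP x y b e) = v4
      generalize ng (cP x y a e) = v5
      generalize ng (cP x y b d) = v6
      revert v1 v2 v3 v4 v5 v6
      decide +kernel
    · clear hn xy xa xb xd xe ya yb yd ye ab ad ae bd be de a b d e
      intro a b d e h hn
      have hd : x ≠ y ∧ x ≠ d ∧ x ≠ e ∧ y ≠ d ∧ y ≠ e ∧ d ≠ e := by
        simp only [List.nodup_cons, List.mem_cons, List.not_mem_nil, or_false, not_or,
          List.nodup_nil, and_true, not_false_eq_true] at hn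
        tauto
      have h' := h (by
        simp only [List.nodup_cons, List.mem_cons, List.not_mem_nil, or_false, not_or,
          List.nodup_nil, and_true, not_false_eq_true] at hn ⊢
        tauto)
      rw [alt_cP.s23 x y d e, ng_neg (cP_ne (by
        simp only [List.nodup_cons, List.mem_cons, List.not_mem_nil, or_false, not_or,
          List.nodup_nil, and_true, not_false_eq_true]
        tauto))]
      revert h'
      clear h hn hd
      generalize ng (cP x y a b) = v1
      generalize ng (cP x y d e) = v2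
      generalize ng (cP x y a d) = v3
      generalize ng (cP x y b e) = v4
      generalize ng (cP x y a e) = v5
      generalize ng (cP x y b d) = v6
      revert v1 v2 v3 v4 v5 v6
      decide +kernel
    · clear hn xy xa xb xd xe ya yb yd ye ab ad ae bd be de a b d e
      intro a b d e hab hbd hde hn
      have hd : x ≠ y ∧ x ≠ a ∧ x ≠ b ∧ x ≠ d ∧ x ≠ e ∧ y ≠ a ∧ y ≠ b ∧ y ≠ d ∧ y ≠ e ∧ a ≠ b ∧
          a ≠ d ∧ a ≠ e ∧ b ≠ d ∧ b ≠ e ∧ d ≠ e := by
        simp only [List.nodup_cons, List.mem_cons, List.not_mem_nil, or_false, not_or,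
          List.nodup_nil, and_true, not_false_eq_true] at hn
        tauto
      obtain ⟨xy, xa, xb, xd, xe, ya, yb, yd, ye, ab, ad, ae, bd, be, de⟩ := hd
      rw [ng_cP (nodup_of_ne4 xy xa xb ya yb ab), ng_cP (nodup_of_ne4 xy xd xe yd ye de),
        ng_cP (nodup_of_ne4 xy xa xd ya yd ad), ng_cP (nodup_of_ne4 xy xb xe yb ye be),
        ng_cP (nodup_of_ne4 xy xa xe ya ye ae), ng_cP (nodup_of_ne4 xy xb xd yb yd bd)]
      have h1 := orL (allLT_spec (allLT_spec gpCheck_true _ (cd_lt x)) _ (cd_lt y)) (cd_inj.ne xy)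
      have h2 := orL2 (allLT_spec h1 _ (cd_lt e)) (cd_inj.ne xe) (cd_inj.ne ye)
      have h3 := orL2 (allLT_spec h2 _ hde) (cd_inj.ne xd) (cd_inj.ne yd)
      have h4 := orL2 (allLT_spec h3 _ hbd) (cd_inj.ne xb) (cd_inj.ne yb)
      exact orL2 (allLT_spec h4 _ hab) (cd_inj.ne xa) (cd_inj.ne ya)

/-- The potential of the program `(none, some f)`. -/
def potP (f : Fin 9) (x y z : Option (Fin 9)) : ℤ := (pn f.val (cd x) (cd y) (cd z) : ℤ) - 64

theorem pot_cP (f : Fin 9) : Pot cP none (some f) (potP f) where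
  s01 := by
    intro x y z
    unfold potP pn
    rw [Nat.add_comm (2 ^ cd y) (2 ^ cd x)]
  s12 := by
    intro x y z
    unfold potP pn
    rw [Nat.add_right_comm (2 ^ cd x) (2 ^ cd z) (2 ^ cd y)]
  zero := by
    intro x y
    have h := allLT_spec (allLT_spec (allLT_spec zeroCheck_true _ f.isLt) _ (cd_lt x)) _ (cd_lt y)
    have h' : pn f.val (cd x) (cd y) f.val = 64 := Nat.eq_of_beq_eq_true h
    unfold potP
    show ((pn f.val (cd x) (cd y) f.val : ℕ) : ℤ) - 64 = 0
    rw [h']; rfl
  mono := by
    intro x y a b hn hxf hyf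
    obtain ⟨xy, xa, xb, xg, ya, yb, yg, ab, ag, bg⟩ := nodup5_mem hn
    have lt9 : ∀ z : Option (Fin 9), z ≠ none → cd z < 9 := by
      intro z hz
      cases z with
      | none => exact absurd rfl hz
      | some i => exact i.isLt
    have hgf : (none : Option (Fin 9)) ≠ some f := by simp
    have h1 := orL (allLT_spec (allLT_spec potCheck_true _ f.isLt) _ (lt9 x xg))
      (cd_inj.ne hxf)
    have h2 := orL2 (allLT_spec h1 _ (lt9 y yg)) (cd_inj.ne hyf) (cd_inj.ne xy.symm)
    have h3 := orL2 (allLT_spec h2 _ (lt9 a ag)) (cd_inj.ne xa.symm) (cd_inj.ne ya.symm)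
    have h4 := orL3 (allLT_spec h3 _ (lt9 b bg)) (cd_inj.ne xb.symm) (cd_inj.ne yb.symm)
      (cd_inj.ne ab.symm)
    have n1 := nodup_of_ne4 xy xa xb ya yb ab
    have n2 := nodup_of_ne4 xy xg hxf yg hyf hgf
    have n3 := nodup_of_ne4 xy xa xg ya yg ag
    have n4 := nodup_of_ne4 xy xb xg yb yg bg
    rw [mul_eq_iff (cP_ne n1) (cP_ne n2) (cP_ne n3) (cP_ne n4), ng_cP n1, ng_cP n2, ng_cP n3,
      ng_cP n4]
    have h5 : (Nat.blt (pn f.val (cd x) (cd y) (cd a)) (pn f.val (cd x) (cd y) (cd b)) = true) ↔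
        ((ngT (cd x) (cd y) (cd a) (cd b) ^^ ngT (cd x) (cd y) 9 f.val) ==
          (ngT (cd x) (cd y) (cd a) 9 ^^ ngT (cd x) (cd y) (cd b) 9)) = true := by
      rw [beq_iff_eq.1 h4]
    have h6 : potP f x y a < potP f x y b ↔
        Nat.blt (pn f.val (cd x) (cd y) (cd a)) (pn f.val (cd x) (cd y) (cd b)) = true := by
      unfold potP
      rw [Nat.blt_eq]
      omega
    rw [h6, h5, beq_iff_eq]
    rfl

/-- The extended example. -/
def exP : OM (Option (Fin 9)) 4 :=
  mkOM cP alt_cP u4_cP.exch ⟨![none, some 0, some 1, some 2], cP_ne (by decide)⟩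

theorem c4_exP : c4 exP = cP := rfl

/-- The chirotope of the example. -/
def cO : Fin 9 → Fin 9 → Fin 9 → Fin 9 → SignType :=
  fun x y a b => cP (some x) (some y) (some a) (some b)

theorem u4_cO : U4 cO := u4_cP.comap some (Option.some_injective _)

/-- The example. -/
def exO : OM (Fin 9) 4 :=
  mkOM cO u4_cO.toAlt4 u4_cO.exch ⟨![0, 1, 2, 3], u4_cO.nz _ _ _ _ (by decide)⟩

theorem exO_uniform : exO.Uniform := fun x hx => u4_cO.chi_ne x hx

theorem exO_mandel : exO.Mandel := by
  refine ⟨exP, fun x => rfl, ?_, ?_, ?_⟩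
  · intro x k hx
    have hinj : Function.Injective x := by
      by_contra hcon
      exact hx (u4_cO.rep x hcon)
    apply u4_cP.chi_ne
    intro i j hij
    by_cases hi : i = k
    · by_cases hj : j = k
      · rw [hi, hj]
      · rw [hi, Function.update_self, Function.update_of_ne hj] at hij
        exact absurd hij (by simp)
    · by_cases hj : j = k
      · rw [hj, Function.update_self, Function.update_of_ne hi] at hij
        exact absurd hij (by simp)
      · rw [Function.update_of_ne hi, Function.update_of_ne hj] at hij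
        exact hinj (Option.some_injective _ hij)
  · intro h
    have hne : chi4 cP (fun i => some ((![0, 1, 2, 3] : Fin 4 → Fin 9) i)) ≠ 0 := by
      apply u4_cP.chi_ne
      intro i j hij
      have h1 := Option.some_injective _ hij
      clear hij h
      revert h1
      revert i j
      decide
    obtain ⟨i, hi⟩ := h (fun i => some ((![0, 1, 2, 3] : Fin 4 → Fin 9) i)) hne
    exact absurd hi (by simp)
  · intro f _ _
    exact euclideanProgram_of_pot exP (c4_exP ▸ u4_cP) (by simp) (pot := potP f)
      (c4_exP ▸ pot_cP f)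

end Pool.Agent.MandelOM
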