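import Pool.Agent.MandelOM.U4

/-!
The exchange axiom for uniform chirotopes of rank four.
-/

namespace Pool.Agent.MandelOM

variable {F : Type*} {c : F → F → F → F → SignType}

theorem mul_eq_iff {a b d e : SignType} (ha : a ≠ 0) (hb : b ≠ 0) (hd : d ≠ 0) (he : e ≠ 0) :
    a * b = d * e ↔ (ng a ^^ ng b) = (ng d ^^ ng e) := by
  cases a <;> cases b <;> cases d <;> cases e <;>
    first
      | exact absurd rfl ha
      | exact absurd rfl hb
      | exact absurd rfl hd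
      | exact absurd rfl he
      | decide

theorem inj_of_nodup {n : ℕ} {v : Fin n → F} (h : (List.ofFn v).Nodup) :
    Function.Injective v := List.nodup_ofFn.1 h

theorem ex5 (h : U4 c) (x0 x1 x2 x3 y0 y1 y2 y3 : F)
    (hn : [x1, x2, x3, x0, y0, y1, y2, y3].Nodup) :
    c y0 x1 x2 x3 * c x0 y1 y2 y3 = c x0 x1 x2 x3 * c y0 y1 y2 y3 ∨
    c y1 x1 x2 x3 * c y0 x0 y2 y3 = c x0 x1 x2 x3 * c y0 y1 y2 y3 ∨
    c y2 x1 x2 x3 * c y0 y1 x0 y3 = c x0 x1 x2 x3 * c y0 y1 y2 y3 ∨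
    c y3 x1 x2 x3 * c y0 y1 y2 x0 = c x0 x1 x2 x3 * c y0 y1 y2 y3 := by
  have hv : Function.Injective (![x1, x2, x3, x0, y0, y1, y2, y3] : Fin 8 → F) :=
    inj_of_nodup (by simpa [List.ofFn_succ] using hn)
  have key := P5 (h.comap _ hv)
  have hp : nae5 (ng (c x1 x2 x3 x0) ^^ ng (c y0 y1 y2 y3))
      (ng (c x1 x2 x3 y0) ^^ !ng (c x0 y1 y2 y3))
      (ng (c x1 x2 x3 y1) ^^ ng (c x0 y0 y2 y3))
      (ng (c x1 x2 x3 y2) ^^ !ng (c x0 y0 y1 y3))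
      (ng (c x1 x2 x3 y3) ^^ ng (c x0 y0 y1 y2)) = true := key
  clear key
  have nz := fun i j k l (hh : [i, j, k, l].Nodup) => (h.comap _ hv).nz i j k l hh
  have a0 : c x0 x1 x2 x3 ≠ 0 := nz 3 0 1 2 (by decide)
  have a1 : c y0 x1 x2 x3 ≠ 0 := nz 4 0 1 2 (by decide)
  have a2 : c y1 x1 x2 x3 ≠ 0 := nz 5 0 1 2 (by decide)
  have a3 : c y2 x1 x2 x3 ≠ 0 := nz 6 0 1 2 (by decide)
  have a4 : c y3 x1 x2 x3 ≠ 0 := nz 7 0 1 2 (by decide)
  have b0 : c y0 y1 y2 y3 ≠ 0 := nz 4 5 6 7 (by decide)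
  have b1 : c x0 y1 y2 y3 ≠ 0 := nz 3 5 6 7 (by decide)
  have b2 : c y0 x0 y2 y3 ≠ 0 := nz 4 3 6 7 (by decide)
  have b3 : c y0 y1 x0 y3 ≠ 0 := nz 4 5 3 7 (by decide)
  have b4 : c y0 y1 y2 x0 ≠ 0 := nz 4 5 6 3 (by decide)
  have rot : ∀ e, c x1 x2 x3 e = - c e x1 x2 x3 := by
    intro e
    rw [h.s23 x1 x2 e x3, h.s12 x1 e x2 x3, h.s01 e x1 x2 x3]; simp
  have d2 : c x0 y0 y2 y3 = - c y0 x0 y2 y3 := h.s01 _ _ _ _
  have d3 : c x0 y0 y1 y3 = c y0 y1 x0 y3 := by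
    rw [h.s01 y0 x0 y1 y3, h.s12 y0 y1 x0 y3, neg_neg]
  have d4 : c x0 y0 y1 y2 = - c y0 y1 y2 x0 := by
    rw [h.s01 y0 x0 y1 y2, h.s12 y0 y1 x0 y2, h.s23 y0 y1 y2 x0, neg_neg]
  rw [rot, rot, rot, rot, rot, d2, d3, d4, ng_neg a0, ng_neg a1, ng_neg a2, ng_neg a3, ng_neg a4,
    ng_neg b2, ng_neg b4] at hp
  rw [mul_eq_iff a1 b1 a0 b0, mul_eq_iff a2 b2 a0 b0, mul_eq_iff a3 b3 a0 b0,
    mul_eq_iff a4 b4 a0 b0]
  clear a0 a1 a2 a3 a4 b0 b1 b2 b3 b4 rot d2 d3 d4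
  generalize ng (c x0 x1 x2 x3) = A0 at *
  generalize ng (c y0 x1 x2 x3) = A1 at *
  generalize ng (c y1 x1 x2 x3) = A2 at *
  generalize ng (c y2 x1 x2 x3) = A3 at *
  generalize ng (c y3 x1 x2 x3) = A4 at *
  generalize ng (c y0 y1 y2 y3) = B0 at *
  generalize ng (c x0 y1 y2 y3) = B1 at *
  generalize ng (c y0 x0 y2 y3) = B2 at *
  generalize ng (c y0 y1 x0 y3) = B3 at *
  generalize ng (c y0 y1 y2 x0) = B4 at *
  revert hp
  revert A0 A1 A2 A3 A4 B0 B1 B2 B3 B4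
  decide +kernel

theorem ex4 (h : U4 c) (x0 x1 x2 x3 y1 y2 y3 : F)
    (hn : [x1, x2, x3, x0, y1, y2, y3].Nodup) :
    c y1 x1 x2 x3 * c x1 x0 y2 y3 = c x0 x1 x2 x3 * c x1 y1 y2 y3 ∨
    c y2 x1 x2 x3 * c x1 y1 x0 y3 = c x0 x1 x2 x3 * c x1 y1 y2 y3 ∨
    c y3 x1 x2 x3 * c x1 y1 y2 x0 = c x0 x1 x2 x3 * c x1 y1 y2 y3 := by
  have hv : Function.Injective (![x1, x2, x3, x0, y1, y2, y3] : Fin 7 → F) :=
    inj_of_nodup (by simpa [List.ofFn_succ] using hn)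
  have key := P4 (h.comap _ hv)
  have hp : nae4 (ng (c x1 x2 x3 x0) ^^ ng (c x1 y1 y2 y3))
      (ng (c x1 x2 x3 y1) ^^ !ng (c x1 x0 y2 y3))
      (ng (c x1 x2 x3 y2) ^^ ng (c x1 x0 y1 y3))
      (ng (c x1 x2 x3 y3) ^^ !ng (c x1 x0 y1 y2)) = true := key
  clear key
  have nz := fun i j k l (hh : [i, j, k, l].Nodup) => (h.comap _ hv).nz i j k l hh
  have a0 : c x0 x1 x2 x3 ≠ 0 := nz 3 0 1 2 (by decide)
  have a2 : c y1 x1 x2 x3 ≠ 0 := nz 4 0 1 2 (by decide)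
  have a3 : c y2 x1 x2 x3 ≠ 0 := nz 5 0 1 2 (by decide)
  have a4 : c y3 x1 x2 x3 ≠ 0 := nz 6 0 1 2 (by decide)
  have b0 : c x1 y1 y2 y3 ≠ 0 := nz 0 4 5 6 (by decide)
  have b2 : c x1 x0 y2 y3 ≠ 0 := nz 0 3 5 6 (by decide)
  have b3 : c x1 y1 x0 y3 ≠ 0 := nz 0 4 3 6 (by decide)
  have b4 : c x1 y1 y2 x0 ≠ 0 := nz 0 4 5 3 (by decide)
  have rot : ∀ e, c x1 x2 x3 e = - c e x1 x2 x3 := by
    intro e
    rw [h.s23 x1 x2 e x3, h.s12 x1 e x2 x3, h.s01 e x1 x2 x3]; simp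
  have d3 : c x1 x0 y1 y3 = - c x1 y1 x0 y3 := h.s12 _ _ _ _
  have d4 : c x1 x0 y1 y2 = c x1 y1 y2 x0 := by
    rw [h.s12 x1 y1 x0 y2, h.s23 x1 y1 y2 x0, neg_neg]
  rw [rot, rot, rot, rot, d3, d4, ng_neg a0, ng_neg a2, ng_neg a3, ng_neg a4, ng_neg b3] at hp
  rw [mul_eq_iff a2 b2 a0 b0, mul_eq_iff a3 b3 a0 b0, mul_eq_iff a4 b4 a0 b0]
  clear a0 a2 a3 a4 b0 b2 b3 b4 rot d3 d4
  generalize ng (c x0 x1 x2 x3) = A0 at *
  generalize ng (c y1 x1 x2 x3) = A2 at *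
  generalize ng (c y2 x1 x2 x3) = A3 at *
  generalize ng (c y3 x1 x2 x3) = A4 at *
  generalize ng (c x1 y1 y2 y3) = B0 at *
  generalize ng (c x1 x0 y2 y3) = B2 at *
  generalize ng (c x1 y1 x0 y3) = B3 at *
  generalize ng (c x1 y1 y2 x0) = B4 at *
  revert hp
  revert A0 A2 A3 A4 B0 B2 B3 B4
  decide +kernel

theorem ex3 (h : U4 c) (x0 x1 x2 x3 y2 y3 : F)
    (hn : [x1, x2, x3, x0, y2, y3].Nodup) :
    c y2 x1 x2 x3 * c x1 x2 x0 y3 = c x0 x1 x2 x3 * c x1 x2 y2 y3 ∨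
    c y3 x1 x2 x3 * c x1 x2 y2 x0 = c x0 x1 x2 x3 * c x1 x2 y2 y3 := by
  have hv : Function.Injective (![x1, x2, x3, x0, y2, y3] : Fin 6 → F) :=
    inj_of_nodup (by simpa [List.ofFn_succ] using hn)
  have hp : nae (ng (c x1 x2 x3 x0) ^^ ng (c x1 x2 y2 y3))
      (!(ng (c x1 x2 x3 y2) ^^ ng (c x1 x2 x0 y3)))
      (ng (c x1 x2 x3 y3) ^^ ng (c x1 x2 x0 y2)) = true :=
    (h.comap _ hv).gp 0 1 2 3 4 5 (by decide)
  have nz := fun i j k l (hh : [i, j, k, l].Nodup) => (h.comap _ hv).nz i j k l hh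
  have a0 : c x0 x1 x2 x3 ≠ 0 := nz 3 0 1 2 (by decide)
  have a3 : c y2 x1 x2 x3 ≠ 0 := nz 4 0 1 2 (by decide)
  have a4 : c y3 x1 x2 x3 ≠ 0 := nz 5 0 1 2 (by decide)
  have b0 : c x1 x2 y2 y3 ≠ 0 := nz 0 1 4 5 (by decide)
  have b3 : c x1 x2 x0 y3 ≠ 0 := nz 0 1 3 5 (by decide)
  have b4 : c x1 x2 y2 x0 ≠ 0 := nz 0 1 4 3 (by decide)
  have rot : ∀ e, c x1 x2 x3 e = - c e x1 x2 x3 := by
    intro e
    rw [h.s23 x1 x2 e x3, h.s12 x1 e x2 x3, h.s01 e x1 x2 x3]; simp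
  have d4 : c x1 x2 x0 y2 = - c x1 x2 y2 x0 := h.s23 _ _ _ _
  rw [rot, rot, rot, d4, ng_neg a0, ng_neg a3, ng_neg a4, ng_neg b4] at hp
  rw [mul_eq_iff a3 b3 a0 b0, mul_eq_iff a4 b4 a0 b0]
  clear a0 a3 a4 b0 b3 b4 rot d4
  generalize ng (c x0 x1 x2 x3) = A0 at *
  generalize ng (c y2 x1 x2 x3) = A3 at *
  generalize ng (c y3 x1 x2 x3) = A4 at *
  generalize ng (c x1 x2 y2 y3) = B0 at *
  generalize ng (c x1 x2 x0 y3) = B3 at *
  generalize ng (c x1 x2 y2 x0) = B4 at *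
  revert hp
  revert A0 A3 A4 B0 B3 B4
  decide +kernel

theorem ex2 (h : Alt4 c) (x0 x1 x2 x3 y3 : F) :
    c y3 x1 x2 x3 * c x1 x2 x3 x0 = c x0 x1 x2 x3 * c x1 x2 x3 y3 := by
  have rot : ∀ e, c x1 x2 x3 e = - c e x1 x2 x3 := by
    intro e
    rw [h.s23 x1 x2 e x3, h.s12 x1 e x2 x3, h.s01 e x1 x2 x3]; simp
  rw [rot, rot]
  generalize c y3 x1 x2 x3 = a
  generalize c x0 x1 x2 x3 = b
  revert a b
  decide

/-- The chirotope of a function of four variables. -/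
def chi4 (c : F → F → F → F → SignType) : (Fin 4 → F) → SignType :=
  fun x => c (x 0) (x 1) (x 2) (x 3)

theorem Alt4.swap (h : Alt4 c) (x : Fin 4 → F) (i j : Fin 4) (hij : i ≠ j) :
    chi4 c (x ∘ Equiv.swap i j) = -chi4 c x := by
  have s02 : ∀ x y a b, c a y x b = -c x y a b := by
    intro x y a b
    rw [h.s01 y a x b, h.s12 y x a b, h.s01 x y a b]; simp
  have s13 : ∀ x y a b, c x b a y = -c x y a b := by
    intro x y a b
    rw [h.s12 x a b y, h.s23 x a y b, h.s12 x y a b]; simp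
  have s03 : ∀ x y a b, c b y a x = -c x y a b := by
    intro x y a b
    rw [h.s01 y b a x, s13 y x a b, h.s01 x y a b]; simp
  have key : ∀ i j : Fin 4, i < j → chi4 c (x ∘ Equiv.swap i j) = -chi4 c x := by
    intro i j hij
    fin_cases i <;> fin_cases j <;>
      first
        | exact absurd hij (by decide)
        | exact h.s01 _ _ _ _
        | exact h.s12 _ _ _ _
        | exact h.s23 _ _ _ _
        | exact s02 _ _ _ _
        | exact s13 _ _ _ _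
        | exact s03 _ _ _ _
  rcases lt_or_gt_of_ne hij with hlt | hlt
  · exact key i j hlt
  · rw [Equiv.swap_comm]; exact key j i hlt

theorem Alt4.rep (h : Alt4 c) (x : Fin 4 → F) (hx : ¬ Function.Injective x) : chi4 c x = 0 := by
  simp only [Function.Injective, not_forall] at hx
  obtain ⟨i, j, he, hij⟩ := hx
  have h1 := h.swap x i j hij
  have h2 : x ∘ Equiv.swap i j = x := by
    funext k
    simp only [Function.comp_apply, Equiv.swap_apply_def]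
    split_ifs with h3 h4
    · rw [h3, he]
    · rw [h4, he]
    · rfl
  rw [h2] at h1
  generalize chi4 c x = a at h1
  revert a
  decide

theorem U4.chi_ne (h : U4 c) (x : Fin 4 → F) (hx : Function.Injective x) : chi4 c x ≠ 0 := by
  apply h.nz
  have := List.nodup_ofFn.2 hx
  simpa [List.ofFn_succ] using this

/-- Exchange in the first position. -/
def Ex (c : F → F → F → F → SignType) (x y : Fin 4 → F) : Prop :=
  ∃ i, chi4 c (Function.update x 0 (y i)) * chi4 c (Function.update y i (x 0)) =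
    chi4 c x * chi4 c y

theorem update_comp_swap {n : ℕ} (y : Fin n → F) (i j k : Fin n) (a : F) :
    Function.update (y ∘ Equiv.swap i j) k a =
      Function.update y (Equiv.swap i j k) a ∘ Equiv.swap i j := by
  funext l
  by_cases hl : l = k
  · subst hl; simp
  · rw [Function.update_of_ne hl, Function.comp_apply, Function.comp_apply,
      Function.update_of_ne]
    intro he
    exact hl ((Equiv.swap i j).injective he)

theorem ex_swap_right (h : Alt4 c) (x y : Fin 4 → F) (i j : Fin 4) (hij : i ≠ j)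
    (hE : Ex c x (y ∘ Equiv.swap i j)) : Ex c x y := by
  obtain ⟨k, hk⟩ := hE
  refine ⟨Equiv.swap i j k, ?_⟩
  rw [update_comp_swap, h.swap _ _ _ hij, h.swap _ _ _ hij, Function.comp_apply] at hk
  generalize chi4 c (Function.update x 0 (y (Equiv.swap i j k))) = a at *
  generalize chi4 c (Function.update y (Equiv.swap i j k) (x 0)) = b at *
  generalize chi4 c x = d at *
  generalize chi4 c y = e at *
  revert hk
  revert a b d e
  decide

theorem ex_swap_left (h : Alt4 c) (x y : Fin 4 → F) (i j : Fin 4) (hij : i ≠ j) (hi : i ≠ 0)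
    (hj : j ≠ 0) (hE : Ex c (x ∘ Equiv.swap i j) y) : Ex c x y := by
  obtain ⟨k, hk⟩ := hE
  refine ⟨k, ?_⟩
  have h0 : Equiv.swap i j 0 = 0 := Equiv.swap_apply_of_ne_of_ne hi.symm hj.symm
  rw [update_comp_swap, h.swap _ _ _ hij, h.swap _ _ _ hij, Function.comp_apply, h0] at hk
  generalize chi4 c (Function.update x 0 (y k)) = a at *
  generalize chi4 c (Function.update y k (x 0)) = b at *
  generalize chi4 c x = d at *
  generalize chi4 c y = e at *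
  revert hk
  revert a b d e
  decide

end Pool.Agent.MandelOM
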