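import Pool.Agent.MandelOM.Exch

/-!
Uniform chirotopes of rank four satisfy the exchange axiom.
-/

namespace Pool.Agent.MandelOM

variable {F : Type*} {c : F → F → F → F → SignType}

theorem ex_S0 (h : U4 c) (x y : Fin 4 → F) (hx : Function.Injective x)
    (hy : Function.Injective y) (hd : ∀ i j, x i ≠ y j) : Ex c x y := by
  have := ex5 h (x 0) (x 1) (x 2) (x 3) (y 0) (y 1) (y 2) (y 3)
    (by simp [hx.eq_iff, hy.eq_iff, hd])
  rcases this with h0 | h1 | h2 | h3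
  exacts [⟨0, h0⟩, ⟨1, h1⟩, ⟨2, h2⟩, ⟨3, h3⟩]

theorem ex_S1 (h : U4 c) (x y : Fin 4 → F) (hx : Function.Injective x)
    (hy : Function.Injective y) (h1 : y 0 = x 1) (hd : ∀ i j, i ≠ 1 → x i ≠ y j) :
    Ex c x y := by
  have e : ∀ j, j ≠ 0 → x 1 ≠ y j := fun j hj hh => hj (hy (hh.symm.trans h1.symm))
  have := ex4 h (x 0) (x 1) (x 2) (x 3) (y 1) (y 2) (y 3)
    (by
      have d0 := fun j => hd 0 j (by decide)
      have d2 := fun j => hd 2 j (by decide)
      have d3 := fun j => hd 3 j (by decide)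
      simp [hx.eq_iff, hy.eq_iff, d0, d2, d3, e])
  rw [← h1] at this
  rcases this with h1' | h2 | h3
  · refine ⟨1, ?_⟩
    show c (y 1) (x 1) (x 2) (x 3) * c (y 0) (x 0) (y 2) (y 3) =
      c (x 0) (x 1) (x 2) (x 3) * c (y 0) (y 1) (y 2) (y 3)
    rw [← h1]; exact h1'
  · refine ⟨2, ?_⟩
    show c (y 2) (x 1) (x 2) (x 3) * c (y 0) (y 1) (x 0) (y 3) =
      c (x 0) (x 1) (x 2) (x 3) * c (y 0) (y 1) (y 2) (y 3)
    rw [← h1]; exact h2
  · refine ⟨3, ?_⟩
    show c (y 3) (x 1) (x 2) (x 3) * c (y 0) (y 1) (y 2) (x 0) =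
      c (x 0) (x 1) (x 2) (x 3) * c (y 0) (y 1) (y 2) (y 3)
    rw [← h1]; exact h3

theorem ex_S2 (h : U4 c) (x y : Fin 4 → F) (hx : Function.Injective x)
    (hy : Function.Injective y) (h1 : y 0 = x 1) (h2 : y 1 = x 2)
    (hd : ∀ i j, i ≠ 1 → i ≠ 2 → x i ≠ y j) : Ex c x y := by
  have e : ∀ j, j ≠ 0 → x 1 ≠ y j := fun j hj hh => hj (hy (hh.symm.trans h1.symm))
  have e' : ∀ j, j ≠ 1 → x 2 ≠ y j := fun j hj hh => hj (hy (hh.symm.trans h2.symm))
  have := ex3 h (x 0) (x 1) (x 2) (x 3) (y 2) (y 3)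
    (by
      have d0 := fun j => hd 0 j (by decide) (by decide)
      have d3 := fun j => hd 3 j (by decide) (by decide)
      simp [hx.eq_iff, hy.eq_iff, d0, d3, e, e'])
  rcases this with h3 | h3
  · refine ⟨2, ?_⟩
    show c (y 2) (x 1) (x 2) (x 3) * c (y 0) (y 1) (x 0) (y 3) =
      c (x 0) (x 1) (x 2) (x 3) * c (y 0) (y 1) (y 2) (y 3)
    rw [h1, h2]; exact h3
  · refine ⟨3, ?_⟩
    show c (y 3) (x 1) (x 2) (x 3) * c (y 0) (y 1) (y 2) (x 0) =
      c (x 0) (x 1) (x 2) (x 3) * c (y 0) (y 1) (y 2) (y 3)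
    rw [h1, h2]; exact h3

theorem ex_S3 (h : Alt4 c) (x y : Fin 4 → F) (h1 : y 0 = x 1) (h2 : y 1 = x 2) (h3 : y 2 = x 3) :
    Ex c x y := by
  refine ⟨3, ?_⟩
  show c (y 3) (x 1) (x 2) (x 3) * c (y 0) (y 1) (y 2) (x 0) =
      c (x 0) (x 1) (x 2) (x 3) * c (y 0) (y 1) (y 2) (y 3)
  rw [h1, h2, h3]
  exact ex2 h _ _ _ _ _

theorem wlog_right (h : Alt4 c) (x y : Fin 4 → F) (i j : Fin 4)
    (hE : Ex c x (y ∘ Equiv.swap i j)) : Ex c x y := by
  by_cases hij : i = j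
  · subst hij
    simpa using hE
  · exact ex_swap_right h x y i j hij hE

/-- Bring the element `a` of `y` to position `m`. -/
theorem bring (y : Fin 4 → F) (m : Fin 4) (a : F) (ha : ∃ i, y i = a) :
    ∃ j, (y ∘ Equiv.swap m j) m = a ∧ ∀ l, l ≠ m → y l ≠ a → (y ∘ Equiv.swap m j) l = y l := by
  obtain ⟨j, hj⟩ := ha
  refine ⟨j, by simp [hj], ?_⟩
  intro l hl hla
  have : l ≠ j := by rintro rfl; exact hla hj
  rw [Function.comp_apply, Equiv.swap_apply_of_ne_of_ne hl this]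

theorem mem_comp_swap (y : Fin 4 → F) (i j : Fin 4) (a : F) :
    (∃ k, (y ∘ Equiv.swap i j) k = a) ↔ ∃ k, y k = a := by
  constructor
  · rintro ⟨k, hk⟩; exact ⟨_, hk⟩
  · rintro ⟨k, hk⟩
    exact ⟨Equiv.swap i j k, by simpa using hk⟩

theorem ex_T1 (h : U4 c) (x y : Fin 4 → F) (hx : Function.Injective x)
    (hy : Function.Injective y) (h0 : ¬ ∃ i, y i = x 0) (h1 : ∃ i, y i = x 1)
    (h2 : ¬ ∃ i, y i = x 2) (h3 : ¬ ∃ i, y i = x 3) : Ex c x y := by
  obtain ⟨j, hj, -⟩ := bring y 0 (x 1) h1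
  apply wlog_right h.toAlt4 x y 0 j
  apply ex_S1 h x _ hx (hy.comp (Equiv.injective _)) hj
  intro i k hi he
  fin_cases i
  · exact h0 ⟨_, he.symm⟩
  · exact hi rfl
  · exact h2 ⟨_, he.symm⟩
  · exact h3 ⟨_, he.symm⟩

theorem ex_T2 (h : U4 c) (x y : Fin 4 → F) (hx : Function.Injective x)
    (hy : Function.Injective y) (h0 : ¬ ∃ i, y i = x 0) (h1 : ∃ i, y i = x 1)
    (h2 : ∃ i, y i = x 2) (h3 : ¬ ∃ i, y i = x 3) : Ex c x y := by
  obtain ⟨j, hj, -⟩ := bring y 0 (x 1) h1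
  apply wlog_right h.toAlt4 x y 0 j
  obtain ⟨k, hk, hk'⟩ := bring (y ∘ Equiv.swap 0 j) 1 (x 2) ((mem_comp_swap _ _ _ _).2 h2)
  apply wlog_right h.toAlt4 x _ 1 k
  apply ex_S2 h x _ hx ((hy.comp (Equiv.injective _)).comp (Equiv.injective _)) _ hk
  · intro i l hi hi' he
    fin_cases i
    · exact h0 ⟨_, he.symm⟩
    · exact hi rfl
    · exact hi' rfl
    · exact h3 ⟨_, he.symm⟩
  · rw [hk' 0 (by decide) (by rw [hj]; intro hh; exact absurd (hx hh) (by decide)), hj]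

theorem ex_T3 (h : U4 c) (x y : Fin 4 → F) (hx : Function.Injective x)
    (h1 : ∃ i, y i = x 1)
    (h2 : ∃ i, y i = x 2) (h3 : ∃ i, y i = x 3) : Ex c x y := by
  obtain ⟨j, hj, -⟩ := bring y 0 (x 1) h1
  apply wlog_right h.toAlt4 x y 0 j
  obtain ⟨k, hk, hk'⟩ := bring (y ∘ Equiv.swap 0 j) 1 (x 2) ((mem_comp_swap _ _ _ _).2 h2)
  apply wlog_right h.toAlt4 x _ 1 k
  have e0 : ((y ∘ Equiv.swap 0 j) ∘ Equiv.swap 1 k) 0 = x 1 := by
    rw [hk' 0 (by decide) (by rw [hj]; intro hh; exact absurd (hx hh) (by decide)), hj]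
  obtain ⟨l, hl, hl'⟩ := bring ((y ∘ Equiv.swap 0 j) ∘ Equiv.swap 1 k) 2 (x 3)
    ((mem_comp_swap _ _ _ _).2 ((mem_comp_swap _ _ _ _).2 h3))
  apply wlog_right h.toAlt4 x _ 2 l
  apply ex_S3 h.toAlt4 x _ _ _ hl
  · rw [hl' 0 (by decide) (by rw [e0]; intro hh; exact absurd (hx hh) (by decide)), e0]
  · rw [hl' 1 (by decide) (by rw [hk]; intro hh; exact absurd (hx hh) (by decide)), hk]

/-- Exchange in the first position for uniform chirotopes. -/
theorem U4.ex (h : U4 c) (x y : Fin 4 → F) (hx : Function.Injective x)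
    (hy : Function.Injective y) : Ex c x y := by
  by_cases h0 : ∃ i, y i = x 0
  · obtain ⟨i, hi⟩ := h0
    refine ⟨i, ?_⟩
    rw [hi, ← hi, Function.update_eq_self, hi, Function.update_eq_self]
  have sw : ∀ i j : Fin 4, i ≠ 0 → j ≠ 0 → i ≠ j → Ex c (x ∘ Equiv.swap i j) y → Ex c x y :=
    fun i j hi hj hij hE => ex_swap_left h.toAlt4 x y i j hij hi hj hE
  have hxs : ∀ i j : Fin 4, Function.Injective (x ∘ Equiv.swap i j) :=
    fun i j => hx.comp (Equiv.injective _)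
  by_cases h1 : ∃ i, y i = x 1 <;> by_cases h2 : ∃ i, y i = x 2 <;>
    by_cases h3 : ∃ i, y i = x 3
  · exact ex_T3 h x y hx h1 h2 h3
  · exact ex_T2 h x y hx hy h0 h1 h2 h3
  · exact sw 2 3 (by decide) (by decide) (by decide)
      (ex_T2 h _ y (hxs 2 3) hy h0 h1 h3 h2)
  · exact ex_T1 h x y hx hy h0 h1 h2 h3
  · exact sw 1 3 (by decide) (by decide) (by decide)
      (ex_T2 h _ y (hxs 1 3) hy h0 h3 h2 h1)
  · exact sw 1 2 (by decide) (by decide) (by decide)
      (ex_T1 h _ y (hxs 1 2) hy h0 h2 h1 h3)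
  · exact sw 1 3 (by decide) (by decide) (by decide)
      (ex_T1 h _ y (hxs 1 3) hy h0 h3 h2 h1)
  · apply ex_S0 h x y hx hy
    intro i j he
    fin_cases i
    · exact h0 ⟨_, he.symm⟩
    · exact h1 ⟨_, he.symm⟩
    · exact h2 ⟨_, he.symm⟩
    · exact h3 ⟨_, he.symm⟩

/-- Exchange property in the first position (for functions that may vanish). -/
def Exch (χ : (Fin 4 → F) → SignType) : Prop :=
  ∀ x y : Fin 4 → F, χ x ≠ 0 → χ y ≠ 0 →
    ∃ i, χ (Function.update x 0 (y i)) * χ (Function.update y i (x 0)) = χ x * χ y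

theorem U4.exch (h : U4 c) : Exch (chi4 c) := by
  intro x y hx hy
  have hx' : Function.Injective x := by
    by_contra hcon; exact hx (h.rep x hcon)
  have hy' : Function.Injective y := by
    by_contra hcon; exact hy (h.rep y hcon)
  exact h.ex x y hx' hy'

/-- Exchange in the first position implies exchange in each position. -/
theorem exch_all (h : Alt4 c) (hE : Exch (chi4 c)) (x y : Fin 4 → F) (k : Fin 4)
    (hx : chi4 c x ≠ 0) (hy : chi4 c y ≠ 0) :
    ∃ i, chi4 c (Function.update x k (y i)) * chi4 c (Function.update y i (x k)) =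
      chi4 c x * chi4 c y := by
  by_cases hk : k = 0
  · subst hk; exact hE x y hx hy
  have hx' : chi4 c (x ∘ Equiv.swap 0 k) ≠ 0 := by
    rw [h.swap x 0 k (Ne.symm hk)]
    revert hx
    generalize chi4 c x = a
    revert a
    decide
  obtain ⟨i, hi⟩ := hE (x ∘ Equiv.swap 0 k) y hx' hy
  refine ⟨i, ?_⟩
  rw [update_comp_swap, Equiv.swap_apply_left, h.swap _ 0 k (Ne.symm hk),
    h.swap _ 0 k (Ne.symm hk), Function.comp_apply, Equiv.swap_apply_left] at hi
  clear hx hy hx'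
  generalize chi4 c (Function.update x k (y i)) = a at *
  generalize chi4 c (Function.update y i (x k)) = b at *
  generalize chi4 c x = d at *
  generalize chi4 c y = e at *
  revert hi
  revert a b d e
  decide

/-- The oriented matroid of an alternating function with the exchange property. -/
def mkOM (c : F → F → F → F → SignType) (h : Alt4 c) (hE : Exch (chi4 c))
    (hn : ∃ x, chi4 c x ≠ 0) : OM F 4 where
  chi := chi4 c
  nonzero := hn
  alternating := h.swap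
  exchange := exch_all h hE

end Pool.Agent.MandelOM
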