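import Pool.Agent.MandelOM.Neg

/-!
Single-element extensions: the three-term relations.
-/

namespace Pool.Agent.MandelOM

variable {F : Type*} {c : F → F → F → F → SignType} {τ : F → F → F → SignType}

/-- The extension of `c` by a new element with values `τ`. -/
def extc (c : F → F → F → F → SignType) (τ : F → F → F → SignType) :
    Option F → Option F → Option F → Option F → SignType
  | some x, some y, some z, some w => c x y z w
  | some x, some y, some z, none => τ x y z
  | some x, some y, none, some z => -τ x y z
  | some x, none, some y, some z => τ x y z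
  | none, some x, some y, some z => -τ x y z
  | _, _, _, _ => 0

/-- Alternating functions of three variables. -/
structure Alt3 (τ : F → F → F → SignType) : Prop where
  s01 : ∀ x y z, τ y x z = -τ x y z
  s12 : ∀ x y z, τ x z y = -τ x y z

theorem alt_extc (h : Alt4 c) (ht : Alt3 τ) : Alt4 (extc c τ) where
  s01 := by
    intro x y a b
    cases x <;> cases y <;> cases a <;> cases b <;> simp only [extc, neg_zero, neg_neg]
    all_goals
      first
        | exact h.s01 _ _ _ _
        | exact ht.s01 _ _ _
        | (rw [ht.s01]; done)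
        | (rw [ht.s01, neg_neg]; done)
  s12 := by
    intro x y a b
    cases x <;> cases y <;> cases a <;> cases b <;> simp only [extc, neg_zero, neg_neg]
    all_goals
      first
        | exact h.s12 _ _ _ _
        | exact ht.s12 _ _ _
        | (rw [ht.s01]; done)
        | (rw [ht.s01, neg_neg]; done)
        | (rw [ht.s12]; done)
        | (rw [ht.s12, neg_neg]; done)
  s23 := by
    intro x y a b
    cases x <;> cases y <;> cases a <;> cases b <;> simp only [extc, neg_zero, neg_neg]
    all_goals
      first
        | exact h.s23 _ _ _ _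
        | exact ht.s12 _ _ _
        | (rw [ht.s12]; done)
        | (rw [ht.s12, neg_neg]; done)

/-- The three-term relation on the line `x ∩ y` for the elements `a`, `b`, `d` and the new
element. -/
def Rel (c : F → F → F → F → SignType) (τ : F → F → F → SignType) (x y a b d : F) : Prop :=
  nae (ng (c x y a b) ^^ ng (τ x y d)) (!(ng (c x y a d) ^^ ng (τ x y b)))
    (ng (τ x y a) ^^ ng (c x y b d)) = true

theorem nodup5_mem {x y a b d : F} (h : [x, y, a, b, d].Nodup) :
    x ≠ y ∧ x ≠ a ∧ x ≠ b ∧ x ≠ d ∧ y ≠ a ∧ y ≠ b ∧ y ≠ d ∧ a ≠ b ∧ a ≠ d ∧ b ≠ d := by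
  simp only [List.nodup_cons, List.mem_cons, List.not_mem_nil, or_false, not_or,
        List.nodup_nil, and_true, not_false_eq_true] at h
  tauto

theorem nodup_of_ne4 {x y a b : F} (h1 : x ≠ y) (h2 : x ≠ a) (h3 : x ≠ b) (h4 : y ≠ a)
    (h5 : y ≠ b) (h6 : a ≠ b) : [x, y, a, b].Nodup := by
  simp; tauto

theorem nodup_of_ne5 {x y a b d : F} (h1 : x ≠ y) (h2 : x ≠ a) (h3 : x ≠ b) (h4 : x ≠ d)
    (h5 : y ≠ a) (h6 : y ≠ b) (h7 : y ≠ d) (h8 : a ≠ b) (h9 : a ≠ d) (h10 : b ≠ d) :
    [x, y, a, b, d].Nodup := by
  simp; tauto

theorem rank3 (h : U4 c) (ht : Alt3 τ) (hnz : ∀ x y z, x ≠ y → x ≠ z → y ≠ z → τ x y z ≠ 0)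
    (hT : ∀ x y a b d, [x, y, a, b, d].Nodup → Rel c τ x y a b d) {x a b d e : F}
    (hn : [x, a, b, d, e].Nodup) :
    nae (ng (τ x a b) ^^ ng (τ x d e)) (!(ng (τ x a d) ^^ ng (τ x b e)))
      (ng (τ x a e) ^^ ng (τ x b d)) = true := by
  obtain ⟨xa, xb, xd, xe, ab, ad, ae, bd, be, de⟩ := nodup5_mem hn
  have r1 := hT x a b d e hn
  have r2 := hT x b a d e
    (nodup_of_ne5 xb xa xd xe ab.symm bd be ad ae de)
  have r3 := hT x d a b e
    (nodup_of_ne5 xd xa xb xe ad.symm bd.symm de ab ae be)
  have r4 := hT x e a b d
    (nodup_of_ne5 xe xa xb xd ae.symm be.symm de.symm ab ad bd)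
  unfold Rel at r1 r2 r3 r4
  have n1 : c x a b d ≠ 0 := h.nz _ _ _ _ (nodup_of_ne4 xa xb xd ab ad bd)
  have n2 : c x a b e ≠ 0 := h.nz _ _ _ _ (nodup_of_ne4 xa xb xe ab ae be)
  have n3 : c x a d e ≠ 0 := h.nz _ _ _ _ (nodup_of_ne4 xa xd xe ad ae de)
  have n4 : c x b d e ≠ 0 := h.nz _ _ _ _ (nodup_of_ne4 xb xd xe bd be de)
  have m1 := hnz x a b xa xb ab
  have m2 := hnz x a d xa xd ad
  have m3 := hnz x a e xa xe ae
  have m4 := hnz x b d xb xd bd
  have m5 := hnz x b e xb xe be
  have m6 := hnz x d e xd xe de
  rw [h.s12 x a b d, h.s12 x a b e, ht.s12 x a b, ng_neg n1, ng_neg n2, ng_neg m1] at r2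
  rw [h.s12 x a d b, h.s23 x a b d, neg_neg, h.s12 x a d e, ht.s12 x b d, ht.s12 x a d,
    h.s12 x b d e, ng_neg n3, ng_neg m4, ng_neg m2, ng_neg n4] at r3
  rw [h.s12 x a e b, h.s23 x a b e, neg_neg, ht.s12 x d e, h.s12 x a e d, h.s23 x a d e, neg_neg,
    ht.s12 x b e, ht.s12 x a e, h.s12 x b e d, h.s23 x b d e, neg_neg, ng_neg m6, ng_neg m5,
    ng_neg m3] at r4
  clear n1 n2 n3 n4 m1 m2 m3 m4 m5 m6 hn xa xb xd xe ab ad ae bd be de hT hnz ht h
  generalize ng (c x a b d) = v1 at *
  generalize ng (c x a b e) = v2 at *
  generalize ng (c x a d e) = v3 at *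
  generalize ng (c x b d e) = v4 at *
  generalize ng (τ x a b) = w1 at *
  generalize ng (τ x a d) = w2 at *
  generalize ng (τ x a e) = w3 at *
  generalize ng (τ x b d) = w4 at *
  generalize ng (τ x b e) = w5 at *
  generalize ng (τ x d e) = w6 at *
  revert r1 r2 r3 r4
  revert v1 v2 v3 v4 w1 w2 w3 w4 w5 w6
  decide +kernel

theorem map_some_nodup {l : List F} (h : (l.map some).Nodup) : l.Nodup := h.of_map _

theorem u4_extc (h : U4 c) (ht : Alt3 τ) (hnz : ∀ x y z, x ≠ y → x ≠ z → y ≠ z → τ x y z ≠ 0)
    (hT : ∀ x y a b d, [x, y, a, b, d].Nodup → Rel c τ x y a b d) : U4 (extc c τ) where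
  toAlt4 := alt_extc h.toAlt4 ht
  nz := by
    intro x y a b hn
    cases x <;> cases y <;> cases a <;> cases b <;>
      first
        | (exfalso; simp at hn; done)
        | skip
    · simp only [extc]
      simp at hn
      have := hnz _ _ _ hn.1.1 hn.1.2 hn.2
      simpa using this
    · simp only [extc]
      simp at hn
      exact hnz _ _ _ hn.1.1 hn.1.2 hn.2
    · simp only [extc]
      simp at hn
      have := hnz _ _ _ hn.1.1 hn.1.2 hn.2
      simpa using this
    · simp only [extc]
      simp at hn
      exact hnz _ _ _ hn.1.1 hn.1.2 hn.2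
    · exact h.nz _ _ _ _ (map_some_nodup (l := [_, _, _, _]) hn)
  gp := by
    intro x y a b d e hn
    cases x <;> cases y <;> cases a <;> cases b <;> cases d <;> cases e <;>
      first
        | (exfalso; simp at hn; done)
        | skip
    · -- x = none
      rename_i y a b d e
      simp only [extc]
      have hn' : [y, a, b, d, e].Nodup := map_some_nodup (l := [y, a, b, d, e])
        (by simpa using (List.nodup_cons.1 hn).2)
      obtain ⟨ya, yb, yd, ye, ab, ad, ae, bd, be, de⟩ := nodup5_mem hn'
      have key := rank3 h ht hnz hT hn'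
      rw [ng_neg (hnz _ _ _ ya yb ab), ng_neg (hnz _ _ _ yd ye de), ng_neg (hnz _ _ _ ya yd ad),
        ng_neg (hnz _ _ _ yb ye be), ng_neg (hnz _ _ _ ya ye ae), ng_neg (hnz _ _ _ yb yd bd)]
      revert key
      generalize ng (τ y a b) = v1
      generalize ng (τ y d e) = v2
      generalize ng (τ y a d) = v3
      generalize ng (τ y b e) = v4
      generalize ng (τ y a e) = v5
      generalize ng (τ y b d) = v6
      revert v1 v2 v3 v4 v5 v6
      decide +kernel
    · -- y = none
      rename_i x a b d e
      simp only [extc]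
      have hn' : [x, a, b, d, e].Nodup := by
        apply map_some_nodup (l := [x, a, b, d, e])
        simp only [List.map_cons, List.map_nil]
        exact hn.sublist (List.Sublist.cons_cons _ (List.sublist_cons_self _ _))
      exact rank3 h ht hnz hT hn'
    · -- a = none
      rename_i x y b d e
      simp only [extc]
      have hn' : [x, y, b, d, e].Nodup := by
        apply map_some_nodup (l := [x, y, b, d, e])
        simp only [List.map_cons, List.map_nil]
        exact hn.sublist (List.Sublist.cons_cons _ (List.Sublist.cons_cons _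
          (List.sublist_cons_self _ _)))
      obtain ⟨xy, xb, xd, xe, yb, yd, ye, bd, be, de⟩ := nodup5_mem hn'
      have key := hT x y b d e hn'
      unfold Rel at key
      rw [ng_neg (hnz _ _ _ xy xb yb), ng_neg (hnz _ _ _ xy xd yd), ng_neg (hnz _ _ _ xy xe ye)]
      revert key
      generalize ng (c x y b d) = v1
      generalize ng (τ x y e) = v2
      generalize ng (c x y b e) = v3
      generalize ng (τ x y d) = v4
      generalize ng (τ x y b) = v5
      generalize ng (c x y d e) = v6
      revert v1 v2 v3 v4 v5 v6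
      decide +kernel
    · -- b = none
      rename_i x y a d e
      simp only [extc]
      have hn' : [x, y, a, d, e].Nodup := by
        apply map_some_nodup (l := [x, y, a, d, e])
        simp only [List.map_cons, List.map_nil]
        exact hn.sublist (List.Sublist.cons_cons _ (List.Sublist.cons_cons _
          (List.Sublist.cons_cons _ (List.sublist_cons_self _ _))))
      obtain ⟨xy, xa, xd, xe, ya, yd, ye, ad, ae, de⟩ := nodup5_mem hn'
      have key := hT x y a d e hn'
      unfold Rel at key
      rw [ng_neg (hnz _ _ _ xy xe ye), ng_neg (hnz _ _ _ xy xd yd)]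
      revert key
      generalize ng (c x y a d) = v1
      generalize ng (τ x y e) = v2
      generalize ng (c x y a e) = v3
      generalize ng (τ x y d) = v4
      generalize ng (τ x y a) = v5
      generalize ng (c x y d e) = v6
      revert v1 v2 v3 v4 v5 v6
      decide +kernel
    · -- d = none
      rename_i x y a b e
      simp only [extc]
      have hn' : [x, y, a, b, e].Nodup := by
        apply map_some_nodup (l := [x, y, a, b, e])
        simp only [List.map_cons, List.map_nil]
        exact hn.sublist (List.Sublist.cons_cons _ (List.Sublist.cons_cons _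
          (List.Sublist.cons_cons _ (List.Sublist.cons_cons _ (List.sublist_cons_self _ _)))))
      obtain ⟨xy, xa, xb, xe, ya, yb, ye, ab, ae, be⟩ := nodup5_mem hn'
      have key := hT x y a b e hn'
      unfold Rel at key
      rw [ng_neg (hnz _ _ _ xy xe ye)]
      revert key
      generalize ng (c x y a b) = v1
      generalize ng (τ x y e) = v2
      generalize ng (c x y a e) = v3
      generalize ng (τ x y b) = v4
      generalize ng (τ x y a) = v5
      generalize ng (c x y b e) = v6
      revert v1 v2 v3 v4 v5 v6
      decide +kernel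
    · -- e = none
      rename_i x y a b d
      have hn' : [x, y, a, b, d].Nodup := by
        apply map_some_nodup (l := [x, y, a, b, d])
        simp only [List.map_cons, List.map_nil]
        exact hn.sublist (List.Sublist.cons_cons _ (List.Sublist.cons_cons _
          (List.Sublist.cons_cons _ (List.Sublist.cons_cons _ (List.Sublist.cons_cons _
            (List.nil_sublist _))))))
      exact hT x y a b d hn'
    · exact h.gp _ _ _ _ _ _ (map_some_nodup (l := [_, _, _, _, _, _]) hn)

end Pool.Agent.MandelOM
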