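import Pool.Agent.MandelOM.Ext1

/-!
The values of a new element parallel to `f`, given by a potential, and its perturbations.
-/

namespace Pool.Agent.MandelOM

variable {F : Type*} {c : F → F → F → F → SignType} {τ : F → F → F → SignType}

theorem Rel.swap_line (h : U4 c) (ht : Alt3 τ)
    (hnz : ∀ x y z, x ≠ y → x ≠ z → y ≠ z → τ x y z ≠ 0) {x y a b d : F}
    (hn : [x, y, a, b, d].Nodup) (hr : Rel c τ x y a b d) : Rel c τ y x a b d := by
  obtain ⟨xy, xa, xb, xd, ya, yb, yd, ab, ad, bd⟩ := nodup5_mem hn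
  unfold Rel at hr ⊢
  rw [h.s01 x y a b, h.s01 x y a d, h.s01 x y b d, ht.s01 x y d, ht.s01 x y b, ht.s01 x y a,
    ng_neg (h.nz _ _ _ _ (nodup_of_ne4 xy xa xb ya yb ab)),
    ng_neg (h.nz _ _ _ _ (nodup_of_ne4 xy xa xd ya yd ad)),
    ng_neg (h.nz _ _ _ _ (nodup_of_ne4 xy xb xd yb yd bd)),
    ng_neg (hnz _ _ _ xy xd yd), ng_neg (hnz _ _ _ xy xb yb), ng_neg (hnz _ _ _ xy xa ya)]
  revert hr
  generalize ng (c x y a b) = v1
  generalize ng (c x y a d) = v2
  generalize ng (c x y b d) = v3
  generalize ng (τ x y d) = v4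
  generalize ng (τ x y b) = v5
  generalize ng (τ x y a) = v6
  revert v1 v2 v3 v4 v5 v6
  decide +kernel

/-- On the line `x ∩ y` the new element is close to `± e`. -/
theorem rel_near (h : U4 c) (hnz : ∀ x y z, x ≠ y → x ≠ z → y ≠ z → τ x y z ≠ 0) {x y e : F}
    (hxe : x ≠ e) (hye : y ≠ e) {k : SignType} (hk : k ≠ 0)
    (hval : ∀ a, a ≠ x → a ≠ y → a ≠ e → τ x y a = k * c x y a e) {a b d : F}
    (hn : [x, y, a, b, d].Nodup) : Rel c τ x y a b d := by
  obtain ⟨xy, xa, xb, xd, ya, yb, yd, ab, ad, bd⟩ := nodup5_mem hn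
  have nc : ∀ u v, x ≠ u → x ≠ v → y ≠ u → y ≠ v → u ≠ v → c x y u v ≠ 0 :=
    fun u v h1 h2 h3 h4 h5 => h.nz _ _ _ _ (nodup_of_ne4 xy h1 h2 h3 h4 h5)
  have hv : ∀ u, u ≠ x → u ≠ y → u ≠ e → ng (τ x y u) = (ng k ^^ ng (c x y u e)) := by
    intro u h1 h2 h3
    rw [hval u h1 h2 h3, ng_mul hk (nc u e h1.symm hxe h2.symm hye h3)]
  unfold Rel
  by_cases hde : d = e
  · subst hde
    rw [hv a xa.symm ya.symm ad, hv b xb.symm yb.symm bd]
    generalize ng (c x y a b) = v1
    generalize ng (c x y a d) = v2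
    generalize ng (c x y b d) = v3
    generalize ng (τ x y d) = v4
    generalize ng k = v5
    revert v1 v2 v3 v4 v5
    decide +kernel
  · by_cases hbe : b = e
    · subst hbe
      rw [hv a xa.symm ya.symm ab, hv d xd.symm yd.symm hde, h.s23 x y d b,
        ng_neg (nc d b xd xb yd yb bd.symm)]
      generalize ng (c x y a b) = v1
      generalize ng (c x y a d) = v2
      generalize ng (c x y d b) = v3
      generalize ng (τ x y b) = v4
      generalize ng k = v5
      revert v1 v2 v3 v4 v5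
      decide +kernel
    · by_cases hae : a = e
      · subst hae
        rw [hv b xb.symm yb.symm hbe, hv d xd.symm yd.symm hde, h.s23 x y d a, h.s23 x y b a,
          ng_neg (nc d a xd xa yd ya hde), ng_neg (nc b a xb xa yb ya hbe)]
        generalize ng (c x y b a) = v1
        generalize ng (c x y d a) = v2
        generalize ng (c x y b d) = v3
        generalize ng (τ x y a) = v4
        generalize ng k = v5
        revert v1 v2 v3 v4 v5
        decide +kernel
      · rw [hv a xa.symm ya.symm hae, hv b xb.symm yb.symm hbe, hv d xd.symm yd.symm hde]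
        have key := h.gp x y a b d e (by simp; tauto)
        revert key
        generalize ng (c x y a b) = v1
        generalize ng (c x y d e) = v2
        generalize ng (c x y a d) = v3
        generalize ng (c x y b e) = v4
        generalize ng (c x y a e) = v5
        generalize ng (c x y b d) = v6
        generalize ng k = v7
        revert v1 v2 v3 v4 v5 v6 v7
        decide +kernel

/-- On the line `x ∩ y` it is enough to consider the relations with `g`. -/
theorem rel_affine (h : U4 c) (hnz : ∀ x y z, x ≠ y → x ≠ z → y ≠ z → τ x y z ≠ 0) {x y g : F}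
    (hxg : x ≠ g) (hyg : y ≠ g)
    (hr : ∀ a b, [x, y, a, b, g].Nodup → Rel c τ x y a b g) {a b d : F}
    (hn : [x, y, a, b, d].Nodup) : Rel c τ x y a b d := by
  obtain ⟨xy, xa, xb, xd, ya, yb, yd, ab, ad, bd⟩ := nodup5_mem hn
  have nc : ∀ u v, x ≠ u → x ≠ v → y ≠ u → y ≠ v → u ≠ v → c x y u v ≠ 0 :=
    fun u v h1 h2 h3 h4 h5 => h.nz _ _ _ _ (nodup_of_ne4 xy h1 h2 h3 h4 h5)
  by_cases hdg : d = g
  · subst hdg; exact hr a b hn
  by_cases hbg : b = g
  · subst hbg
    have key := hr a d (nodup_of_ne5 xy xa xd xb ya yd yb ad ab bd.symm)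
    unfold Rel at key ⊢
    rw [h.s23 x y b d, ng_neg (nc b d xb xd yb yd bd)] at key
    revert key
    generalize ng (c x y a b) = v1
    generalize ng (c x y a d) = v2
    generalize ng (c x y b d) = v3
    generalize ng (τ x y a) = v4
    generalize ng (τ x y b) = v5
    generalize ng (τ x y d) = v6
    revert v1 v2 v3 v4 v5 v6
    decide +kernel
  by_cases hag : a = g
  · subst hag
    have key := hr b d (nodup_of_ne5 xy xb xd xa yb yd ya bd ab.symm ad.symm)
    unfold Rel at key ⊢
    rw [h.s23 x y a b, h.s23 x y a d, ng_neg (nc a b xa xb ya yb ab),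
      ng_neg (nc a d xa xd ya yd ad)] at key
    revert key
    generalize ng (c x y a b) = v1
    generalize ng (c x y a d) = v2
    generalize ng (c x y b d) = v3
    generalize ng (τ x y a) = v4
    generalize ng (τ x y b) = v5
    generalize ng (τ x y d) = v6
    revert v1 v2 v3 v4 v5 v6
    decide +kernel
  have k1 := hr a b (nodup_of_ne5 xy xa xb hxg ya yb hyg ab hag hbg)
  have k2 := hr a d (nodup_of_ne5 xy xa xd hxg ya yd hyg ad hag hdg)
  have k3 := hr b d (nodup_of_ne5 xy xb xd hxg yb yd hyg bd hbg hdg)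
  have k4 := h.gp x y a b d g (by simp; tauto)
  unfold Rel at k1 k2 k3 ⊢
  revert k1 k2 k3 k4
  generalize ng (c x y a b) = v1
  generalize ng (c x y a d) = v2
  generalize ng (c x y b d) = v3
  generalize ng (c x y a g) = v4
  generalize ng (c x y b g) = v5
  generalize ng (c x y d g) = v6
  generalize ng (τ x y a) = v7
  generalize ng (τ x y b) = v8
  generalize ng (τ x y d) = v9
  generalize ng (τ x y g) = v10
  revert v1 v2 v3 v4 v5 v6 v7 v8 v9 v10
  decide +kernel

theorem sign_aux1 : ∀ v1 v2 v3 v4 : SignType, v1 ≠ 0 → v2 ≠ 0 → v3 ≠ 0 → v4 ≠ 0 →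
    ¬ (v1 * v2 = v3 * v4) → ¬ (-v1 * v2 = v4 * v3) → False := by
  intro v1 v2 v3 v4 h1 h2 h3 h4
  cases v1 <;> cases v2 <;> cases v3 <;> cases v4 <;>
    first
      | exact absurd rfl h1
      | exact absurd rfl h2
      | exact absurd rfl h3
      | exact absurd rfl h4
      | decide

/-- A potential for the program `(g, f)`. -/
structure Pot (c : F → F → F → F → SignType) (g f : F) (pot : F → F → F → ℤ) : Prop where
  s01 : ∀ x y z, pot y x z = pot x y z
  s12 : ∀ x y z, pot x z y = pot x y z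
  zero : ∀ x y, pot x y f = 0
  mono : ∀ x y a b, [x, y, a, b, g].Nodup → x ≠ f → y ≠ f →
    (pot x y a < pot x y b ↔ c x y a b * c x y g f = c x y a g * c x y b g)

/-- `e` is one of `x`, `y`, `z`. -/
def Mem3 (e x y z : F) : Prop := e = x ∨ e = y ∨ e = z

section

variable [DecidableEq F]

instance (e x y z : F) : Decidable (Mem3 e x y z) := by unfold Mem3; infer_instance

instance (x y a x' y' a' : F) : Decidable (SameT x y a x' y' a') := by
  unfold SameT; infer_instance

/-- Side of a vertex. -/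
def side (pot : F → F → F → ℤ) (t1 t2 t3 : F) (δ : SignType) (x y z : F) : SignType :=
  if SameT t1 t2 t3 x y z then δ else if pot t1 t2 t3 ≤ pot x y z then 1 else -1

/-- The values of the new element (perturbed if `δ`, `s1`, `s2` are nonzero). -/
def tauD (c : F → F → F → F → SignType) (pot : F → F → F → ℤ) (g f t1 t2 t3 : F)
    (δ s1 s2 : SignType) (h h' : F) (x y z : F) : SignType :=
  if Mem3 g x y z then
    (if Mem3 f x y z then (if Mem3 h x y z then s2 * c x y z h' else s1 * c x y z h)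
      else c x y z f)
  else c x y z g * side pot t1 t2 t3 δ x y z

omit [DecidableEq F] in
theorem mem3_0 (e y z : F) : Mem3 e e y z := Or.inl rfl

omit [DecidableEq F] in
theorem mem3_1 (e x z : F) : Mem3 e x e z := Or.inr (Or.inl rfl)

omit [DecidableEq F] in
theorem mem3_2 (e x y : F) : Mem3 e x y e := Or.inr (Or.inr rfl)

omit [DecidableEq F] in
theorem not_mem3 {e x y z : F} (h1 : e ≠ x) (h2 : e ≠ y) (h3 : e ≠ z) : ¬ Mem3 e x y z := by
  rintro (h | h | h)
  · exact h1 h
  · exact h2 h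
  · exact h3 h

omit [DecidableEq F] in
theorem mem3_s01 (e x y z : F) : Mem3 e y x z ↔ Mem3 e x y z := by unfold Mem3; tauto
omit [DecidableEq F] in
theorem mem3_s12 (e x y z : F) : Mem3 e x z y ↔ Mem3 e x y z := by unfold Mem3; tauto

omit [DecidableEq F] in
theorem sameT_s01 (a b d x y z : F) : SameT a b d y x z ↔ SameT a b d x y z := by
  unfold SameT; tauto
omit [DecidableEq F] in
theorem sameT_s12 (a b d x y z : F) : SameT a b d x z y ↔ SameT a b d x y z := by
  unfold SameT; tauto

theorem alt_tauD (hc : Alt4 c) {pot : F → F → F → ℤ} {g f : F} (hpot : Pot c g f pot)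
    (t1 t2 t3 : F) (δ s1 s2 : SignType) (h h' : F) :
    Alt3 (tauD c pot g f t1 t2 t3 δ s1 s2 h h') where
  s01 := by
    intro x y z
    unfold tauD side
    simp only [mem3_s01, sameT_s01, hpot.s01 x y z, hc.s01 x y z]
    split_ifs <;> simp
  s12 := by
    intro x y z
    unfold tauD side
    simp only [mem3_s12, sameT_s12, hpot.s12 x y z, hc.s12 x y z]
    split_ifs <;> simp

theorem side_ne {pot : F → F → F → ℤ} {t1 t2 t3 : F} {δ : SignType} (hδ : δ ≠ 0) (x y z : F) :
    side pot t1 t2 t3 δ x y z ≠ 0 := by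
  unfold side
  split_ifs
  · exact hδ
  · decide
  · decide

theorem tauD_ne (hc : U4 c) {pot : F → F → F → ℤ} {g f : F}
    {t1 t2 t3 : F} {δ s1 s2 : SignType} {h h' : F} (hδ : δ ≠ 0) (hs1 : s1 ≠ 0) (hs2 : s2 ≠ 0)
    (hgf : g ≠ f) (hgh : g ≠ h) (hfh : f ≠ h) (hgh' : g ≠ h') (hfh' : f ≠ h') (hhh' : h ≠ h')
    (x y z : F) (xy : x ≠ y) (xz : x ≠ z) (yz : y ≠ z) :
    tauD c pot g f t1 t2 t3 δ s1 s2 h h' x y z ≠ 0 := by
  have nc : ∀ e, ¬ Mem3 e x y z → c x y z e ≠ 0 := by
    intro e he
    unfold Mem3 at he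
    apply hc.nz
    apply nodup_of_ne4 <;> tauto
  unfold tauD
  split_ifs with h1 h2 h3
  · apply mul_ne_zero hs2
    apply nc
    clear nc
    unfold Mem3 at *
    rintro (rfl | rfl | rfl)
    · rcases h1 with e1 | e1 | e1 <;> rcases h2 with e2 | e2 | e2 <;>
        rcases h3 with e3 | e3 | e3 <;> simp_all
    · rcases h1 with e1 | e1 | e1 <;> rcases h2 with e2 | e2 | e2 <;>
        rcases h3 with e3 | e3 | e3 <;> simp_all
    · rcases h1 with e1 | e1 | e1 <;> rcases h2 with e2 | e2 | e2 <;>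
        rcases h3 with e3 | e3 | e3 <;> simp_all
  · exact mul_ne_zero hs1 (nc _ h3)
  · exact nc _ h2
  · exact mul_ne_zero (nc _ h1) (side_ne hδ _ _ _)

theorem u4_tauD (hc : U4 c) {pot : F → F → F → ℤ} {g f : F} (hpot : Pot c g f pot)
    {t1 t2 t3 : F} (hft : ¬ Mem3 f t1 t2 t3) {δ s1 s2 : SignType} {h h' : F} (hδ : δ ≠ 0)
    (hs1 : s1 ≠ 0) (hs2 : s2 ≠ 0)
    (hgf : g ≠ f) (hgh : g ≠ h) (hfh : f ≠ h) (hgh' : g ≠ h') (hfh' : f ≠ h') (hhh' : h ≠ h') :
    U4 (extc c (tauD c pot g f t1 t2 t3 δ s1 s2 h h')) := by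
  have hA := alt_tauD hc.toAlt4 hpot t1 t2 t3 δ s1 s2 h h'
  have hnz := tauD_ne hc (pot := pot) (t1 := t1) (t2 := t2) (t3 := t3) hδ hs1 hs2 hgf hgh hfh
    hgh' hfh' hhh'
  apply u4_extc hc hA hnz
  -- lines through `g`
  have lg : ∀ y, y ≠ g → y ≠ f → ∀ a b d, [g, y, a, b, d].Nodup →
      Rel c (tauD c pot g f t1 t2 t3 δ s1 s2 h h') g y a b d := by
    intro y hyg hyf a b d hn
    apply rel_near hc hnz hgf hyf (k := 1) (by decide) _ hn
    intro u h1 h2 h3
    unfold tauD
    rw [if_pos (mem3_0 _ _ _), if_neg (not_mem3 hgf.symm hyf.symm h3.symm), one_mul]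
  have lf : ∀ y, y ≠ g → y ≠ f → ∀ a b d, [f, y, a, b, d].Nodup →
      Rel c (tauD c pot g f t1 t2 t3 δ s1 s2 h h') f y a b d := by
    intro y hyg hyf a b d hn
    apply rel_near hc hnz hgf.symm hyg (k := if pot t1 t2 t3 ≤ 0 then 1 else -1) _ _ hn
    · split_ifs <;> decide
    · intro u h1 h2 h3
      unfold tauD side
      have hp : pot f y u = 0 := by
        rw [← hpot.s12, ← hpot.s01, ← hpot.s12, hpot.zero]
      rw [if_neg (not_mem3 hgf hyg.symm h3.symm), if_neg (by
        unfold SameT; unfold Mem3 at hft; rintro (⟨rfl, -, -⟩ | ⟨rfl, -, -⟩ | ⟨rfl, -, -⟩ |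
          ⟨rfl, -, -⟩ | ⟨rfl, -, -⟩ | ⟨rfl, -, -⟩) <;> simp at hft), hp, mul_comm]
  have lfg : ∀ a b d, [f, g, a, b, d].Nodup →
      Rel c (tauD c pot g f t1 t2 t3 δ s1 s2 h h') f g a b d := by
    intro a b d hn
    apply rel_near hc hnz hfh hgh (k := s1) hs1 _ hn
    intro u h1 h2 h3
    unfold tauD
    rw [if_pos (mem3_1 _ _ _), if_pos (mem3_0 _ _ _),
      if_neg (not_mem3 hfh.symm hgh.symm h3.symm)]
  intro x y a b d hn
  have hn' : [y, x, a, b, d].Nodup := by
    obtain ⟨xy, xa, xb, xd, ya, yb, yd, ab, ad, bd⟩ := nodup5_mem hn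
    exact nodup_of_ne5 xy.symm ya yb yd xa xb xd ab ad bd
  by_cases hxg : x = g
  · subst hxg
    by_cases hyf : y = f
    · subst hyf
      exact Rel.swap_line hc hA hnz hn' (lfg a b d hn')
    · exact lg y (nodup5_mem hn).1.symm hyf a b d hn
  by_cases hyg : y = g
  · subst hyg
    by_cases hxf : x = f
    · subst hxf; exact lfg a b d hn
    · exact Rel.swap_line hc hA hnz hn' (lg x hxg hxf a b d hn')
  by_cases hxf : x = f
  · subst hxf
    exact lf y hyg (nodup5_mem hn).1.symm a b d hn
  by_cases hyf : y = f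
  · subst hyf
    exact Rel.swap_line hc hA hnz hn' (lf x hxg hxf a b d hn')
  -- general lines
  apply rel_affine hc hnz hxg hyg _ hn
  intro a b hn
  obtain ⟨xy, xa, xb, -, ya, yb, -, ab, hag, hbg⟩ := nodup5_mem hn
  have nc : ∀ u v, x ≠ u → x ≠ v → y ≠ u → y ≠ v → u ≠ v → c x y u v ≠ 0 :=
    fun u v h1 h2 h3 h4 h5 => hc.nz _ _ _ _ (nodup_of_ne4 xy h1 h2 h3 h4 h5)
  have hm1 := hpot.mono x y a b hn hxf hyf
  have hm2 := hpot.mono x y b a (nodup_of_ne5 xy xb xa hxg yb ya hyg ab.symm hbg hag) hxf hyf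
  have e1 : tauD c pot g f t1 t2 t3 δ s1 s2 h h' x y g = c x y g f := by
    unfold tauD
    rw [if_pos (mem3_2 _ _ _), if_neg (not_mem3 (Ne.symm hxf) (Ne.symm hyf) hgf.symm)]
  have e2 : ∀ u, u ≠ g → tauD c pot g f t1 t2 t3 δ s1 s2 h h' x y u =
      c x y u g * side pot t1 t2 t3 δ x y u := by
    intro u hu
    unfold tauD
    rw [if_neg (not_mem3 (Ne.symm hxg) (Ne.symm hyg) (Ne.symm hu))]
  have hside : (side pot t1 t2 t3 δ x y a = side pot t1 t2 t3 δ x y b) ∨
      (ng (side pot t1 t2 t3 δ x y a) = true ∧ ng (side pot t1 t2 t3 δ x y b) = false ∧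
        pot x y a < pot x y b) ∨
      (ng (side pot t1 t2 t3 δ x y a) = false ∧ ng (side pot t1 t2 t3 δ x y b) = true ∧
        pot x y b < pot x y a) := by
    have hne : pot x y a ≠ pot x y b := by
      intro heq
      have h1 : ¬ (c x y a b * c x y g f = c x y a g * c x y b g) := by
        rw [← hm1, heq]; exact lt_irrefl _
      have h2 : ¬ (c x y b a * c x y g f = c x y b g * c x y a g) := by
        rw [← hm2, heq]; exact lt_irrefl _
      rw [hc.s23 x y a b] at h2
      have n1 := nc a b xa xb ya yb ab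
      have n2 := nc g f hxg hxf hyg hyf hgf
      have n3 := nc a g xa hxg ya hyg hag
      have n4 := nc b g xb hxg yb hyg hbg
      exact sign_aux1 _ _ _ _ n1 n2 n3 n4 h1 h2
    have hsame : ∀ u, SameT t1 t2 t3 x y u → pot x y u = pot t1 t2 t3 := by
      intro u hu
      rcases hu with ⟨rfl, rfl, rfl⟩ | ⟨rfl, rfl, rfl⟩ | ⟨rfl, rfl, rfl⟩ | ⟨rfl, rfl, rfl⟩ |
        ⟨rfl, rfl, rfl⟩ | ⟨rfl, rfl, rfl⟩
      · rfl
      · rw [hpot.s12]
      · rw [hpot.s01]
      · rw [hpot.s01 x u y, hpot.s12 x y u]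
      · rw [hpot.s12 y x u, hpot.s01 x y u]
      · rw [hpot.s01 y u x, hpot.s12 y x u, hpot.s01 x y u]
    have hng : ng (1 : SignType) = false := rfl
    have hng' : ng (-1 : SignType) = true := rfl
    unfold side
    by_cases sa : SameT t1 t2 t3 x y a
    · by_cases sb : SameT t1 t2 t3 x y b
      · left; rw [if_pos sa, if_pos sb]
      · have := hsame a sa
        rw [if_pos sa, if_neg sb]
        rcases lt_or_gt_of_ne hne with hlt | hlt
        · rw [if_pos (by omega)]
          cases δ with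
          | zero => exact absurd rfl hδ
          | neg => right; left; exact ⟨rfl, rfl, hlt⟩
          | pos => left; rfl
        · rw [if_neg (by omega)]
          cases δ with
          | zero => exact absurd rfl hδ
          | neg => left; rfl
          | pos => right; right; exact ⟨rfl, rfl, hlt⟩
    · by_cases sb : SameT t1 t2 t3 x y b
      · have := hsame b sb
        rw [if_neg sa, if_pos sb]
        rcases lt_or_gt_of_ne hne with hlt | hlt
        · rw [if_neg (by omega)]
          cases δ with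
          | zero => exact absurd rfl hδ
          | neg => left; rfl
          | pos => right; left; exact ⟨rfl, rfl, hlt⟩
        · rw [if_pos (by omega)]
          cases δ with
          | zero => exact absurd rfl hδ
          | neg => right; right; exact ⟨rfl, rfl, hlt⟩
          | pos => left; rfl
      · rw [if_neg sa, if_neg sb]
        by_cases pa : pot t1 t2 t3 ≤ pot x y a
        · by_cases pb : pot t1 t2 t3 ≤ pot x y b
          · left; rw [if_pos pa, if_pos pb]
          · right; right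
            rw [if_pos pa, if_neg pb]
            exact ⟨rfl, rfl, by omega⟩
        · by_cases pb : pot t1 t2 t3 ≤ pot x y b
          · right; left
            rw [if_neg pa, if_pos pb]
            exact ⟨rfl, rfl, by omega⟩
          · left; rw [if_neg pa, if_neg pb]
  have n1 := nc a b xa xb ya yb ab
  have n2 := nc g f hxg hxf hyg hyf hgf
  have n3 := nc a g xa hxg ya hyg hag
  have n4 := nc b g xb hxg yb hyg hbg
  rw [mul_eq_iff n1 n2 n3 n4] at hm1
  have n1' : -c x y a b ≠ 0 := by
    intro h0; apply n1; revert h0; generalize c x y a b = v; revert v; decide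
  rw [hc.s23 x y a b, mul_comm (c x y b g), mul_eq_iff n1' n2 n3 n4, ng_neg n1] at hm2
  unfold Rel
  rw [e1, e2 a hag, e2 b hbg, ng_mul n3 (side_ne hδ _ _ _), ng_mul n4 (side_ne hδ _ _ _)]
  rcases hside with he | ⟨h1, h2, h3⟩ | ⟨h1, h2, h3⟩
  · rw [he]
    generalize ng (c x y a b) = v1
    generalize ng (c x y g f) = v2
    generalize ng (c x y a g) = v3
    generalize ng (c x y b g) = v4
    generalize ng (side pot t1 t2 t3 δ x y b) = v5
    revert v1 v2 v3 v4 v5
    decide +kernel
  · rw [h1, h2]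
    have h4 := hm1.1 h3
    revert h4
    generalize ng (c x y a b) = v1
    generalize ng (c x y g f) = v2
    generalize ng (c x y a g) = v3
    generalize ng (c x y b g) = v4
    revert v1 v2 v3 v4
    decide +kernel
  · rw [h1, h2]
    have h4 := hm2.1 h3
    revert h4
    generalize ng (c x y a b) = v1
    generalize ng (c x y g f) = v2
    generalize ng (c x y a g) = v3
    generalize ng (c x y b g) = v4
    revert v1 v2 v3 v4
    decide +kernel

end

end Pool.Agent.MandelOM
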