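import Pool.Agent.MandelOM.Ext2

/-!
The exchange axiom for degenerate chirotopes.
-/

namespace Pool.Agent.MandelOM

section

variable {G : Type*}

theorem neg_self_ne {a : SignType} (h : a ≠ 0) : -a ≠ a := by
  cases a <;> first | exact absurd rfl h | decide

theorem neg_mul_bad : ∀ {k a b : SignType}, k ≠ 0 → a * b = k → -a * b = k → False := by
  decide

theorem mul_neg_bad : ∀ {k a b : SignType}, k ≠ 0 → a * b = k → a * -b = k → False := by
  decide

/-- Four distinct elements do not fit in a three-element set. -/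
theorem pigeon3 (x0 x1 x2 x3 k1 k2 k3 : G) (d01 : x0 ≠ x1) (d02 : x0 ≠ x2) (d03 : x0 ≠ x3)
    (d12 : x1 ≠ x2) (d13 : x1 ≠ x3) (d23 : x2 ≠ x3)
    (h0 : x0 = k1 ∨ x0 = k2 ∨ x0 = k3) (h1 : x1 = k1 ∨ x1 = k2 ∨ x1 = k3)
    (h2 : x2 = k1 ∨ x2 = k2 ∨ x2 = k3) (h3 : x3 = k1 ∨ x3 = k2 ∨ x3 = k3) : False := by
  rcases h0 with rfl | rfl | rfl <;> rcases h1 with rfl | rfl | rfl <;>
    rcases h2 with rfl | rfl | rfl <;> rcases h3 with rfl | rfl | rfl <;>
    first
      | exact d01 rfl
      | exact d02 rfl
      | exact d03 rfl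
      | exact d12 rfl
      | exact d13 rfl
      | exact d23 rfl

/-- Vanishing on repetitions. -/
def Rep (χ : (Fin 4 → G) → SignType) : Prop := ∀ x, ¬ Function.Injective x → χ x = 0

theorem Rep.inj {χ : (Fin 4 → G) → SignType} (h : Rep χ) {x : Fin 4 → G} (hx : χ x ≠ 0) :
    Function.Injective x := by
  by_contra hcon; exact hx (h x hcon)

theorem update_not_inj {x : Fin 4 → G} {k : Fin 4} (hk : k ≠ 0) {a : G} (ha : x k = a) :
    ¬ Function.Injective (Function.update x 0 a) := by
  intro h
  apply hk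
  apply h
  rw [Function.update_of_ne hk, Function.update_self, ha]

/-- Two chirotopes differing exactly in the sign of one basis. -/
theorem exch_avg {χ χp χm : (Fin 4 → G) → SignType} (S : Set G) (hp : Exch χp) (hm : Exch χm)
    (hrp : Rep χp)
    (heq : ∀ x, Set.range x ≠ S → χp x = χ x ∧ χm x = χ x)
    (hS : ∀ x, Set.range x = S → χ x = 0 ∧ χm x = -χp x) : Exch χ := by
  intro x y hx hy
  have hxS : Set.range x ≠ S := fun h => hx (hS x h).1
  have hyS : Set.range y ≠ S := fun h => hy (hS y h).1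
  by_cases h0 : ∃ i, y i = x 0
  · obtain ⟨i, hi⟩ := h0
    refine ⟨i, ?_⟩
    rw [hi, ← hi, Function.update_eq_self, hi, Function.update_eq_self]
  have hκ : χ x * χ y ≠ 0 := mul_ne_zero hx hy
  have hpx : χp x ≠ 0 := by rw [(heq x hxS).1]; exact hx
  have hpy : χp y ≠ 0 := by rw [(heq y hyS).1]; exact hy
  have hmx : χm x ≠ 0 := by rw [(heq x hxS).2]; exact hx
  have hmy : χm y ≠ 0 := by rw [(heq y hyS).2]; exact hy
  have xinj := hrp.inj hpx
  have yinj := hrp.inj hpy
  obtain ⟨i, hi⟩ := hp x y hpx hpy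
  obtain ⟨j, hj⟩ := hm x y hmx hmy
  rw [(heq x hxS).1, (heq y hyS).1] at hi
  rw [(heq x hxS).2, (heq y hyS).2] at hj
  by_cases hi1 : Set.range (Function.update x 0 (y i)) ≠ S ∧
      Set.range (Function.update y i (x 0)) ≠ S
  · exact ⟨i, by rw [← (heq _ hi1.1).1, ← (heq _ hi1.2).1, hi]⟩
  by_cases hj1 : Set.range (Function.update x 0 (y j)) ≠ S ∧
      Set.range (Function.update y j (x 0)) ≠ S
  · exact ⟨j, by rw [← (heq _ hj1.1).2, ← (heq _ hj1.2).2, hj]⟩
  exfalso
  -- injectivity of the updates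
  have hiA : χp (Function.update x 0 (y i)) ≠ 0 := by
    intro h; rw [h, zero_mul] at hi; exact hκ hi.symm
  have hjA : χm (Function.update x 0 (y j)) ≠ 0 := by
    intro h; rw [h, zero_mul] at hj; exact hκ hj.symm
  have hiB : χp (Function.update y i (x 0)) ≠ 0 := by
    intro h; rw [h, mul_zero] at hi; exact hκ hi.symm
  have hjB : χm (Function.update y j (x 0)) ≠ 0 := by
    intro h; rw [h, mul_zero] at hj; exact hκ hj.symm
  have hAinj : ∀ k, Function.Injective (Function.update x 0 (y k)) → ∀ l, l ≠ 0 → x l ≠ y k :=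
    fun k hk l hl he => update_not_inj hl he hk
  -- (a)
  have ha : ∀ k l, Function.Injective (Function.update x 0 (y k)) →
      Set.range (Function.update x 0 (y k)) = S → Set.range (Function.update x 0 (y l)) = S →
      k = l := by
    intro k l hk h1 h2
    have h3 : y k ∈ Set.range (Function.update x 0 (y l)) := by
      rw [h2, ← h1]; exact ⟨0, Function.update_self _ _ _⟩
    obtain ⟨m, hm⟩ := h3
    by_cases hm0 : m = 0
    · subst hm0
      rw [Function.update_self] at hm
      exact (yinj hm).symm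
    · rw [Function.update_of_ne hm0] at hm
      exact absurd hm (hAinj k hk m hm0)
  -- (b)
  have hb : ∀ k l, Set.range (Function.update y k (x 0)) = S →
      Set.range (Function.update y l (x 0)) = S → k = l := by
    intro k l h1 h2
    by_contra hkl
    have h3 : y k ∈ Set.range (Function.update y k (x 0)) := by
      rw [h1, ← h2]; exact ⟨k, Function.update_of_ne hkl _ _⟩
    obtain ⟨m, hm⟩ := h3
    by_cases hmk : m = k
    · subst hmk
      rw [Function.update_self] at hm
      exact h0 ⟨_, hm.symm⟩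
    · rw [Function.update_of_ne hmk] at hm
      exact hmk (yinj hm)
  -- (c)
  have hc : ∀ k l, Set.range (Function.update x 0 (y k)) = S →
      Set.range (Function.update y l (x 0)) = S → False := by
    intro k l h1 h2
    have h3 : x 0 ∈ Set.range (Function.update x 0 (y k)) := by
      rw [h1, ← h2]; exact ⟨l, Function.update_self _ _ _⟩
    obtain ⟨m, hm⟩ := h3
    by_cases hm0 : m = 0
    · subst hm0
      rw [Function.update_self] at hm
      exact h0 ⟨_, hm⟩
    · rw [Function.update_of_ne hm0] at hm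
      exact hm0 (xinj hm)
  rw [not_and_or, not_not, not_not] at hi1 hj1
  rcases hi1 with hi1 | hi1
  · rcases hj1 with hj1 | hj1
    · have hij := ha i j (hrp.inj hiA) hi1 hj1
      subst hij
      have hB : Set.range (Function.update y i (x 0)) ≠ S := fun h => hc i i hi1 h
      rw [(heq _ hB).1] at hi
      rw [(hS _ hj1).2, (heq _ hB).2] at hj
      exact neg_mul_bad hκ hi hj
    · exact hc i j hi1 hj1
  · rcases hj1 with hj1 | hj1
    · exact hc j i hj1 hi1
    · have hij := hb i j hi1 hj1
      subst hij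
      have hA : Set.range (Function.update x 0 (y i)) ≠ S := fun h => hc i i h hi1
      rw [(heq _ hA).1] at hi
      rw [(hS _ hj1).2, (heq _ hA).2] at hj
      exact mul_neg_bad hκ hi hj

/-- `K` is contained in the tuple. -/
def In3 (k1 k2 k3 : G) (x : Fin 4 → G) : Prop :=
  (∃ i, x i = k1) ∧ (∃ i, x i = k2) ∧ (∃ i, x i = k3)

theorem fourth : ∀ a b d : Fin 4, a ≠ b → a ≠ d → b ≠ d → ∃ e : Fin 4, e ≠ a ∧ e ≠ b ∧ e ≠ d ∧
    ∀ m, m = a ∨ m = b ∨ m = d ∨ m = e := by
  decide

/-- Degeneration to a new element on the intersection of `k2` and `k3`. -/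
theorem exch_pencil {χ : (Fin 4 → G) → SignType} (k1 k2 k3 : G) (h12 : k1 ≠ k2) (h13 : k1 ≠ k3)
    (h23 : k2 ≠ k3) (hr : Rep χ) (hK : ∀ x, In3 k1 k2 k3 x → χ x = 0)
    (fam1 : ∀ w : Fin 4 → G, Function.Injective w → In3 k1 k2 k3 w → ∀ ε : SignType, ε ≠ 0 →
      (∃ v, v ∉ Set.range w) →
      ∃ χ' : (Fin 4 → G) → SignType, Exch χ' ∧ Rep χ' ∧ (∀ x, ¬ In3 k1 k2 k3 x → χ' x = χ x) ∧
        χ' w = ε)
    (fam2 : ∀ w w' : Fin 4 → G, Function.Injective w → Function.Injective w' →
      In3 k1 k2 k3 w → In3 k1 k2 k3 w' → Set.range w ≠ Set.range w' → ∀ ε ε' : SignType,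
      ε ≠ 0 → ε' ≠ 0 →
      ∃ χ' : (Fin 4 → G) → SignType, Exch χ' ∧ Rep χ' ∧ (∀ x, ¬ In3 k1 k2 k3 x → χ' x = χ x) ∧
        χ' w = ε ∧ χ' w' = ε') : Exch χ := by
  intro x y hx hy
  by_cases h0 : ∃ i, y i = x 0
  · obtain ⟨i, hi⟩ := h0
    refine ⟨i, ?_⟩
    rw [hi, ← hi, Function.update_eq_self, hi, Function.update_eq_self]
  have xinj := hr.inj hx
  have yinj := hr.inj hy
  have hxK : ¬ In3 k1 k2 k3 x := fun h => hx (hK x h)
  have hyK : ¬ In3 k1 k2 k3 y := fun h => hy (hK y h)
  set κ := χ x * χ y with hκdef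
  have hκ : κ ≠ 0 := mul_ne_zero hx hy
  by_contra hcon
  push Not at hcon
  -- the index given by a perturbation is special
  have hspec : ∀ χ' : (Fin 4 → G) → SignType, Exch χ' → Rep χ' →
      (∀ x, ¬ In3 k1 k2 k3 x → χ' x = χ x) →
      ∃ i, χ' (Function.update x 0 (y i)) * χ' (Function.update y i (x 0)) = κ ∧
        Function.Injective (Function.update x 0 (y i)) ∧
        (In3 k1 k2 k3 (Function.update x 0 (y i)) ∨ In3 k1 k2 k3 (Function.update y i (x 0))) := by
    intro χ' hE hR hχ
    obtain ⟨i, hi⟩ := hE x y (by rw [hχ x hxK]; exact hx) (by rw [hχ y hyK]; exact hy)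
    rw [hχ x hxK, hχ y hyK] at hi
    refine ⟨i, hi, ?_, ?_⟩
    · apply hR.inj
      intro h
      rw [h, zero_mul] at hi
      exact hκ hi.symm
    · by_contra hn
      rw [not_or] at hn
      rw [hχ _ hn.1, hχ _ hn.2] at hi
      exact hcon i hi
  -- elements of `K` in the updates
  have hKx : ∀ i k, (∃ m, Function.update x 0 (y i) m = k) → k = y i ∨ ∃ m, m ≠ 0 ∧ x m = k := by
    rintro i k ⟨m, hm⟩
    by_cases hm0 : m = 0
    · subst hm0; rw [Function.update_self] at hm; exact Or.inl hm.symm
    · rw [Function.update_of_ne hm0] at hm; exact Or.inr ⟨m, hm0, hm⟩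
  have hKy : ∀ i k, (∃ m, Function.update y i (x 0) m = k) → k = x 0 ∨ ∃ m, m ≠ i ∧ y m = k := by
    rintro i k ⟨m, hm⟩
    by_cases hm0 : m = i
    · subst hm0; rw [Function.update_self] at hm; exact Or.inl hm.symm
    · rw [Function.update_of_ne hm0] at hm; exact Or.inr ⟨m, hm0, hm⟩
  -- first kind excludes second kind
  have hexcl : ∀ i j, In3 k1 k2 k3 (Function.update x 0 (y i)) →
      Function.Injective (Function.update x 0 (y i)) →
      ¬ In3 k1 k2 k3 (Function.update y j (x 0)) := by
    intro i j h1 hinj h2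
    have hx0 : x 0 = k1 ∨ x 0 = k2 ∨ x 0 = k3 := by
      by_contra hno
      rw [not_or, not_or] at hno
      apply hyK
      refine ⟨?_, ?_, ?_⟩
      · rcases hKy j k1 h2.1 with h | ⟨m, -, h⟩
        · exact absurd h.symm hno.1
        · exact ⟨m, h⟩
      · rcases hKy j k2 h2.2.1 with h | ⟨m, -, h⟩
        · exact absurd h.symm hno.2.1
        · exact ⟨m, h⟩
      · rcases hKy j k3 h2.2.2 with h | ⟨m, -, h⟩
        · exact absurd h.symm hno.2.2
        · exact ⟨m, h⟩
    have hbad : ¬ ∃ m, Function.update x 0 (y i) m = x 0 := by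
      intro h
      rcases hKx i (x 0) h with h | ⟨m, hm, h⟩
      · exact h0 ⟨i, h.symm⟩
      · exact hm (xinj h)
    rcases hx0 with h | h | h
    · exact hbad (h ▸ h1.1)
    · exact hbad (h ▸ h1.2.1)
    · exact hbad (h ▸ h1.2.2)
  by_cases hP1 : ∃ i, In3 k1 k2 k3 (Function.update x 0 (y i)) ∧
      Function.Injective (Function.update x 0 (y i))
  · -- first kind
    obtain ⟨i, hi, hinj⟩ := hP1
    have hyi : ∀ l, In3 k1 k2 k3 (Function.update x 0 (y l)) → y l = k1 ∨ y l = k2 ∨ y l = k3 := by
      intro l hl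
      by_contra hno
      rw [not_or, not_or] at hno
      apply hxK
      refine ⟨?_, ?_, ?_⟩
      · rcases hKx l k1 hl.1 with h | ⟨m, -, h⟩
        · exact absurd h.symm hno.1
        · exact ⟨m, h⟩
      · rcases hKx l k2 hl.2.1 with h | ⟨m, -, h⟩
        · exact absurd h.symm hno.2.1
        · exact ⟨m, h⟩
      · rcases hKx l k3 hl.2.2 with h | ⟨m, -, h⟩
        · exact absurd h.symm hno.2.2
        · exact ⟨m, h⟩
    have huniq : ∀ j, In3 k1 k2 k3 (Function.update x 0 (y j)) →
        Function.Injective (Function.update x 0 (y j)) → j = i := by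
      intro j hj hjinj
      have h1 : ∃ m, Function.update x 0 (y i) m = y j := by
        rcases hyi j hj with h | h | h
        · rw [h]; exact hi.1
        · rw [h]; exact hi.2.1
        · rw [h]; exact hi.2.2
      rcases hKx i _ h1 with h | ⟨m, hm, h⟩
      · exact yinj h
      · exact absurd hjinj (update_not_inj hm h)
    have hB : ¬ In3 k1 k2 k3 (Function.update y i (x 0)) := hexcl i i hi hinj
    obtain ⟨ε, hε, hεκ⟩ : ∃ ε : SignType, ε ≠ 0 ∧ ε * χ (Function.update y i (x 0)) ≠ κ := by
      generalize χ (Function.update y i (x 0)) = b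
      revert hκ
      generalize κ = k
      revert k b
      decide
    obtain ⟨χ', hE, hR, hχ, hw⟩ := fam1 _ hinj hi ε hε ⟨x 0, by
      rintro ⟨m, hm⟩
      rcases hKx i (x 0) ⟨m, hm⟩ with h | ⟨m, hm, h⟩
      · exact h0 ⟨i, h.symm⟩
      · exact hm (xinj h)⟩
    obtain ⟨j, hj, hjinj, hjs⟩ := hspec χ' hE hR hχ
    have hjs' : In3 k1 k2 k3 (Function.update x 0 (y j)) := by
      rcases hjs with h | h
      · exact h
      · exact absurd h (hexcl i j hi hinj)
    have := huniq j hjs' hjinj
    subst this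
    rw [hw, hχ _ hB] at hj
    exact hεκ hj
  · -- second kind
    push Not at hP1
    have hnot : ∀ j, Function.Injective (Function.update x 0 (y j)) →
        ¬ In3 k1 k2 k3 (Function.update x 0 (y j)) := fun j h1 h2 => hP1 j h2 h1
    -- some index is special
    have hex : ∃ i, In3 k1 k2 k3 (Function.update y i (x 0)) := by
      -- `χ` itself would work otherwise: use any perturbation
      by_contra hno
      push Not at hno
      -- a perturbation exists as soon as there is a tuple containing `K`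
      have hv : ∃ v, v ≠ k1 ∧ v ≠ k2 ∧ v ≠ k3 := by
        by_contra hall
        have hc : ∀ m, x m = k1 ∨ x m = k2 ∨ x m = k3 := by
          intro m
          by_contra hno
          rw [not_or, not_or] at hno
          exact hall ⟨x m, hno⟩
        exact pigeon3 (x 0) (x 1) (x 2) (x 3) k1 k2 k3
          (fun h => absurd (xinj h) (by decide)) (fun h => absurd (xinj h) (by decide))
          (fun h => absurd (xinj h) (by decide)) (fun h => absurd (xinj h) (by decide))
          (fun h => absurd (xinj h) (by decide)) (fun h => absurd (xinj h) (by decide))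
          (hc 0) (hc 1) (hc 2) (hc 3)
      obtain ⟨v, hv'⟩ := hv
      -- a second element
      have h2 : ∃ v', v' ≠ k1 ∧ v' ≠ k2 ∧ v' ≠ k3 ∧ v' ≠ v := by
        by_contra hall
        have hmem : ∀ z, z = k1 ∨ z = k2 ∨ z = k3 ∨ z = v := by
          intro z
          by_contra hno
          rw [not_or, not_or, not_or] at hno
          exact hall ⟨z, hno⟩
        have hne : ∀ m, y m ≠ x 0 := fun m hm => h0 ⟨m, hm⟩
        have d01 : y 0 ≠ y 1 := fun h => absurd (yinj h) (by decide)
        have d02 : y 0 ≠ y 2 := fun h => absurd (yinj h) (by decide)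
        have d03 : y 0 ≠ y 3 := fun h => absurd (yinj h) (by decide)
        have d12 : y 1 ≠ y 2 := fun h => absurd (yinj h) (by decide)
        have d13 : y 1 ≠ y 3 := fun h => absurd (yinj h) (by decide)
        have d23 : y 2 ≠ y 3 := fun h => absurd (yinj h) (by decide)
        rcases hmem (x 0) with h | h | h | h
        · exact pigeon3 (y 0) (y 1) (y 2) (y 3) k2 k3 v d01 d02 d03 d12 d13 d23
            ((hmem (y 0)).resolve_left (h ▸ hne 0)) ((hmem (y 1)).resolve_left (h ▸ hne 1))
            ((hmem (y 2)).resolve_left (h ▸ hne 2)) ((hmem (y 3)).resolve_left (h ▸ hne 3))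
        · have hz : ∀ m, y m = k1 ∨ y m = k3 ∨ y m = v := by
            intro m
            have h1 := hmem (y m)
            have h2 : y m ≠ k2 := h ▸ hne m
            tauto
          exact pigeon3 (y 0) (y 1) (y 2) (y 3) k1 k3 v d01 d02 d03 d12 d13 d23
            (hz 0) (hz 1) (hz 2) (hz 3)
        · have hz : ∀ m, y m = k1 ∨ y m = k2 ∨ y m = v := by
            intro m
            have h1 := hmem (y m)
            have h2 : y m ≠ k3 := h ▸ hne m
            tauto
          exact pigeon3 (y 0) (y 1) (y 2) (y 3) k1 k2 v d01 d02 d03 d12 d13 d23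
            (hz 0) (hz 1) (hz 2) (hz 3)
        · have hz : ∀ m, y m = k1 ∨ y m = k2 ∨ y m = k3 := by
            intro m
            have h1 := hmem (y m)
            have h2 : y m ≠ v := h ▸ hne m
            tauto
          exact pigeon3 (y 0) (y 1) (y 2) (y 3) k1 k2 k3 d01 d02 d03 d12 d13 d23
            (hz 0) (hz 1) (hz 2) (hz 3)
      obtain ⟨v', hv1, hv2, hv3, hvv⟩ := h2
      have winj : Function.Injective ![k1, k2, k3, v] := by
        apply inj_of_nodup
        simp [List.ofFn_succ]
        tauto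
      obtain ⟨χ', hE, hR, hχ, -⟩ := fam1 ![k1, k2, k3, v] winj
        ⟨⟨0, rfl⟩, ⟨1, rfl⟩, ⟨2, rfl⟩⟩ 1 (by decide) ⟨v', by
          rintro ⟨m, hm⟩
          fin_cases m
          · exact hv1 hm.symm
          · exact hv2 hm.symm
          · exact hv3 hm.symm
          · exact hvv hm.symm⟩
      obtain ⟨j, -, hjinj, hjs⟩ := hspec χ' hE hR hχ
      rcases hjs with h | h
      · exact hnot j hjinj h
      · exact hno j h
    obtain ⟨i1, hi1⟩ := hex
    -- `x 0 ∈ K` and the other two elements are in `y`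
    obtain ⟨κ1, κ2, hκ12, hx1, hx2, hset⟩ : ∃ κ1 κ2, κ1 ≠ κ2 ∧ x 0 ≠ κ1 ∧ x 0 ≠ κ2 ∧
        ∀ w : Fin 4 → G, In3 k1 k2 k3 w ↔ In3 (x 0) κ1 κ2 w := by
      have hx0 : x 0 = k1 ∨ x 0 = k2 ∨ x 0 = k3 := by
        by_contra hno
        rw [not_or, not_or] at hno
        apply hyK
        refine ⟨?_, ?_, ?_⟩
        · rcases hKy i1 k1 hi1.1 with h | ⟨m, -, h⟩
          · exact absurd h.symm hno.1
          · exact ⟨m, h⟩
        · rcases hKy i1 k2 hi1.2.1 with h | ⟨m, -, h⟩
          · exact absurd h.symm hno.2.1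
          · exact ⟨m, h⟩
        · rcases hKy i1 k3 hi1.2.2 with h | ⟨m, -, h⟩
          · exact absurd h.symm hno.2.2
          · exact ⟨m, h⟩
      rcases hx0 with h | h | h
      · exact ⟨k2, k3, h23, by rw [h]; exact h12, by rw [h]; exact h13, fun w => by rw [h]⟩
      · exact ⟨k1, k3, h13, by rw [h]; exact h12.symm, by rw [h]; exact h23, fun w => by
          rw [h]; unfold In3; tauto⟩
      · exact ⟨k1, k2, h12, by rw [h]; exact h13.symm, by rw [h]; exact h23.symm, fun w => by
          rw [h]; unfold In3; tauto⟩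
    simp only [hset] at *
    obtain ⟨j1, hj1i, hj1⟩ : ∃ m, m ≠ i1 ∧ y m = κ1 := by
      rcases hKy i1 κ1 hi1.2.1 with h | h
      · exact absurd h.symm hx1
      · exact h
    obtain ⟨j2, hj2i, hj2⟩ : ∃ m, m ≠ i1 ∧ y m = κ2 := by
      rcases hKy i1 κ2 hi1.2.2 with h | h
      · exact absurd h.symm hx2
      · exact h
    have hj12 : j1 ≠ j2 := by
      rintro rfl
      exact hκ12 (hj1.symm.trans hj2)
    obtain ⟨i2, e1, e2, e3, hall⟩ := fourth j1 j2 i1 hj12 hj1i hj2i
    have hi2 : In3 (x 0) κ1 κ2 (Function.update y i2 (x 0)) :=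
      ⟨⟨i2, Function.update_self _ _ _⟩, ⟨j1, by rw [Function.update_of_ne e1.symm, hj1]⟩,
        ⟨j2, by rw [Function.update_of_ne e2.symm, hj2]⟩⟩
    have honly : ∀ j, In3 (x 0) κ1 κ2 (Function.update y j (x 0)) → j = i1 ∨ j = i2 := by
      intro j hj
      rcases hall j with h | h | h | h
      · exfalso
        subst h
        rcases hKy j κ1 hj.2.1 with h | ⟨m, hm, h⟩
        · exact hx1 h.symm
        · exact hm (yinj (h.trans hj1.symm))
      · exfalso
        subst h
        rcases hKy j κ2 hj.2.2 with h | ⟨m, hm, h⟩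
        · exact hx2 h.symm
        · exact hm (yinj (h.trans hj2.symm))
      · exact Or.inl h
      · exact Or.inr h
    have hinjB : ∀ j, Function.Injective (Function.update y j (x 0)) := by
      intro j a b hab
      by_cases ha : a = j
      · by_cases hb : b = j
        · rw [ha, hb]
        · rw [ha, Function.update_self, Function.update_of_ne hb] at hab
          exact absurd ⟨b, hab.symm⟩ h0
      · by_cases hb : b = j
        · rw [hb, Function.update_self, Function.update_of_ne ha] at hab
          exact absurd ⟨a, hab⟩ h0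
        · rw [Function.update_of_ne ha, Function.update_of_ne hb] at hab
          exact yinj hab
    have hrange : Set.range (Function.update y i1 (x 0)) ≠
        Set.range (Function.update y i2 (x 0)) := by
      intro h
      have h3 : y i1 ∈ Set.range (Function.update y i1 (x 0)) := by
        rw [h]; exact ⟨i1, Function.update_of_ne e3.symm _ _⟩
      obtain ⟨m, hm⟩ := h3
      by_cases hmk : m = i1
      · subst hmk
        rw [Function.update_self] at hm
        exact h0 ⟨_, hm.symm⟩
      · rw [Function.update_of_ne hmk] at hm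
        exact hmk (yinj hm)
    have hchoose : ∀ b : SignType, ∃ ε : SignType, ε ≠ 0 ∧ b * ε ≠ κ := by
      intro b
      revert hκ
      generalize κ = k
      revert k b
      decide
    obtain ⟨ε1, hε1, hk1⟩ := hchoose (χ (Function.update x 0 (y i1)))
    obtain ⟨ε2, hε2, hk2⟩ := hchoose (χ (Function.update x 0 (y i2)))
    obtain ⟨χ', hE, hR, hχ, hw1, hw2⟩ := fam2 _ _ (hinjB i1) (hinjB i2) hi1 hi2 hrange ε1 ε2
      hε1 hε2
    obtain ⟨j, hj, hjinj, hjs⟩ := hspec χ' hE hR hχ
    have hjs' : In3 (x 0) κ1 κ2 (Function.update y j (x 0)) := by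
      rcases hjs with h | h
      · exact absurd h (hnot j hjinj)
      · exact h
    have hA : χ' (Function.update x 0 (y j)) = χ (Function.update x 0 (y j)) :=
      hχ _ (hnot j hjinj)
    rcases honly j hjs' with h | h
    · subst h
      rw [hA, hw1] at hj
      exact hk1 hj
    · subst h
      rw [hA, hw2] at hj
      exact hk2 hj

end

end Pool.Agent.MandelOM
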