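import Pool.Agent.MandelOM.Ext3

/-!
Extensions given by potentials: the exchange axiom and Euclidean programs.
-/

namespace Pool.Agent.MandelOM

variable {F : Type*} {c : F → F → F → F → SignType} {τ : F → F → F → SignType}

theorem range4 {G : Type*} (o : Fin 4 → G) : Set.range o = {o 0, o 1, o 2, o 3} := by
  ext z
  simp only [Set.mem_range, Set.mem_insert_iff, Set.mem_singleton_iff]
  constructor
  · rintro ⟨i, rfl⟩
    fin_cases i
    · exact Or.inl rfl
    · exact Or.inr (Or.inl rfl)
    · exact Or.inr (Or.inr (Or.inl rfl))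
    · exact Or.inr (Or.inr (Or.inr rfl))
  · rintro (rfl | rfl | rfl | rfl)
    exacts [⟨0, rfl⟩, ⟨1, rfl⟩, ⟨2, rfl⟩, ⟨3, rfl⟩]

theorem extc_form (c : F → F → F → F → SignType) (o : Fin 4 → Option F) :
    (∃ v : SignType, ((∀ i, o i ≠ none) ∨ (v = 0 ∧ ¬ Function.Injective o)) ∧
      ∀ τ, chi4 (extc c τ) o = v) ∨
    (∃ (ε : SignType) (p q r : F), ε ≠ 0 ∧ (∀ τ, chi4 (extc c τ) o = ε * τ p q r) ∧
      Set.range o = {none, some p, some q, some r}) := by
  rw [range4 o, ← eta4 o]
  generalize o 0 = o0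
  generalize o 1 = o1
  generalize o 2 = o2
  generalize o 3 = o3
  have hz : ∀ w : Fin 4 → Option F, ∀ i j, i ≠ j → w i = w j → (∀ τ, chi4 (extc c τ) w = 0) →
    (∃ v : SignType, ((∀ i, w i ≠ none) ∨ (v = 0 ∧ ¬ Function.Injective w)) ∧
      ∀ τ, chi4 (extc c τ) w = v) :=
    fun w i j hij he h => ⟨0, Or.inr ⟨rfl, fun hinj => hij (hinj he)⟩, h⟩
  cases o0 with
  | none =>
    cases o1 with
    | none => left; exact hz _ 0 1 (by decide) rfl (fun τ => rfl)
    | some p =>
      cases o2 with
      | none => left; exact hz _ 0 2 (by decide) rfl (fun τ => rfl)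
      | some q =>
        cases o3 with
        | none => left; exact hz _ 0 3 (by decide) rfl (fun τ => rfl)
        | some r =>
          right
          exact ⟨-1, p, q, r, by decide, fun τ => by
            show -τ p q r = -1 * τ p q r
            simp, by simp⟩
  | some p =>
    cases o1 with
    | none =>
      cases o2 with
      | none => left; exact hz _ 1 2 (by decide) rfl (fun τ => by cases o3 <;> rfl)
      | some q =>
        cases o3 with
        | none => left; exact hz _ 1 3 (by decide) rfl (fun τ => rfl)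
        | some r =>
          right
          exact ⟨1, p, q, r, by decide, fun τ => by
            show τ p q r = 1 * τ p q r
            simp, by
              simp only [Matrix.cons_val]
              ext z; simp only [Set.mem_insert_iff, Set.mem_singleton_iff]; tauto⟩
    | some q =>
      cases o2 with
      | none =>
        cases o3 with
        | none => left; exact hz _ 2 3 (by decide) rfl (fun τ => rfl)
        | some r =>
          right
          exact ⟨-1, p, q, r, by decide, fun τ => by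
            show -τ p q r = -1 * τ p q r
            simp, by
              simp only [Matrix.cons_val]
              ext z; simp only [Set.mem_insert_iff, Set.mem_singleton_iff]; tauto⟩
      | some r =>
        cases o3 with
        | none =>
          right
          exact ⟨1, p, q, r, by decide, fun τ => by
            show τ p q r = 1 * τ p q r
            simp, by
              simp only [Matrix.cons_val]
              ext z; simp only [Set.mem_insert_iff, Set.mem_singleton_iff]; tauto⟩
        | some s =>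
          left
          refine ⟨c p q r s, Or.inl ?_, fun τ => rfl⟩
          intro i
          fin_cases i <;> simp

theorem sameT_of_set {t1 t2 t3 p q r : F} (h12 : t1 ≠ t2) (h13 : t1 ≠ t3) (h23 : t2 ≠ t3)
    (h : ({none, some p, some q, some r} : Set (Option F)) = {none, some t1, some t2, some t3}) :
    SameT t1 t2 t3 p q r := by
  have m1 : some t1 ∈ ({none, some p, some q, some r} : Set (Option F)) := by rw [h]; simp
  have m2 : some t2 ∈ ({none, some p, some q, some r} : Set (Option F)) := by rw [h]; simp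
  have m3 : some t3 ∈ ({none, some p, some q, some r} : Set (Option F)) := by rw [h]; simp
  simp only [Set.mem_insert_iff, Set.mem_singleton_iff, reduceCtorEq, Option.some.injEq,
    false_or] at m1 m2 m3
  clear h
  unfold SameT
  rcases m1 with rfl | rfl | rfl <;> rcases m2 with rfl | rfl | rfl <;>
    rcases m3 with rfl | rfl | rfl <;>
    first
      | exact absurd rfl h12
      | exact absurd rfl h13
      | exact absurd rfl h23
      | simp

theorem set_of_sameT {t1 t2 t3 p q r : F} (h : SameT t1 t2 t3 p q r) :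
    ({none, some p, some q, some r} : Set (Option F)) = {none, some t1, some t2, some t3} := by
  ext z
  simp only [Set.mem_insert_iff, Set.mem_singleton_iff]
  rcases h with ⟨rfl, rfl, rfl⟩ | ⟨rfl, rfl, rfl⟩ | ⟨rfl, rfl, rfl⟩ | ⟨rfl, rfl, rfl⟩ |
        ⟨rfl, rfl, rfl⟩ | ⟨rfl, rfl, rfl⟩ <;> tauto

section

variable [DecidableEq F]

theorem exch_tauD1 (hc : U4 c) {pot : F → F → F → ℤ} {g f : F} (hpot : Pot c g f pot)
    {t1 t2 t3 : F} (hft : ¬ Mem3 f t1 t2 t3) (hgt : ¬ Mem3 g t1 t2 t3)
    (h12 : t1 ≠ t2) (h13 : t1 ≠ t3) (h23 : t2 ≠ t3) {s1 s2 : SignType} {h h' : F}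
    (hs1 : s1 ≠ 0) (hs2 : s2 ≠ 0)
    (hgf : g ≠ f) (hgh : g ≠ h) (hfh : f ≠ h) (hgh' : g ≠ h') (hfh' : f ≠ h') (hhh' : h ≠ h') :
    Exch (chi4 (extc c (tauD c pot g f t1 t2 t3 0 s1 s2 h h'))) := by
  have hp := u4_tauD hc hpot hft (δ := 1) (by decide) hs1 hs2 hgf hgh hfh hgh' hfh' hhh'
  have hm := u4_tauD hc hpot hft (δ := -1) (by decide) hs1 hs2 hgf hgh hfh hgh' hfh' hhh'
  apply exch_avg {none, some t1, some t2, some t3} hp.exch hm.exch hp.rep
  · intro x hx
    have key : ∀ δ, chi4 (extc c (tauD c pot g f t1 t2 t3 δ s1 s2 h h')) x =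
        chi4 (extc c (tauD c pot g f t1 t2 t3 0 s1 s2 h h')) x := by
      intro δ
      rcases extc_form c x with ⟨v, -, hv⟩ | ⟨ε, p, q, r, -, hv, hr⟩
      · rw [hv, hv]
      · rw [hv, hv]
        have : ¬ SameT t1 t2 t3 p q r := by
          intro hS
          apply hx
          rw [hr]
          exact set_of_sameT hS
        unfold tauD side
        simp only [if_neg this]
    exact ⟨key _, key _⟩
  · intro x hx
    rcases extc_form c x with ⟨v, hv0, hv⟩ | ⟨ε, p, q, r, hε, hv, hr⟩
    · have : v = 0 := by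
        rcases hv0 with h0 | h0
        · have h1 : none ∈ Set.range x := by rw [hx]; simp
          obtain ⟨i, hi⟩ := h1
          exact absurd hi (h0 i)
        · exact h0.1
      rw [hv, hv, hv, this]
      exact ⟨rfl, rfl⟩
    · rw [hv, hv, hv]
      have hS : SameT t1 t2 t3 p q r := sameT_of_set h12 h13 h23 (by rw [← hr, hx])
      have hg : ¬ Mem3 g p q r := by
        intro hg
        apply hgt
        unfold Mem3 at hg ⊢
        rcases hS with ⟨rfl, rfl, rfl⟩ | ⟨rfl, rfl, rfl⟩ | ⟨rfl, rfl, rfl⟩ | ⟨rfl, rfl, rfl⟩ |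
          ⟨rfl, rfl, rfl⟩ | ⟨rfl, rfl, rfl⟩ <;> tauto
      unfold tauD side
      simp only [if_pos hS, if_neg hg, mul_zero, true_and]
      have aux : ∀ a b : SignType, a * (b * -1) = -(a * (b * 1)) := by decide
      exact aux _ _

omit [DecidableEq F] in
/-- The fourth element of a basis containing the new element, `f` and `g`. -/
theorem fourth_elt {w : Fin 4 → Option F} (hw : Function.Injective w) {f g p q r : F}
    (hgf : g ≠ f) (hin : In3 none (some f) (some g) w)
    (hr : Set.range w = {none, some p, some q, some r}) :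
    p ≠ q ∧ p ≠ r ∧ q ≠ r ∧ ∃ u, u ≠ f ∧ u ≠ g ∧ SameT f g u p q r ∧
      Set.range w = {none, some f, some g, some u} := by
  have hcard : (Set.range w).ncard = 4 := by
    rw [← Set.image_univ, Set.ncard_image_of_injective _ hw, Set.ncard_univ]
    simp
  have hd : ∀ z1 z2 z3 : Option F, Set.range w ≠ {z1, z2, z3} := by
    intro z1 z2 z3 he
    have h1 := Set.ncard_insert_le z1 ({z2, z3} : Set (Option F))
    have h2 := Set.ncard_insert_le z2 ({z3} : Set (Option F))
    rw [Set.ncard_singleton] at h2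
    rw [← he, hcard] at h1
    omega
  have hpq : p ≠ q := by
    rintro rfl
    exact hd none (some p) (some r) (by rw [hr]; simp)
  have hpr : p ≠ r := by
    rintro rfl
    exact hd none (some p) (some q) (by
      rw [hr]; ext z; simp only [Set.mem_insert_iff, Set.mem_singleton_iff]; tauto)
  have hqr : q ≠ r := by
    rintro rfl
    exact hd none (some p) (some q) (by rw [hr]; simp)
  refine ⟨hpq, hpr, hqr, ?_⟩
  obtain ⟨-, ⟨i, hi⟩, ⟨j, hj⟩⟩ := hin
  have m1 : some f ∈ Set.range w := ⟨i, hi⟩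
  have m2 : some g ∈ Set.range w := ⟨j, hj⟩
  rw [hr] at m1 m2
  simp only [Set.mem_insert_iff, Set.mem_singleton_iff, reduceCtorEq, Option.some.injEq,
    false_or] at m1 m2
  have fin : ∀ u, u ≠ f → u ≠ g → SameT f g u p q r →
      ∃ u, u ≠ f ∧ u ≠ g ∧ SameT f g u p q r ∧
      Set.range w = {none, some f, some g, some u} := by
    intro u h1 h2 h3
    exact ⟨u, h1, h2, h3, by rw [hr]; exact set_of_sameT h3⟩
  rcases m1 with rfl | rfl | rfl <;> rcases m2 with rfl | rfl | rfl
  · exact absurd rfl hgf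
  · exact fin r hpr.symm hqr.symm (by unfold SameT; tauto)
  · exact fin q hpq.symm hqr (by unfold SameT; tauto)
  · exact fin r hqr.symm hpr.symm (by unfold SameT; tauto)
  · exact absurd rfl hgf
  · exact fin p hpq hpr (by unfold SameT; tauto)
  · exact fin q hqr hpq.symm (by unfold SameT; tauto)
  · exact fin p hpr hpq (by unfold SameT; tauto)
  · exact absurd rfl hgf

theorem tauD_zero {pot : F → F → F → ℤ} {g f t1 t2 t3 h h' p q r : F} (δ : SignType)
    (h1 : Mem3 f p q r) (h2 : Mem3 g p q r) : tauD c pot g f t1 t2 t3 δ 0 0 h h' p q r = 0 := by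
  unfold tauD
  rw [if_pos h2, if_pos h1]
  split_ifs <;> simp

omit [DecidableEq F] in
theorem mem3_of_sameT {t1 t2 t3 p q r e : F} (h : SameT t1 t2 t3 p q r) :
    Mem3 e p q r ↔ Mem3 e t1 t2 t3 := by
  unfold Mem3
  rcases h with ⟨rfl, rfl, rfl⟩ | ⟨rfl, rfl, rfl⟩ | ⟨rfl, rfl, rfl⟩ | ⟨rfl, rfl, rfl⟩ |
    ⟨rfl, rfl, rfl⟩ | ⟨rfl, rfl, rfl⟩ <;> tauto

omit [DecidableEq F] in
theorem pick_sign : ∀ e v t : SignType, e ≠ 0 → v ≠ 0 → t ≠ 0 → ∃ s : SignType, s ≠ 0 ∧
    e * (s * v) = t := by
  decide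

/-- Values of the perturbed extension outside of the bases with the new element, `f`, `g`. -/
theorem tauD_indep {pot : F → F → F → ℤ} {g f t1 t2 t3 : F} (δ s1 s2 s1' s2' : SignType)
    (h h' k k' : F) (x : Fin 4 → Option F) (hx : ¬ In3 none (some f) (some g) x) :
    chi4 (extc c (tauD c pot g f t1 t2 t3 δ s1 s2 h h')) x =
      chi4 (extc c (tauD c pot g f t1 t2 t3 δ s1' s2' k k')) x := by
  rcases extc_form c x with ⟨v, -, hv⟩ | ⟨ε, p, q, r, hε, hv, hr⟩
  · rw [hv, hv]
  · rw [hv, hv]
    by_cases hf : Mem3 f p q r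
    · by_cases hg : Mem3 g p q r
      · exfalso
        apply hx
        have m0 : none ∈ Set.range x := by rw [hr]; simp
        have m1 : some f ∈ Set.range x := by
          rw [hr]
          simp only [Set.mem_insert_iff, Set.mem_singleton_iff, reduceCtorEq,
            Option.some.injEq, false_or]
          exact hf
        have m2 : some g ∈ Set.range x := by
          rw [hr]
          simp only [Set.mem_insert_iff, Set.mem_singleton_iff, reduceCtorEq,
            Option.some.injEq, false_or]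
          exact hg
        exact ⟨m0, m1, m2⟩
      · unfold tauD
        rw [if_neg hg, if_neg hg]
    · unfold tauD
      simp only [if_neg hf]

theorem exch_tauD0 (hc : U4 c) {pot : F → F → F → ℤ} {g f : F} (hpot : Pot c g f pot)
    {t1 t2 t3 : F} (hft : ¬ Mem3 f t1 t2 t3) (hgt : ¬ Mem3 g t1 t2 t3)
    (h12 : t1 ≠ t2) (h13 : t1 ≠ t3) (h23 : t2 ≠ t3) (hgf : g ≠ f) (h h' : F) :
    Exch (chi4 (extc c (tauD c pot g f t1 t2 t3 0 0 0 h h'))) := by
  have hA := fun δ s1 s2 h h' => alt_tauD hc.toAlt4 hpot t1 t2 t3 δ s1 s2 h h'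
  have hR := fun δ s1 s2 h h' => (alt_extc hc.toAlt4 (hA δ s1 s2 h h')).rep
  apply exch_pencil none (some f) (some g) (by simp) (by simp) (by simp [hgf.symm]) (hR _ _ _ _ _)
  · intro x hx
    rcases extc_form c x with ⟨v, hv0, hv⟩ | ⟨ε, p, q, r, hε, hv, hr⟩
    · rw [hv]
      rcases hv0 with h0 | h0
      · obtain ⟨i, hi⟩ := hx.1
        exact absurd hi (h0 i)
      · exact h0.1
    · rw [hv]
      obtain ⟨-, ⟨i, hi⟩, ⟨j, hj⟩⟩ := hx
      have m1 : some f ∈ Set.range x := ⟨i, hi⟩
      have m2 : some g ∈ Set.range x := ⟨j, hj⟩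
      rw [hr] at m1 m2
      simp only [Set.mem_insert_iff, Set.mem_singleton_iff, reduceCtorEq, Option.some.injEq,
        false_or] at m1 m2
      rw [tauD_zero 0 m1 m2, mul_zero]
  · intro w hw hin ε hε ⟨v, hv⟩
    rcases extc_form c w with ⟨v, hv0, hval⟩ | ⟨ε0, p, q, r, hε0, hval, hr⟩
    · exfalso
      rcases hv0 with h0 | h0
      · obtain ⟨i, hi⟩ := hin.1
        exact h0 i hi
      · exact h0.2 hw
    · obtain ⟨hpq, hpr, hqr, u, huf, hug, hS, hru⟩ := fourth_elt hw hgf hin hr
      have hv' : ∃ u', v = some u' ∧ u' ≠ f ∧ u' ≠ g ∧ u' ≠ u := by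
        cases v with
        | none => exact absurd hin.1 hv
        | some u' =>
          rw [hru] at hv
          simp only [Set.mem_insert_iff, Set.mem_singleton_iff, reduceCtorEq,
            Option.some.injEq, false_or, not_or] at hv
          exact ⟨u', rfl, hv.1, hv.2.1, hv.2.2⟩
      obtain ⟨u', -, hu'f, hu'g, hu'u⟩ := hv'
      have hnd : ∀ e, ¬ Mem3 e p q r → c p q r e ≠ 0 := by
        intro e he
        unfold Mem3 at he
        apply hc.nz
        apply nodup_of_ne4 <;> tauto
      have hval' : ¬ Mem3 u' p q r := by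
        rw [mem3_of_sameT hS]
        exact not_mem3 hu'f hu'g hu'u
      obtain ⟨s, hs, hs'⟩ := pick_sign ε0 (c p q r u') ε hε0 (hnd _ hval') hε
      refine ⟨chi4 (extc c (tauD c pot g f t1 t2 t3 0 1 s u u')), ?_, hR _ _ _ _ _,
        fun x hx => tauD_indep _ _ _ _ _ _ _ _ _ x hx, ?_⟩
      · exact exch_tauD1 hc hpot hft hgt h12 h13 h23 (by decide) hs hgf (Ne.symm hug)
          (Ne.symm huf) (Ne.symm hu'g) (Ne.symm hu'f) (Ne.symm hu'u)
      · rw [hval]
        unfold tauD
        rw [if_pos ((mem3_of_sameT hS).2 (mem3_1 _ _ _)), if_pos ((mem3_of_sameT hS).2 (mem3_0 _ _ _)),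
          if_pos ((mem3_of_sameT hS).2 (mem3_2 _ _ _)), hs']
  · intro w w' hw hw' hin hin' hne ε ε' hε hε'
    have hnd : ∀ p q r e, p ≠ q → p ≠ r → q ≠ r → ¬ Mem3 e p q r → c p q r e ≠ 0 := by
      intro p q r e hpq hpr hqr he
      unfold Mem3 at he
      apply hc.nz
      apply nodup_of_ne4 <;> tauto
    rcases extc_form c w with ⟨v, hv0, hval⟩ | ⟨ε0, p, q, r, hε0, hval, hr⟩
    · exfalso
      rcases hv0 with h0 | h0
      · obtain ⟨i, hi⟩ := hin.1
        exact h0 i hi
      · exact h0.2 hw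
    rcases extc_form c w' with ⟨v, hv0, hval'⟩ | ⟨ε0', p', q', r', hε0', hval', hr'⟩
    · exfalso
      rcases hv0 with h0 | h0
      · obtain ⟨i, hi⟩ := hin'.1
        exact h0 i hi
      · exact h0.2 hw'
    obtain ⟨hpq, hpr, hqr, u, huf, hug, hS, hru⟩ := fourth_elt hw hgf hin hr
    obtain ⟨hpq', hpr', hqr', u', hu'f, hu'g, hS', hru'⟩ := fourth_elt hw' hgf hin' hr'
    have huu : u ≠ u' := by
      rintro rfl
      exact hne (hru.trans hru'.symm)
    have n1 : ¬ Mem3 u' p q r := by
      rw [mem3_of_sameT hS]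
      exact not_mem3 hu'f hu'g huu.symm
    have n2 : ¬ Mem3 u p' q' r' := by
      rw [mem3_of_sameT hS']
      exact not_mem3 huf hug huu
    obtain ⟨s2, hs2, hs2'⟩ := pick_sign ε0 (c p q r u') ε hε0 (hnd _ _ _ _ hpq hpr hqr n1) hε
    obtain ⟨s1, hs1, hs1'⟩ := pick_sign ε0' (c p' q' r' u) ε' hε0'
      (hnd _ _ _ _ hpq' hpr' hqr' n2) hε'
    refine ⟨chi4 (extc c (tauD c pot g f t1 t2 t3 0 s1 s2 u u')), ?_, hR _ _ _ _ _,
        fun x hx => tauD_indep _ _ _ _ _ _ _ _ _ x hx, ?_, ?_⟩
    · exact exch_tauD1 hc hpot hft hgt h12 h13 h23 hs1 hs2 hgf (Ne.symm hug)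
          (Ne.symm huf) (Ne.symm hu'g) (Ne.symm hu'f) huu
    · rw [hval]
      unfold tauD
      rw [if_pos ((mem3_of_sameT hS).2 (mem3_1 _ _ _)), if_pos ((mem3_of_sameT hS).2 (mem3_0 _ _ _)),
          if_pos ((mem3_of_sameT hS).2 (mem3_2 _ _ _)), hs2']
    · rw [hval']
      unfold tauD
      rw [if_pos ((mem3_of_sameT hS').2 (mem3_1 _ _ _)),
        if_pos ((mem3_of_sameT hS').2 (mem3_0 _ _ _)), if_neg n2, hs1']

end

end Pool.Agent.MandelOM
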