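import Pool.Agent.MandelOM.Ext4

/-!
A potential for the program `(g, f)` shows that the program is Euclidean.
-/

namespace Pool.Agent.MandelOM

variable {F : Type*}

theorem update_comp_swap' {G : Type*} (x : Fin 4 → G) (k : Fin 4) (e : G) :
    Function.update (x ∘ Equiv.swap k 3) 3 e ∘ Equiv.swap k 3 = Function.update x k e := by
  funext i
  simp only [Function.comp_apply, Function.update_apply]
  by_cases hik : i = k
  · subst hik
    simp
  · rw [if_neg hik, if_neg]
    · simp
    · intro h
      apply hik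
      have := congrArg (Equiv.swap k 3) h
      simpa using this

/-- Cocircuits in a normal form. -/
theorem cocirc_form {G : Type*} (P : OM G 4) {Y : G → SignType} (hY : P.IsCocircuit Y) :
    ∃ t1 t2 t3 s, s ≠ 0 ∧ ∀ e, Y e = s * c4 P t1 t2 t3 e := by
  obtain ⟨⟨e0, he0⟩, x, k, s, hs⟩ := hY
  have hs0 : s ≠ 0 := by
    rintro rfl
    rw [hs, zero_mul] at he0
    exact he0 rfl
  have h3 : ∀ x : Fin 4 → G, ∀ e, P.chi (Function.update x 3 e) = c4 P (x 0) (x 1) (x 2) e := by
    intro x e
    rw [← eta4 (Function.update x 3 e)]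
    rfl
  by_cases hk : k = 3
  · subst hk
    exact ⟨x 0, x 1, x 2, s, hs0, fun e => by rw [hs, h3]⟩
  · refine ⟨(x ∘ Equiv.swap k 3) 0, (x ∘ Equiv.swap k 3) 1, (x ∘ Equiv.swap k 3) 2, -s, ?_, ?_⟩
    · have aux : ∀ t : SignType, t ≠ 0 → -t ≠ 0 := by decide
      exact aux s hs0
    · intro e
      rw [hs, ← h3, ← update_comp_swap' x k e, P.alternating _ k 3 hk]
      simp

/-- The case in which the vertex lies on `f`: a parallel copy of `f`. -/
def copyOM (O : OM F 4) (f : F) : OM (Option F) 4 where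
  chi := fun x => O.chi (fun i => (x i).getD f)
  nonzero := by
    obtain ⟨x, hx⟩ := O.nonzero
    exact ⟨fun i => some (x i), hx⟩
  alternating := fun x i j hij => O.alternating (fun i => (x i).getD f) i j hij
  exchange := by
    intro x y k hx hy
    obtain ⟨i, hi⟩ := O.exchange _ _ k hx hy
    refine ⟨i, ?_⟩
    have hup : ∀ (z : Fin 4 → Option F) (j : Fin 4) (o : Option F),
        (fun i => (Function.update z j o i).getD f) =
          Function.update (fun i => (z i).getD f) j (o.getD f) := by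
      intro z j o
      funext l
      simp only [Function.update_apply]
      split_ifs <;> rfl
    rw [hup, hup]
    exact hi

theorem distinct_of_ne {c : F → F → F → F → SignType} (h : Alt4 c) {x y a b : F}
    (hne : c x y a b ≠ 0) : x ≠ y ∧ x ≠ a ∧ y ≠ a ∧ x ≠ b ∧ y ≠ b ∧ a ≠ b := by
  refine ⟨?_, ?_, ?_, ?_, ?_, ?_⟩
  · rintro rfl; exact hne (h.z01 _ _ _)
  · rintro rfl; exact hne (h.z02 _ _ _)
  · rintro rfl; exact hne (h.z12 _ _ _)
  · rintro rfl; exact hne (h.z03 _ _ _)
  · rintro rfl; exact hne (h.z13 _ _ _)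
  · rintro rfl; exact hne (h.z23 _ _ _)

theorem euclideanProgram_copy (O : OM F 4) {f g t1 t2 t3 : F} {Y : F → SignType} {s : SignType}
    (hY : ∀ e, Y e = s * c4 O t1 t2 t3 e) (hYg : Y g ≠ 0) (hf : Mem3 f t1 t2 t3) :
    ∃ P : OM (Option F) 4, P.Extends O ∧ ¬ P.IsLoop none ∧
      P.IsCocircuit (fun o => o.elim 0 Y) ∧
      ∀ Z : Option F → SignType, P.IsCocircuit Z → Z (some f) = 0 → Z (some g) = 0 →
        Z none = 0 := by
  have hA := alt_c4 O
  have hg : c4 O t1 t2 t3 g ≠ 0 := by
    intro h0; rw [hY, h0, mul_zero] at hYg; exact hYg rfl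
  have hup : ∀ e : Option F, (copyOM O f).chi ![some t1, some t2, some t3, e] =
      c4 O t1 t2 t3 (e.getD f) := by
    intro e
    show O.chi _ = O.chi _
    congr 1
    funext i
    fin_cases i <;> rfl
  have hf0 : c4 O t1 t2 t3 f = 0 := by
    rcases hf with rfl | rfl | rfl
    · exact hA.z03 _ _ _
    · exact hA.z13 _ _ _
    · exact hA.z23 _ _ _
  refine ⟨copyOM O f, fun x => rfl, ?_, ?_, ?_⟩
  · intro hl
    have h1 : ∀ o1 o2 o3 : Option F, o1.getD f = t1 → o2.getD f = t2 → o3.getD f = t3 →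
        (copyOM O f).chi ![o1, o2, o3, some g] ≠ 0 := by
      intro o1 o2 o3 h1 h2 h3
      have : (copyOM O f).chi ![o1, o2, o3, some g] = c4 O t1 t2 t3 g := by
        show O.chi _ = O.chi _
        congr 1
        funext i
        fin_cases i
        · exact h1
        · exact h2
        · exact h3
        · rfl
      rw [this]; exact hg
    rcases hf with h | h | h
    · exact h1 none (some t2) (some t3) h rfl rfl (hl _ ⟨0, rfl⟩)
    · exact h1 (some t1) none (some t3) rfl h rfl (hl _ ⟨1, rfl⟩)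
    · exact h1 (some t1) (some t2) none rfl rfl h (hl _ ⟨2, rfl⟩)
  · refine ⟨⟨some g, hYg⟩, ![some t1, some t2, some t3, none], 3, s, ?_⟩
    intro o
    have : Function.update ![some t1, some t2, some t3, none] 3 o =
        ![some t1, some t2, some t3, o] := by
      funext i; fin_cases i <;> rfl
    rw [this, hup]
    cases o with
    | none => show (0 : SignType) = s * c4 O t1 t2 t3 f; rw [hf0, mul_zero]
    | some e => exact hY e
  · rintro Z ⟨-, x, k, s', hZ⟩ hZf -
    rw [hZ] at hZf ⊢
    rw [← hZf]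
    congr 1
    show O.chi _ = O.chi _
    congr 1
    funext i
    simp only [Function.update_apply]
    split_ifs <;> rfl

section

variable [DecidableEq F]

theorem euclideanProgram_of_pot (O : OM F 4) (hU : U4 (c4 O)) {g f : F} (hgf : g ≠ f)
    {pot : F → F → F → ℤ} (hpot : Pot (c4 O) g f pot) : O.EuclideanProgram g f := by
  intro Y hY hYg
  obtain ⟨t1, t2, t3, s, hs, hYe⟩ := cocirc_form O hY
  have hA := alt_c4 O
  have hg : c4 O t1 t2 t3 g ≠ 0 := by
    intro h0; rw [hYe, h0, mul_zero] at hYg; exact hYg rfl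
  by_cases hf : Mem3 f t1 t2 t3
  · exact euclideanProgram_copy O hYe hYg hf
  obtain ⟨h12, h13, h23, h1g, h2g, h3g⟩ := distinct_of_ne hA hg
  have hgt : ¬ Mem3 g t1 t2 t3 := not_mem3 h1g.symm h2g.symm h3g.symm
  set d := extc (c4 O) (tauD (c4 O) pot g f t1 t2 t3 0 0 0 g g) with hd
  have hAd : Alt4 d := alt_extc hA (alt_tauD hA hpot _ _ _ _ _ _ _ _)
  have hE : Exch (chi4 d) := exch_tauD0 hU hpot hf hgt h12 h13 h23 hgf g g
  have hft : f ≠ t1 ∧ f ≠ t2 := by
    unfold Mem3 at hf; tauto
  have hn0 : d (some g) (some t1) (some t2) none ≠ 0 := by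
    show tauD (c4 O) pot g f t1 t2 t3 0 0 0 g g g t1 t2 ≠ 0
    unfold tauD
    rw [if_pos (mem3_0 _ _ _), if_neg (not_mem3 hgf.symm hft.1 hft.2)]
    apply hU.nz
    apply nodup_of_ne4 h1g.symm h2g.symm hgf h12 hft.1.symm hft.2.symm
  refine ⟨mkOM d hAd hE ⟨![some g, some t1, some t2, none], hn0⟩, ?_, ?_, ?_, ?_⟩
  · intro x
    show c4 O (x 0) (x 1) (x 2) (x 3) = O.chi x
    unfold c4
    rw [eta4]
  · intro hl
    exact hn0 (hl ![some g, some t1, some t2, none] ⟨3, rfl⟩)
  · refine ⟨⟨some g, hYg⟩, ![some t1, some t2, some t3, none], 3, s, ?_⟩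
    intro o
    cases o with
    | none =>
      show (0 : SignType) = s * tauD (c4 O) pot g f t1 t2 t3 0 0 0 g g t1 t2 t3
      unfold tauD side
      have : SameT t1 t2 t3 t1 t2 t3 := Or.inl ⟨rfl, rfl, rfl⟩
      rw [if_neg hgt, if_pos this, mul_zero, mul_zero]
    | some e => exact hYe e
  · intro Z hZ hZf hZg
    obtain ⟨o1, o2, o3, s', hs', hZe⟩ := cocirc_form _ hZ
    have hZe' : ∀ o, Z o = s' * d o1 o2 o3 o := hZe
    have hor : o1 ≠ o2 ∧ o1 ≠ o3 ∧ o2 ≠ o3 := by
      obtain ⟨⟨e, he⟩, -⟩ := hZ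
      rw [hZe'] at he
      have : d o1 o2 o3 e ≠ 0 := by
        intro h0; rw [h0, mul_zero] at he; exact he rfl
      have := distinct_of_ne hAd this
      exact ⟨this.1, this.2.1, this.2.2.1⟩
    rw [hZe']
    cases o1 with
    | none => rw [hAd.z03, mul_zero]
    | some p =>
      cases o2 with
      | none => rw [hAd.z13, mul_zero]
      | some q =>
        cases o3 with
        | none => rw [hAd.z23, mul_zero]
        | some r =>
          have hpq : p ≠ q := fun h => hor.1 (by rw [h])
          have hpr : p ≠ r := fun h => hor.2.1 (by rw [h])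
          have hqr : q ≠ r := fun h => hor.2.2 (by rw [h])
          have key : ∀ e, Z (some e) = 0 → Mem3 e p q r := by
            intro e he
            rw [hZe'] at he
            have h0 : c4 O p q r e = 0 := by
              by_contra hne
              exact mul_ne_zero hs' hne he
            by_contra hm
            unfold Mem3 at hm
            exact hU.nz _ _ _ _ (nodup_of_ne4 hpq hpr (by tauto) hqr (by tauto) (by tauto)) h0
          show s' * tauD (c4 O) pot g f t1 t2 t3 0 0 0 g g p q r = 0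
          rw [tauD_zero 0 (key f hZf) (key g hZg), mul_zero]

end

end Pool.Agent.MandelOM
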