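import Pool.Agent.MandelOM.Example

/-!
The example and all its flips are not Euclidean.
-/

namespace Pool.Agent.MandelOM

/-- `O'` is the example with the sign of the basis `B` reversed, up to a global sign. -/
def RelTo (O' : OM (Fin 9) 4) (B : Finset (Fin 9)) : Prop :=
  ∃ s : SignType, s ≠ 0 ∧ ∀ x y a b : Fin 9, c4 O' x y a b =
    s * (if ({x, y, a, b} : Finset (Fin 9)) = B then -cO x y a b else cO x y a b)

instance (x y a x' y' a' : Fin 9) : Decidable (SameT x y a x' y' a') := by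
  unfold SameT; infer_instance

/-- Check of a directed path in the graph of the program `(g, f)` of the example. -/
def pathB (g f : Fin 9) : Fin 9 × Fin 9 × Fin 9 → List (Fin 9 × Fin 9 × Fin 9 × Fin 9) →
    Fin 9 × Fin 9 × Fin 9 → Bool
  | s, [], t => decide (SameT s.1 s.2.1 s.2.2 t.1 t.2.1 t.2.2)
  | s, (x, y, a, b) :: l, t => decide (SameT s.1 s.2.1 s.2.2 x y a) &&
      decide ([x, y, a, b, g, f].Nodup) &&
      decide (cO x y a b * cO x y g f = cO x y a g * cO x y b g) && pathB g f (x, y, b) l t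

/-- The bases used by a path. -/
def used (g f : Fin 9) : List (Fin 9 × Fin 9 × Fin 9 × Fin 9) → List (Finset (Fin 9))
  | [] => []
  | (x, y, a, b) :: l =>
      {x, y, a, b} :: {x, y, g, f} :: {x, y, a, g} :: {x, y, b, g} :: used g f l

theorem path_transfer {O' : OM (Fin 9) 4} {B : Finset (Fin 9)} (h : RelTo O' B) (g f : Fin 9) :
    ∀ L s t, pathB g f s L t = true → B ∉ used g f L → PathP O' g f s L t := by
  obtain ⟨s0, hs0, hc⟩ := h
  intro L
  induction L with
  | nil =>
    intro s t hp _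
    unfold pathB at hp
    show SameT s.1 s.2.1 s.2.2 t.1 t.2.1 t.2.2
    exact of_decide_eq_true hp
  | cons st L ih =>
    obtain ⟨x, y, a, b⟩ := st
    intro s t hp hB
    unfold pathB at hp
    rw [Bool.and_eq_true, Bool.and_eq_true, Bool.and_eq_true] at hp
    obtain ⟨⟨⟨h1, h2⟩, h3⟩, h4⟩ := hp
    unfold used at hB
    simp only [List.mem_cons, not_or] at hB
    obtain ⟨b1, b2, b3, b4, b5⟩ := hB
    refine ⟨of_decide_eq_true h1, of_decide_eq_true h2, ?_, ih _ _ h4 b5⟩
    have h3' := of_decide_eq_true h3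
    unfold Before
    rw [hc, hc, hc, hc, if_neg (Ne.symm b1), if_neg (Ne.symm b2), if_neg (Ne.symm b3),
      if_neg (Ne.symm b4)]
    have aux : ∀ s a b d e : SignType, a * b = d * e → s * a * (s * b) = s * d * (s * e) := by
      intro s a b d e h
      rw [mul_mul_mul_comm, h, mul_mul_mul_comm]
    exact aux _ _ _ _ _ h3'

/-- The three cycles. -/
def cyc1 : List (Fin 9 × Fin 9 × Fin 9 × Fin 9) :=
  [(1, 3, 2, 8), (1, 8, 3, 4), (4, 8, 1, 2), (2, 4, 8, 7), (2, 7, 4, 3), (2, 3, 7, 1)]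
/-- The three cycles. -/
def cyc2 : List (Fin 9 × Fin 9 × Fin 9 × Fin 9) :=
  [(1, 2, 4, 7), (1, 7, 2, 3), (3, 7, 1, 6), (3, 6, 7, 4), (4, 6, 3, 1), (1, 4, 6, 2)]
/-- The three cycles. -/
def cyc3 : List (Fin 9 × Fin 9 × Fin 9 × Fin 9) :=
  [(1, 3, 2, 8), (3, 8, 1, 4), (4, 8, 3, 2), (2, 4, 8, 7), (2, 7, 4, 3), (2, 3, 7, 1)]

theorem cyc1_ok : pathB 0 6 (1, 3, 2) cyc1 (1, 3, 2) = true := by decide +kernel
theorem cyc2_ok : pathB 0 8 (1, 2, 4) cyc2 (1, 2, 4) = true := by decide +kernel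
theorem cyc3_ok : pathB 0 6 (1, 3, 2) cyc3 (1, 3, 2) = true := by decide +kernel

theorem inter_used : ∀ B ∈ used 0 6 cyc1, B ∈ used 0 8 cyc2 → B ∈ used 0 6 cyc3 →
    B = {0, 4, 6, 8} ∨ B = {1, 2, 3, 7} := by
  decide +kernel

theorem program_of_uniform {O' : OM (Fin 9) 4} (hU : O'.Uniform) (f : Fin 9) (hf0 : f ≠ 0)
    (hf : ∀ i, (![0, 1, 2, 3] : Fin 4 → Fin 9) i ≠ f) : O'.IsProgram 0 f := by
  have h0 : O'.chi ![0, 1, 2, 3] ≠ 0 := hU _ (by decide)
  refine ⟨fun h => h0 (h _ ⟨0, rfl⟩), hf0, fun h => ?_⟩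
  obtain ⟨i, hi⟩ := h _ h0
  exact hf i hi

/-- The values of the flipped chirotope. -/
def cB (B : Finset (Fin 9)) (x y a b : Fin 9) : SignType :=
  if ({x, y, a, b} : Finset (Fin 9)) = B then -cO x y a b else cO x y a b

/-- A violated three-term relation. -/
theorem not_flip {O' : OM (Fin 9) 4} {B : Finset (Fin 9)} (h : RelTo O' B) (u v a b d e : Fin 9)
    (h1 : cB B u v a b ≠ 0) (h2 : cB B u v d e ≠ 0)
    (h3 : ¬ (cB B u v d b * cB B u v a e = cB B u v a b * cB B u v d e))
    (h4 : ¬ (cB B u v e b * cB B u v d a = cB B u v a b * cB B u v d e)) : False := by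
  obtain ⟨s, hs, hc⟩ := h
  have hc' : ∀ x y a b : Fin 9, c4 O' x y a b = s * cB B x y a b := hc
  have hss : s * s = 1 := by
    clear hc hc'
    revert hs
    revert s
    decide
  have hm : ∀ p q : SignType, s * p * (s * q) = p * q := by
    intro p q
    rw [mul_mul_mul_comm, hss, one_mul]
  rcases three_term O' u v a b d e (by rw [hc']; exact mul_ne_zero hs h1)
    (by rw [hc']; exact mul_ne_zero hs h2) with h | h
  · rw [hc', hc', hc', hc', hm, hm] at h
    exact h3 h
  · rw [hc', hc', hc', hc', hm, hm] at h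
    exact h4 h

theorem not_flip1 {O' : OM (Fin 9) 4} (h : RelTo O' {0, 4, 6, 8}) : False :=
  not_flip h 0 4 1 5 6 8 (by decide +kernel) (by decide +kernel) (by decide +kernel)
    (by decide +kernel)

theorem not_flip2 {O' : OM (Fin 9) 4} (h : RelTo O' {1, 2, 3, 7}) : False :=
  not_flip h 2 3 0 1 5 7 (by decide +kernel) (by decide +kernel) (by decide +kernel)
    (by decide +kernel)

theorem not_euclidean {O' : OM (Fin 9) 4} (hU : O'.Uniform) {B : Finset (Fin 9)}
    (h : RelTo O' B) : ¬ O'.Euclidean := by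
  intro hE
  have p6 : O'.EuclideanProgram 0 6 := hE 0 6 (program_of_uniform hU 6 (by decide) (by decide))
  have p8 : O'.EuclideanProgram 0 8 := hE 0 8 (program_of_uniform hU 8 (by decide) (by decide))
  by_cases b1 : B ∈ used 0 6 cyc1
  · by_cases b2 : B ∈ used 0 8 cyc2
    · by_cases b3 : B ∈ used 0 6 cyc3
      · rcases inter_used B b1 b2 b3 with h' | h'
        · exact not_flip1 (h' ▸ h)
        · exact not_flip2 (h' ▸ h)
      · exact not_euclideanProgram O' hU 0 6 (by decide) 1 3 2 (by decide) cyc3 (by decide)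
          (path_transfer h 0 6 _ _ _ cyc3_ok b3) p6
    · exact not_euclideanProgram O' hU 0 8 (by decide) 1 2 4 (by decide) cyc2 (by decide)
        (path_transfer h 0 8 _ _ _ cyc2_ok b2) p8
  · exact not_euclideanProgram O' hU 0 6 (by decide) 1 3 2 (by decide) cyc1 (by decide)
      (path_transfer h 0 6 _ _ _ cyc1_ok b1) p6

theorem set_eq_finset (x y a b : Fin 9) (B : Finset (Fin 9)) :
    Set.range ![x, y, a, b] = (B : Set (Fin 9)) ↔ ({x, y, a, b} : Finset (Fin 9)) = B := by
  rw [range4, ← Finset.coe_inj]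
  simp

theorem relTo_of_same {O1 : OM (Fin 9) 4} {s : SignType} (hs : s ≠ 0)
    (h : ∀ x, O1.chi x = s * exO.chi x) : RelTo O1 ∅ := by
  refine ⟨s, hs, fun x y a b => ?_⟩
  rw [if_neg (Finset.insert_ne_empty _ _)]
  exact h ![x, y, a, b]

/-- The example is at distance at least two from the Euclidean oriented matroids. -/
theorem far (O' : UniformOM (Fin 9) 4) (hE : O'.1.Euclidean) :
    2 ≤ (mutationGraph (Fin 9) 4).edist
      (UniformOM.toVertex ⟨exO, exO_uniform⟩) (UniformOM.toVertex O') := by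
  by_contra hlt
  rw [not_le] at hlt
  have hle : (mutationGraph (Fin 9) 4).edist
      (UniformOM.toVertex ⟨exO, exO_uniform⟩) (UniformOM.toVertex O') ≤ 1 :=
    Order.le_of_lt_add_one (by rw [one_add_one_eq_two]; exact hlt)
  rw [SimpleGraph.edist_le_one_iff_adj_or_eq] at hle
  rcases hle with hadj | heq
  · obtain ⟨-, O1, O2, h1, h2, hmut⟩ := hadj
    obtain ⟨B, s, hs, hflip⟩ : ∃ (B : Finset (Fin 9)) (s : SignType), s ≠ 0 ∧
        ∀ x y a b, c4 O2.1 x y a b = s * (if ({x, y, a, b} : Finset (Fin 9)) = B then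
          -c4 O1.1 x y a b else c4 O1.1 x y a b) := by
      rcases hmut with ⟨B, -, s, hs, hflip⟩ | ⟨B, -, s, hs, hflip⟩
      · refine ⟨B, s, hs, fun x y a b => ?_⟩
        have h := hflip ![x, y, a, b]
        by_cases hB : ({x, y, a, b} : Finset (Fin 9)) = B
        · rw [if_pos ((set_eq_finset _ _ _ _ _).2 hB)] at h
          rw [if_pos hB]
          exact h
        · rw [if_neg (fun h => hB ((set_eq_finset _ _ _ _ _).1 h))] at h
          rw [if_neg hB]
          exact h
      · refine ⟨B, s, hs, fun x y a b => ?_⟩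
        have h := hflip ![x, y, a, b]
        have aux : ∀ s u v : SignType, s ≠ 0 → u = s * v → v = s * u := by decide
        have aux' : ∀ s u v : SignType, s ≠ 0 → u = s * -v → v = s * -u := by decide
        by_cases hB : ({x, y, a, b} : Finset (Fin 9)) = B
        · rw [if_pos ((set_eq_finset _ _ _ _ _).2 hB)] at h
          rw [if_pos hB]
          exact aux' _ _ _ hs h
        · rw [if_neg (fun h => hB ((set_eq_finset _ _ _ _ _).1 h))] at h
          rw [if_neg hB]
          exact aux _ _ _ hs h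
    obtain ⟨s1, hs1, h1'⟩ : ∃ s : SignType, s ≠ 0 ∧ ∀ x, exO.chi x = s * O1.1.chi x :=
      Quotient.exact h1
    obtain ⟨s2, hs2, h2'⟩ : ∃ s : SignType, s ≠ 0 ∧ ∀ x, O'.1.chi x = s * O2.1.chi x :=
      Quotient.exact h2
    have hss : s1 * s1 = 1 := by
      clear h1'
      revert hs1
      revert s1
      decide
    have h1'' : ∀ x y a b, c4 O1.1 x y a b = s1 * cO x y a b := by
      intro x y a b
      have e2 : exO.chi ![x, y, a, b] = cO x y a b := rfl
      have e3 : O1.1.chi ![x, y, a, b] = c4 O1.1 x y a b := rfl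
      rw [← e2, h1', ← mul_assoc, hss, one_mul, e3]
    refine not_euclidean O'.2 (B := B) ⟨s2 * s * s1, mul_ne_zero (mul_ne_zero hs2 hs) hs1, ?_⟩ hE
    intro x y a b
    have e1 : c4 O'.1 x y a b = O'.1.chi ![x, y, a, b] := rfl
    have e2 : O2.1.chi ![x, y, a, b] = c4 O2.1 x y a b := rfl
    rw [e1, h2', e2, hflip, h1'']
    by_cases hB : ({x, y, a, b} : Finset (Fin 9)) = B
    · rw [if_pos hB, if_pos hB]
      simp [mul_assoc]
    · rw [if_neg hB, if_neg hB]
      simp [mul_assoc]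
  · obtain ⟨s, hs, h⟩ : ∃ s : SignType, s ≠ 0 ∧ ∀ x, O'.1.chi x = s * exO.chi x :=
      Quotient.exact heq
    exact not_euclidean O'.2 (relTo_of_same hs h) hE

end Pool.Agent.MandelOM
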