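import Pool.Agent.MandelOM.Exch2

/-!
A directed cycle in the graph of a program of a uniform oriented matroid of rank four shows that
the program is not Euclidean.
-/

namespace Pool.Agent.MandelOM

variable {F : Type*}

/-- The chirotope as a function of four variables. -/
def c4 (O : OM F 4) : F → F → F → F → SignType := fun x y a b => O.chi ![x, y, a, b]

theorem eta4 (x : Fin 4 → F) : ![x 0, x 1, x 2, x 3] = x := by
  funext i
  fin_cases i <;> rfl

theorem chi4_c4 (O : OM F 4) : chi4 (c4 O) = O.chi := by
  funext x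
  unfold chi4 c4
  rw [eta4]

theorem alt_c4 (O : OM F 4) : Alt4 (c4 O) where
  s01 := by
    intro x y a b
    have := O.alternating ![x, y, a, b] 0 1 (by decide)
    rw [← eta4 (![x, y, a, b] ∘ Equiv.swap 0 1)] at this
    exact this
  s12 := by
    intro x y a b
    have := O.alternating ![x, y, a, b] 1 2 (by decide)
    rw [← eta4 (![x, y, a, b] ∘ Equiv.swap 1 2)] at this
    exact this
  s23 := by
    intro x y a b
    have := O.alternating ![x, y, a, b] 2 3 (by decide)
    rw [← eta4 (![x, y, a, b] ∘ Equiv.swap 2 3)] at this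
    exact this

theorem Alt4.z01 {c : F → F → F → F → SignType} (h : Alt4 c) (x a b : F) : c x x a b = 0 := by
  have := h.s01 x x a b
  generalize c x x a b = t at this
  revert t; decide

theorem Alt4.z12 {c : F → F → F → F → SignType} (h : Alt4 c) (x a b : F) : c a x x b = 0 := by
  have := h.s12 a x x b
  generalize c a x x b = t at this
  revert t; decide

theorem Alt4.z23 {c : F → F → F → F → SignType} (h : Alt4 c) (x a b : F) : c a b x x = 0 := by
  have := h.s23 a b x x
  generalize c a b x x = t at this
  revert t; decide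

theorem Alt4.z02 {c : F → F → F → F → SignType} (h : Alt4 c) (x a b : F) : c x a x b = 0 := by
  rw [h.s12 x x a b, h.z01]; rfl

theorem Alt4.z13 {c : F → F → F → F → SignType} (h : Alt4 c) (x a b : F) : c a x b x = 0 := by
  rw [h.s23 a x x b, h.z12]; rfl

theorem Alt4.z03 {c : F → F → F → F → SignType} (h : Alt4 c) (x a b : F) : c x a b x = 0 := by
  rw [h.s23 x a x b, h.z02]; rfl

/-- The three-term relation. -/
theorem three_term (O : OM F 4) (u v a b d e : F) (h1 : c4 O u v a b ≠ 0)
    (h2 : c4 O u v d e ≠ 0) :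
    c4 O u v d b * c4 O u v a e = c4 O u v a b * c4 O u v d e ∨
    c4 O u v e b * c4 O u v d a = c4 O u v a b * c4 O u v d e := by
  obtain ⟨i, hi⟩ := O.exchange ![u, v, a, b] ![u, v, d, e] 2 h1 h2
  have hne : c4 O u v a b * c4 O u v d e ≠ 0 := mul_ne_zero h1 h2
  rw [← eta4 (Function.update ![u, v, a, b] 2 (![u, v, d, e] i)),
    ← eta4 (Function.update ![u, v, d, e] i (![u, v, a, b] 2))] at hi
  have hA := alt_c4 O
  fin_cases i
  · exfalso
    apply hne
    have hi' : c4 O u v u b * c4 O a v d e = c4 O u v a b * c4 O u v d e := hi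
    rw [← hi', hA.z02, zero_mul]
  · exfalso
    apply hne
    have hi' : c4 O u v v b * c4 O u a d e = c4 O u v a b * c4 O u v d e := hi
    rw [← hi', hA.z12, zero_mul]
  · left; exact hi
  · right; exact hi

/-- Two triples are permutations of each other. -/
def SameT (x y a x' y' a' : F) : Prop :=
  (x' = x ∧ y' = y ∧ a' = a) ∨ (x' = x ∧ y' = a ∧ a' = y) ∨ (x' = y ∧ y' = x ∧ a' = a) ∨
  (x' = y ∧ y' = a ∧ a' = x) ∨ (x' = a ∧ y' = x ∧ a' = y) ∨ (x' = a ∧ y' = y ∧ a' = x)

/-- On the line `x ∩ y`, the vertex on `a` is before the vertex on `b`, in the direction in which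
`f` increases. -/
def Before (O : OM F 4) (g f x y a b : F) : Prop :=
  c4 O x y a b * c4 O x y g f = c4 O x y a g * c4 O x y b g

/-- Directed paths in the graph of the program. -/
def PathP (O : OM F 4) (g f : F) : F × F × F → List (F × F × F × F) → F × F × F → Prop
  | s, [], t => SameT s.1 s.2.1 s.2.2 t.1 t.2.1 t.2.2
  | s, (x, y, a, b) :: l, t => SameT s.1 s.2.1 s.2.2 x y a ∧ [x, y, a, b, g, f].Nodup ∧
      Before O g f x y a b ∧ PathP O g f (x, y, b) l t

section

variable (O : OM F 4) (P : OM (Option F) 4)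

/-- The value of the new element. -/
def tau (x y z : F) : SignType := c4 P (some x) (some y) (some z) none

variable {O P}

theorem ext_c4 (hext : P.Extends O) (x y a b : F) :
    c4 P (some x) (some y) (some a) (some b) = c4 O x y a b := by
  have := hext ![x, y, a, b]
  rw [← eta4 (fun i => some (![x, y, a, b] i))] at this
  exact this

theorem c4_ne (hU : O.Uniform) {x y a b : F} (hn : [x, y, a, b].Nodup) : c4 O x y a b ≠ 0 :=
  hU _ (inj_of_nodup (by simpa [List.ofFn_succ] using hn))

theorem tau_s01 (x y z : F) : tau P y x z = -tau P x y z := (alt_c4 P).s01 _ _ _ _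
theorem tau_s12 (x y z : F) : tau P x z y = -tau P x y z := (alt_c4 P).s12 _ _ _ _

theorem tau_fg (f g : F)
    (hpar : ∀ Z : Option F → SignType, P.IsCocircuit Z → Z (some f) = 0 → Z (some g) = 0 →
      Z none = 0) (u : F) : tau P f g u = 0 := by
  by_contra hne
  apply hne
  have hA := alt_c4 P
  have := hpar (fun o => c4 P (some f) (some g) (some u) o) ?_ (hA.z03 _ _ _) (hA.z13 _ _ _)
  · exact this
  · refine ⟨⟨none, hne⟩, ![some f, some g, some u, none], 3, 1, ?_⟩
    intro o
    rw [one_mul, ← eta4 (Function.update ![some f, some g, some u, none] 3 o)]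
    rfl

theorem exists_tau (hloop : ¬ P.IsLoop none) : ∃ u v w : F, tau P u v w ≠ 0 := by
  unfold OM.IsLoop at hloop
  push Not at hloop
  obtain ⟨x, ⟨i, hi⟩, hx⟩ := hloop
  have hA := alt_c4 P
  rw [← chi4_c4] at hx
  obtain ⟨y, hy, hy3⟩ : ∃ y : Fin 4 → Option F, chi4 (c4 P) y ≠ 0 ∧ y 3 = none := by
    by_cases h3 : i = 3
    · exact ⟨x, hx, h3 ▸ hi⟩
    · refine ⟨x ∘ Equiv.swap i 3, ?_, by simp [hi]⟩
      rw [hA.swap x i 3 h3]
      revert hx
      generalize chi4 (c4 P) x = t
      revert t; decide
  have hinj : Function.Injective y := by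
    by_contra hcon; exact hy (hA.rep y hcon)
  have hs : ∀ j, j ≠ 3 → ∃ u, y j = some u := by
    intro j hj
    cases hyj : y j with
    | none => exact absurd (hinj (hyj.trans hy3.symm)) hj
    | some u => exact ⟨u, rfl⟩
  obtain ⟨u, hu⟩ := hs 0 (by decide)
  obtain ⟨v, hv⟩ := hs 1 (by decide)
  obtain ⟨w, hw⟩ := hs 2 (by decide)
  refine ⟨u, v, w, ?_⟩
  unfold chi4 at hy
  rw [hu, hv, hw, hy3] at hy
  exact hy

theorem tau_start {g x0 y0 a0 : F} (hext : P.Extends O) (hU : O.Uniform)
    (hn : [x0, y0, a0, g].Nodup)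
    (hW : P.IsCocircuit (fun o => o.elim 0 (fun e => c4 O x0 y0 a0 e))) :
    tau P x0 y0 a0 = 0 := by
  by_contra hne
  obtain ⟨-, z, k, s, hs⟩ := hW
  have hA := alt_c4 O
  have hg : c4 O x0 y0 a0 g ≠ 0 := c4_ne hU hn
  have h1 := hs (some g)
  have h2 : P.chi (Function.update z k (some g)) ≠ 0 := by
    intro h0
    rw [h0, mul_zero] at h1
    exact hg h1
  have h3 : s ≠ 0 := by
    rintro rfl
    rw [zero_mul] at h1
    exact hg h1
  obtain ⟨i, hi⟩ := P.exchange _ ![some x0, some y0, some a0, none] k h2 hne
  have h4 : P.chi (Function.update z k (![some x0, some y0, some a0, none] i)) ≠ 0 := by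
    intro h0
    rw [Function.update_idem, h0, zero_mul] at hi
    exact mul_ne_zero h2 hne hi.symm
  have h5 : (![some x0, some y0, some a0, none] i).elim 0 (fun e => c4 O x0 y0 a0 e) = _ :=
    hs (![some x0, some y0, some a0, none] i)
  have h6 : (![some x0, some y0, some a0, none] i).elim 0 (fun e => c4 O x0 y0 a0 e) = 0 := by
    fin_cases i
    · exact hA.z03 _ _ _
    · exact hA.z13 _ _ _
    · exact hA.z23 _ _ _
    · rfl
  rw [h6] at h5
  exact mul_ne_zero h3 h4 h5.symm

theorem lam_step {f g : F} (hext : P.Extends O) (hU : O.Uniform)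
    (hfg : ∀ u, tau P f g u = 0) {x y z : F} (hn : [g, x, y, f].Nodup) (hn' : [g, x, z, f].Nodup) :
    c4 O g x y f * tau P g x z = c4 O g x z f * tau P g x y := by
  have h0 : c4 P (some g) (some x) none (some f) = 0 := by
    rw [(alt_c4 P).s23 (some g) (some x) (some f) none]
    have : tau P g x f = 0 := by
      rw [tau_s12 g f x, tau_s01 f g x, hfg]; rfl
    unfold tau at this
    rw [this]; rfl
  have key : ∀ y z, [g, x, y, f].Nodup → [g, x, z, f].Nodup → tau P g x z ≠ 0 →
      c4 O g x z f * tau P g x y = c4 O g x y f * tau P g x z := by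
    intro y z hy hz hne
    have h1 : c4 P (some g) (some x) (some y) (some f) ≠ 0 := by
      rw [ext_c4 hext]; exact c4_ne hU hy
    rcases three_term P (some g) (some x) (some y) (some f) (some z) none h1 hne with h | h
    · rw [ext_c4 hext, ext_c4 hext] at h
      exact h
    · exfalso
      rw [h0, zero_mul] at h
      exact mul_ne_zero h1 hne h.symm
  by_cases hz : tau P g x z = 0
  · by_cases hy : tau P g x y = 0
    · rw [hz, hy]; simp
    · exact key z y hn' hn hy
  · exact (key y z hn hn' hz).symm

theorem lam_const {f g x0 y0 a0 : F} (hext : P.Extends O) (hU : O.Uniform)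
    (hfg : ∀ u, tau P f g u = 0) (hloop : ¬ P.IsLoop none) (hgf : g ≠ f)
    (hn0 : [x0, y0, a0, g].Nodup) (ht0 : tau P x0 y0 a0 = 0) :
    ∃ l : SignType, l ≠ 0 ∧ ∀ x y, [g, x, y, f].Nodup → tau P g x y = l * c4 O g x y f := by
  have hA := alt_c4 P
  have hAO := alt_c4 O
  have hstep : ∀ x y z, [g, x, y, f].Nodup → [g, x, z, f].Nodup →
      tau P g x y * c4 O g x y f = tau P g x z * c4 O g x z f := by
    intro x y z h1 h2
    have h3 := lam_step hext hU hfg h1 h2
    have h4 := c4_ne hU h1
    have h5 := c4_ne hU h2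
    generalize c4 O g x y f = a at *
    generalize c4 O g x z f = b at *
    generalize tau P g x y = s at *
    generalize tau P g x z = t at *
    clear h1 h2
    revert h3 h4 h5
    revert a b s t
    decide
  have hsym : ∀ x y, tau P g x y * c4 O g x y f = tau P g y x * c4 O g y x f := by
    intro x y
    rw [tau_s12 g x y, hAO.s12 g x y f]
    simp
  by_cases hex : ∃ x y, [g, x, y, f].Nodup ∧ tau P g x y ≠ 0
  · obtain ⟨x, y, hxy, hne⟩ := hex
    refine ⟨tau P g x y * c4 O g x y f, mul_ne_zero hne (c4_ne hU hxy), ?_⟩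
    intro x' y' hxy'
    have hall : tau P g x y * c4 O g x y f = tau P g x' y' * c4 O g x' y' f := by
      simp only [List.nodup_cons, List.mem_cons, List.not_mem_nil, or_false, not_or,
        List.nodup_nil, and_true, not_false_eq_true] at hxy hxy'
      by_cases h : y' = x
      · have hx' : x' ≠ x := by rintro rfl; exact hxy'.2.1.1 h.symm
        rw [hstep x y x' (by simp; tauto) (by simp; tauto), hsym, ← h]
      · rw [hstep x y y' (by simp; tauto) (by simp; tauto), hsym,
          hstep y' x x' (by simp; tauto) (by simp; tauto), hsym]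
    rw [hall]
    have h5 := c4_ne hU hxy'
    generalize c4 O g x' y' f = a at *
    generalize tau P g x' y' = s at *
    clear hall hxy'
    revert h5
    revert a s
    decide
  · exfalso
    push Not at hex
    have hz : ∀ u v, tau P g u v = 0 := by
      intro u v
      by_cases hgu : g = u
      · subst hgu; exact hA.z01 _ _ _
      by_cases hgv : g = v
      · subst hgv; exact hA.z02 _ _ _
      by_cases huv : u = v
      · subst huv; exact hA.z12 _ _ _
      by_cases hfu : u = f
      · subst hfu; rw [tau_s01, hfg]; rfl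
      by_cases hfv : v = f
      · subst hfv; rw [tau_s12, tau_s01, hfg]; rfl
      apply hex
      simp
      tauto
    obtain ⟨u, v, w, huvw⟩ := exists_tau hloop
    have hn : c4 P (some x0) (some y0) (some a0) (some g) ≠ 0 := by
      rw [ext_c4 hext]; exact c4_ne hU hn0
    obtain ⟨i, hi⟩ := P.exchange ![some u, some v, some w, none]
      ![some x0, some y0, some a0, some g] 3 huvw hn
    have hi0 : P.chi (Function.update ![some x0, some y0, some a0, some g] i none) = 0 := by
      rw [← eta4 (Function.update ![some x0, some y0, some a0, some g] i none)]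
      fin_cases i
      · show c4 P none (some y0) (some a0) (some g) = 0
        rw [hA.s01 (some y0) none, hA.s12 (some y0) (some a0) none, hA.s23 (some y0) (some a0)
          (some g) none]
        have : tau P y0 a0 g = 0 := by
          rw [tau_s12 y0 g a0, tau_s01 g y0 a0, hz]; rfl
        unfold tau at this
        rw [this]; rfl
      · show c4 P (some x0) none (some a0) (some g) = 0
        rw [hA.s12 (some x0) (some a0) none, hA.s23 (some x0) (some a0)
          (some g) none]
        have : tau P x0 a0 g = 0 := by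
          rw [tau_s12 x0 g a0, tau_s01 g x0 a0, hz]; rfl
        unfold tau at this
        rw [this]; rfl
      · show c4 P (some x0) (some y0) none (some g) = 0
        rw [hA.s23 (some x0) (some y0) (some g) none]
        have : tau P x0 y0 g = 0 := by
          rw [tau_s12 x0 g y0, tau_s01 g x0 y0, hz]; rfl
        unfold tau at this
        rw [this]; rfl
      · exact ht0
    have hi' : P.chi (Function.update ![some u, some v, some w, none] 3
        (![some x0, some y0, some a0, some g] i)) *
        P.chi (Function.update ![some x0, some y0, some a0, some g] i none) =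
        P.chi ![some u, some v, some w, none] * P.chi ![some x0, some y0, some a0, some g] := hi
    rw [hi0, mul_zero] at hi'
    exact mul_ne_zero huvw hn hi'.symm

/-- Monotonicity along a line. -/
theorem mono_step {f g l : _} (hext : P.Extends O) (hU : O.Uniform) (hl : l ≠ 0)
    (hlam : ∀ x y, [g, x, y, f].Nodup → tau P g x y = l * c4 O g x y f)
    {x y a b : F} (hn : [x, y, a, b, g, f].Nodup) (hb : Before O g f x y a b) :
    l * tau P x y a * c4 O x y a g = -1 ∨ l * tau P x y b * c4 O x y b g = 1 := by
  have hA := alt_c4 P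
  have hAO := alt_c4 O
  simp only [List.nodup_cons, List.mem_cons, List.not_mem_nil, or_false, not_or,
        List.nodup_nil, and_true, not_false_eq_true] at hn
  have n1 : [g, x, y, f].Nodup := by simp; tauto
  have hab : c4 O x y a b ≠ 0 := c4_ne hU (by simp; tauto)
  have hgf' : c4 O x y g f ≠ 0 := c4_ne hU (by simp; tauto)
  have hag : c4 O x y a g ≠ 0 := c4_ne hU (by simp; tauto)
  have hbg : c4 O x y b g ≠ 0 := c4_ne hU (by simp; tauto)
  have hgp : tau P x y g = l * c4 O x y g f := by
    rw [tau_s12 x g y, tau_s01 g x y, hlam x y n1, hAO.s12 x g y f, hAO.s01 g x y f]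
    simp
  have hgp' : tau P x y g ≠ 0 := by rw [hgp]; exact mul_ne_zero hl hgf'
  have h1 : c4 P (some x) (some y) (some a) (some b) ≠ 0 := by rw [ext_c4 hext]; exact hab
  have key := three_term P (some x) (some y) (some a) (some b) (some g) none h1 hgp'
  have e1 : c4 P (some x) (some y) (some g) (some b) = -c4 O x y b g := by
    rw [ext_c4 hext, hAO.s23]
  have e2 : c4 P (some x) (some y) (some g) (some a) = -c4 O x y a g := by
    rw [ext_c4 hext, hAO.s23]
  have e3 : c4 P (some x) (some y) none (some b) = -tau P x y b := by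
    rw [hA.s23 (some x) (some y) (some b) none]; rfl
  have e4 : c4 P (some x) (some y) (some g) none = l * c4 O x y g f := hgp
  have e5 : c4 P (some x) (some y) (some a) none = tau P x y a := rfl
  rw [e1, e2, e3, e4, e5, ext_c4 hext] at key
  unfold Before at hb
  clear h1 e1 e2 e3 e4 e5 hgp hgp' n1 hn hlam
  generalize c4 O x y a b = ab at *
  generalize c4 O x y g f = gf at *
  generalize c4 O x y a g = ag at *
  generalize c4 O x y b g = bg at *
  generalize tau P x y a = ta at *
  generalize tau P x y b = tb at *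
  clear hext hU hA hAO
  cases l with
  | zero => exact absurd rfl hl
  | neg =>
    cases ab with
    | zero => exact absurd rfl hab
    | neg => revert hb key hgf' hag hbg; revert gf ag bg ta tb; decide
    | pos => revert hb key hgf' hag hbg; revert gf ag bg ta tb; decide
  | pos =>
    cases ab with
    | zero => exact absurd rfl hab
    | neg => revert hb key hgf' hag hbg; revert gf ag bg ta tb; decide
    | pos => revert hb key hgf' hag hbg; revert gf ag bg ta tb; decide

theorem sigma_same (l : SignType) (g : F) {x y a x' y' a' : F} (h : SameT x y a x' y' a') :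
    l * tau P x' y' a' * c4 O x' y' a' g = l * tau P x y a * c4 O x y a g := by
  have hAO := alt_c4 O
  rcases h with ⟨rfl, rfl, rfl⟩ | ⟨rfl, rfl, rfl⟩ | ⟨rfl, rfl, rfl⟩ | ⟨rfl, rfl, rfl⟩ |
    ⟨rfl, rfl, rfl⟩ | ⟨rfl, rfl, rfl⟩
  · rfl
  · rw [tau_s12, hAO.s12]; simp
  · rw [tau_s01, hAO.s01]; simp
  · rw [tau_s01 x' a' y', hAO.s01 x' a' y', tau_s12 x' y' a', hAO.s12 x' y' a']; simp
  · rw [tau_s12 y' x' a', hAO.s12 y' x' a', tau_s01 x' y' a', hAO.s01 x' y' a']; simp
  · rw [tau_s01 y' a' x', hAO.s01 y' a' x', tau_s12 y' x' a', hAO.s12 y' x' a',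
      tau_s01 x' y' a', hAO.s01 x' y' a']; simp

theorem path_pos {f g l : _} (hext : P.Extends O) (hU : O.Uniform) (hl : l ≠ 0)
    (hlam : ∀ x y, [g, x, y, f].Nodup → tau P g x y = l * c4 O g x y f) :
    ∀ (L : List (F × F × F × F)) (s t : F × F × F), PathP O g f s L t →
      l * tau P s.1 s.2.1 s.2.2 * c4 O s.1 s.2.1 s.2.2 g ≠ -1 →
      (L ≠ [] ∨ l * tau P s.1 s.2.1 s.2.2 * c4 O s.1 s.2.1 s.2.2 g = 1) →
      l * tau P t.1 t.2.1 t.2.2 * c4 O t.1 t.2.1 t.2.2 g = 1 := by
  intro L
  induction L with
  | nil =>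
    intro s t hp hs h
    rcases h with h | h
    · exact absurd rfl h
    · rw [sigma_same l g hp]; exact h
  | cons st L ih =>
    intro s t hp hs _
    obtain ⟨x, y, a, b⟩ := st
    obtain ⟨h1, h2, h3, h4⟩ := hp
    have e1 := sigma_same (O := O) (P := P) l g h1
    have e2 := mono_step hext hU hl hlam h2 h3
    rw [e1] at e2
    have e3 : l * tau P x y b * c4 O x y b g = 1 := e2.resolve_left hs
    apply ih (x, y, b) t h4
    · simp only [e3]; decide
    · right; exact e3

end

/-- A program with a directed cycle is not Euclidean. -/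
theorem not_euclideanProgram (O : OM F 4) (hU : O.Uniform) (g f : F) (hgf : g ≠ f)
    (x0 y0 a0 : F) (hn0 : [x0, y0, a0, g].Nodup) (L : List (F × F × F × F)) (hL : L ≠ [])
    (hp : PathP O g f (x0, y0, a0) L (x0, y0, a0)) : ¬ O.EuclideanProgram g f := by
  intro hE
  obtain ⟨P, hext, hloop, hW, hpar⟩ := hE (fun e => c4 O x0 y0 a0 e) (by
    refine ⟨⟨g, c4_ne hU hn0⟩, ![x0, y0, a0, x0], 3, 1, ?_⟩
    intro e
    rw [one_mul, ← eta4 (Function.update ![x0, y0, a0, x0] 3 e)]
    rfl) (c4_ne hU hn0)
  have hfg := tau_fg f g hpar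
  have ht0 := tau_start hext hU hn0 hW
  obtain ⟨l, hl, hlam⟩ := lam_const hext hU hfg hloop hgf hn0 ht0
  have := path_pos hext hU hl hlam L (x0, y0, a0) (x0, y0, a0) hp
    (by simp only [ht0]; simp) (Or.inl hL)
  simp only [ht0] at this
  simp at this

end Pool.Agent.MandelOM
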