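import Pool.Agent.MandelOM.Defs

/-!
Uniform chirotopes of rank four as functions of four variables.
-/

namespace Pool.Agent.MandelOM

/-- the sign bit -/
def ng (s : SignType) : Bool := decide (s = -1)

theorem ng_neg {s : SignType} (h : s ≠ 0) : ng (-s) = !ng s := by
  cases s <;> first | exact absurd rfl h | rfl

theorem ng_mul {a b : SignType} (ha : a ≠ 0) (hb : b ≠ 0) : ng (a * b) = (ng a ^^ ng b) := by
  cases a <;> cases b <;> first | exact absurd rfl ha | exact absurd rfl hb | rfl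

theorem eq_of_ng {a b : SignType} (ha : a ≠ 0) (hb : b ≠ 0) (h : ng a = ng b) : a = b := by
  cases a <;> cases b <;>
    first | exact absurd rfl ha | exact absurd rfl hb | rfl | exact absurd h (by decide)

/-- not all equal -/
def nae (a b c : Bool) : Bool := !(a == b && b == c)
/-- not all equal -/
def nae4 (a b c d : Bool) : Bool := !(a == b && b == c && c == d)
/-- not all equal -/
def nae5 (a b c d e : Bool) : Bool := !(a == b && b == c && c == d && d == e)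

/-- Alternating functions of four variables. -/
structure Alt4 {F : Type*} (c : F → F → F → F → SignType) : Prop where
  s01 : ∀ x y a b, c y x a b = -c x y a b
  s12 : ∀ x y a b, c x a y b = -c x y a b
  s23 : ∀ x y a b, c x y b a = -c x y a b

/-- Uniform chirotopes of rank four. -/
structure U4 {F : Type*} (c : F → F → F → F → SignType) : Prop extends Alt4 c where
  nz : ∀ x y a b, [x, y, a, b].Nodup → c x y a b ≠ 0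
  gp : ∀ x y a b d e, [x, y, a, b, d, e].Nodup →
    nae (ng (c x y a b) ^^ ng (c x y d e)) (!(ng (c x y a d) ^^ ng (c x y b e)))
      (ng (c x y a e) ^^ ng (c x y b d)) = true

theorem U4.comap {F G : Type*} {c : F → F → F → F → SignType} (h : U4 c) (v : G → F)
    (hv : Function.Injective v) : U4 (fun x y a b => c (v x) (v y) (v a) (v b)) where
  s01 := fun x y a b => h.s01 _ _ _ _
  s12 := fun x y a b => h.s12 _ _ _ _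
  s23 := fun x y a b => h.s23 _ _ _ _
  nz := fun x y a b hn => h.nz _ _ _ _ (by simpa using hn.map hv)
  gp := fun x y a b d e hn => h.gp _ _ _ _ _ _ (by simpa using hn.map hv)

theorem P4 {c : Fin 7 → Fin 7 → Fin 7 → Fin 7 → SignType} (h : U4 c) :
    nae4 (ng (c 0 1 2 3) ^^ ng (c 0 4 5 6)) (ng (c 0 1 2 4) ^^ !ng (c 0 3 5 6)) (ng (c 0 1 2 5) ^^ ng (c 0 3 4 6)) (ng (c 0 1 2 6) ^^ !ng (c 0 3 4 5)) = true := by
  have n_0136 : c 0 1 3 6 ≠ 0 := h.nz _ _ _ _ (by decide)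
  have e_0613 : ng (c 0 6 1 3) = (ng (c 0 1 3 6)) := by rw [h.s12 0 1 6 3, h.s23 0 1 3 6, neg_neg]
  have n_0456 : c 0 4 5 6 ≠ 0 := h.nz _ _ _ _ (by decide)
  have e_0645 : ng (c 0 6 4 5) = (ng (c 0 4 5 6)) := by rw [h.s12 0 4 6 5, h.s23 0 4 5 6, neg_neg]
  have n_0146 : c 0 1 4 6 ≠ 0 := h.nz _ _ _ _ (by decide)
  have e_0614 : ng (c 0 6 1 4) = (ng (c 0 1 4 6)) := by rw [h.s12 0 1 6 4, h.s23 0 1 4 6, neg_neg]
  have n_0356 : c 0 3 5 6 ≠ 0 := h.nz _ _ _ _ (by decide)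
  have e_0635 : ng (c 0 6 3 5) = (ng (c 0 3 5 6)) := by rw [h.s12 0 3 6 5, h.s23 0 3 5 6, neg_neg]
  have n_0156 : c 0 1 5 6 ≠ 0 := h.nz _ _ _ _ (by decide)
  have e_0615 : ng (c 0 6 1 5) = (ng (c 0 1 5 6)) := by rw [h.s12 0 1 6 5, h.s23 0 1 5 6, neg_neg]
  have n_0346 : c 0 3 4 6 ≠ 0 := h.nz _ _ _ _ (by decide)
  have e_0634 : ng (c 0 6 3 4) = (ng (c 0 3 4 6)) := by rw [h.s12 0 3 6 4, h.s23 0 3 4 6, neg_neg]
  have t0 := h.gp 0 6 1 3 4 5 (by decide)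
  rw [e_0613, e_0645, e_0614, e_0635, e_0615, e_0634] at t0
  have n_0135 : c 0 1 3 5 ≠ 0 := h.nz _ _ _ _ (by decide)
  have e_0513 : ng (c 0 5 1 3) = (ng (c 0 1 3 5)) := by rw [h.s12 0 1 5 3, h.s23 0 1 3 5, neg_neg]
  have e_0546 : ng (c 0 5 4 6) = (!ng (c 0 4 5 6)) := by rw [h.s12 0 4 5 6, ng_neg n_0456]
  have n_0145 : c 0 1 4 5 ≠ 0 := h.nz _ _ _ _ (by decide)
  have e_0514 : ng (c 0 5 1 4) = (ng (c 0 1 4 5)) := by rw [h.s12 0 1 5 4, h.s23 0 1 4 5, neg_neg]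
  have e_0536 : ng (c 0 5 3 6) = (!ng (c 0 3 5 6)) := by rw [h.s12 0 3 5 6, ng_neg n_0356]
  have e_0516 : ng (c 0 5 1 6) = (!ng (c 0 1 5 6)) := by rw [h.s12 0 1 5 6, ng_neg n_0156]
  have n_0345 : c 0 3 4 5 ≠ 0 := h.nz _ _ _ _ (by decide)
  have e_0534 : ng (c 0 5 3 4) = (ng (c 0 3 4 5)) := by rw [h.s12 0 3 5 4, h.s23 0 3 4 5, neg_neg]
  have t1 := h.gp 0 5 1 3 4 6 (by decide)
  rw [e_0513, e_0546, e_0514, e_0536, e_0516, e_0534] at t1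
  have n_0134 : c 0 1 3 4 ≠ 0 := h.nz _ _ _ _ (by decide)
  have e_0413 : ng (c 0 4 1 3) = (ng (c 0 1 3 4)) := by rw [h.s12 0 1 4 3, h.s23 0 1 3 4, neg_neg]
  have e_0415 : ng (c 0 4 1 5) = (!ng (c 0 1 4 5)) := by rw [h.s12 0 1 4 5, ng_neg n_0145]
  have e_0436 : ng (c 0 4 3 6) = (!ng (c 0 3 4 6)) := by rw [h.s12 0 3 4 6, ng_neg n_0346]
  have e_0416 : ng (c 0 4 1 6) = (!ng (c 0 1 4 6)) := by rw [h.s12 0 1 4 6, ng_neg n_0146]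
  have e_0435 : ng (c 0 4 3 5) = (!ng (c 0 3 4 5)) := by rw [h.s12 0 3 4 5, ng_neg n_0345]
  have t2 := h.gp 0 4 1 3 5 6 (by decide)
  rw [e_0413, e_0415, e_0436, e_0416, e_0435] at t2
  have e_0314 : ng (c 0 3 1 4) = (!ng (c 0 1 3 4)) := by rw [h.s12 0 1 3 4, ng_neg n_0134]
  have e_0315 : ng (c 0 3 1 5) = (!ng (c 0 1 3 5)) := by rw [h.s12 0 1 3 5, ng_neg n_0135]
  have e_0316 : ng (c 0 3 1 6) = (!ng (c 0 1 3 6)) := by rw [h.s12 0 1 3 6, ng_neg n_0136]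
  have t3 := h.gp 0 3 1 4 5 6 (by decide)
  rw [e_0314, e_0315, e_0316] at t3
  have n_0124 : c 0 1 2 4 ≠ 0 := h.nz _ _ _ _ (by decide)
  have n_0125 : c 0 1 2 5 ≠ 0 := h.nz _ _ _ _ (by decide)
  have n_0126 : c 0 1 2 6 ≠ 0 := h.nz _ _ _ _ (by decide)
  have q0 := h.gp 0 1 2 4 5 6 (by decide)
  have n_0123 : c 0 1 2 3 ≠ 0 := h.nz _ _ _ _ (by decide)
  have q1 := h.gp 0 1 2 3 5 6 (by decide)
  have q2 := h.gp 0 1 2 3 4 6 (by decide)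
  have q3 := h.gp 0 1 2 3 4 5 (by decide)
  clear n_0123 n_0124 n_0125 n_0126 n_0134 n_0135 n_0136 n_0145 n_0146 n_0156 n_0345 n_0346 n_0356 n_0456 e_0613 e_0645 e_0614 e_0635 e_0615 e_0634 e_0513 e_0546 e_0514 e_0536 e_0516 e_0534 e_0413 e_0415 e_0436 e_0416 e_0435 e_0314 e_0315 e_0316
  generalize ng (c 0 1 2 3) = v_0123 at *
  generalize ng (c 0 1 2 4) = v_0124 at *
  generalize ng (c 0 1 2 5) = v_0125 at *
  generalize ng (c 0 1 2 6) = v_0126 at *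
  generalize ng (c 0 1 3 4) = v_0134 at *
  generalize ng (c 0 1 3 5) = v_0135 at *
  generalize ng (c 0 1 3 6) = v_0136 at *
  generalize ng (c 0 1 4 5) = v_0145 at *
  generalize ng (c 0 1 4 6) = v_0146 at *
  generalize ng (c 0 1 5 6) = v_0156 at *
  generalize ng (c 0 3 4 5) = v_0345 at *
  generalize ng (c 0 3 4 6) = v_0346 at *
  generalize ng (c 0 3 5 6) = v_0356 at *
  generalize ng (c 0 4 5 6) = v_0456 at *
  clear h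
  revert t0 t1 t2 t3 q0 q1 q2 q3
  revert v_0456 v_0356 v_0346 v_0345 v_0156 v_0146 v_0145 v_0136 v_0135 v_0134 v_0126 v_0125 v_0124 v_0123
  decide +kernel

set_option synthInstance.maxHeartbeats 1000000 in
set_option synthInstance.maxSize 4096 in
theorem P5 {c : Fin 8 → Fin 8 → Fin 8 → Fin 8 → SignType} (h : U4 c) :
    nae5 (ng (c 0 1 2 3) ^^ ng (c 4 5 6 7)) (ng (c 0 1 2 4) ^^ !ng (c 3 5 6 7)) (ng (c 0 1 2 5) ^^ ng (c 3 4 6 7)) (ng (c 0 1 2 6) ^^ !ng (c 3 4 5 7)) (ng (c 0 1 2 7) ^^ ng (c 3 4 5 6)) = true := by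
  have n_0367 : c 0 3 6 7 ≠ 0 := h.nz _ _ _ _ (by decide)
  have e_6703 : ng (c 6 7 0 3) = (ng (c 0 3 6 7)) := by rw [h.s12 6 0 7 3, h.s23 6 0 3 7, h.s01 0 6 3 7, h.s12 0 3 6 7, neg_neg, neg_neg]
  have n_4567 : c 4 5 6 7 ≠ 0 := h.nz _ _ _ _ (by decide)
  have e_6745 : ng (c 6 7 4 5) = (ng (c 4 5 6 7)) := by rw [h.s12 6 4 7 5, h.s23 6 4 5 7, h.s01 4 6 5 7, h.s12 4 5 6 7, neg_neg, neg_neg]
  have n_0467 : c 0 4 6 7 ≠ 0 := h.nz _ _ _ _ (by decide)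
  have e_6704 : ng (c 6 7 0 4) = (ng (c 0 4 6 7)) := by rw [h.s12 6 0 7 4, h.s23 6 0 4 7, h.s01 0 6 4 7, h.s12 0 4 6 7, neg_neg, neg_neg]
  have n_3567 : c 3 5 6 7 ≠ 0 := h.nz _ _ _ _ (by decide)
  have e_6735 : ng (c 6 7 3 5) = (ng (c 3 5 6 7)) := by rw [h.s12 6 3 7 5, h.s23 6 3 5 7, h.s01 3 6 5 7, h.s12 3 5 6 7, neg_neg, neg_neg]
  have n_0567 : c 0 5 6 7 ≠ 0 := h.nz _ _ _ _ (by decide)
  have e_6705 : ng (c 6 7 0 5) = (ng (c 0 5 6 7)) := by rw [h.s12 6 0 7 5, h.s23 6 0 5 7, h.s01 0 6 5 7, h.s12 0 5 6 7, neg_neg, neg_neg]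
  have n_3467 : c 3 4 6 7 ≠ 0 := h.nz _ _ _ _ (by decide)
  have e_6734 : ng (c 6 7 3 4) = (ng (c 3 4 6 7)) := by rw [h.s12 6 3 7 4, h.s23 6 3 4 7, h.s01 3 6 4 7, h.s12 3 4 6 7, neg_neg, neg_neg]
  have t012 := h.gp 6 7 0 3 4 5 (by decide)
  rw [e_6703, e_6745, e_6704, e_6735, e_6705, e_6734] at t012
  have n_0357 : c 0 3 5 7 ≠ 0 := h.nz _ _ _ _ (by decide)
  have e_5703 : ng (c 5 7 0 3) = (ng (c 0 3 5 7)) := by rw [h.s12 5 0 7 3, h.s23 5 0 3 7, h.s01 0 5 3 7, h.s12 0 3 5 7, neg_neg, neg_neg]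
  have e_5746 : ng (c 5 7 4 6) = (!ng (c 4 5 6 7)) := by rw [h.s12 5 4 7 6, h.s23 5 4 6 7, h.s01 4 5 6 7, neg_neg, ng_neg n_4567]
  have n_0457 : c 0 4 5 7 ≠ 0 := h.nz _ _ _ _ (by decide)
  have e_5704 : ng (c 5 7 0 4) = (ng (c 0 4 5 7)) := by rw [h.s12 5 0 7 4, h.s23 5 0 4 7, h.s01 0 5 4 7, h.s12 0 4 5 7, neg_neg, neg_neg]
  have e_5736 : ng (c 5 7 3 6) = (!ng (c 3 5 6 7)) := by rw [h.s12 5 3 7 6, h.s23 5 3 6 7, h.s01 3 5 6 7, neg_neg, ng_neg n_3567]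
  have e_5706 : ng (c 5 7 0 6) = (!ng (c 0 5 6 7)) := by rw [h.s12 5 0 7 6, h.s23 5 0 6 7, h.s01 0 5 6 7, neg_neg, ng_neg n_0567]
  have n_3457 : c 3 4 5 7 ≠ 0 := h.nz _ _ _ _ (by decide)
  have e_5734 : ng (c 5 7 3 4) = (ng (c 3 4 5 7)) := by rw [h.s12 5 3 7 4, h.s23 5 3 4 7, h.s01 3 5 4 7, h.s12 3 4 5 7, neg_neg, neg_neg]
  have t013 := h.gp 5 7 0 3 4 6 (by decide)
  rw [e_5703, e_5746, e_5704, e_5736, e_5706, e_5734] at t013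
  have n_0356 : c 0 3 5 6 ≠ 0 := h.nz _ _ _ _ (by decide)
  have e_5603 : ng (c 5 6 0 3) = (ng (c 0 3 5 6)) := by rw [h.s12 5 0 6 3, h.s23 5 0 3 6, h.s01 0 5 3 6, h.s12 0 3 5 6, neg_neg, neg_neg]
  have e_5647 : ng (c 5 6 4 7) = (ng (c 4 5 6 7)) := by rw [h.s12 5 4 6 7, h.s01 4 5 6 7, neg_neg]
  have n_0456 : c 0 4 5 6 ≠ 0 := h.nz _ _ _ _ (by decide)
  have e_5604 : ng (c 5 6 0 4) = (ng (c 0 4 5 6)) := by rw [h.s12 5 0 6 4, h.s23 5 0 4 6, h.s01 0 5 4 6, h.s12 0 4 5 6, neg_neg, neg_neg]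
  have e_5637 : ng (c 5 6 3 7) = (ng (c 3 5 6 7)) := by rw [h.s12 5 3 6 7, h.s01 3 5 6 7, neg_neg]
  have e_5607 : ng (c 5 6 0 7) = (ng (c 0 5 6 7)) := by rw [h.s12 5 0 6 7, h.s01 0 5 6 7, neg_neg]
  have n_3456 : c 3 4 5 6 ≠ 0 := h.nz _ _ _ _ (by decide)
  have e_5634 : ng (c 5 6 3 4) = (ng (c 3 4 5 6)) := by rw [h.s12 5 3 6 4, h.s23 5 3 4 6, h.s01 3 5 4 6, h.s12 3 4 5 6, neg_neg, neg_neg]
  have t014 := h.gp 5 6 0 3 4 7 (by decide)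
  rw [e_5603, e_5647, e_5604, e_5637, e_5607, e_5634] at t014
  have n_0347 : c 0 3 4 7 ≠ 0 := h.nz _ _ _ _ (by decide)
  have e_4703 : ng (c 4 7 0 3) = (ng (c 0 3 4 7)) := by rw [h.s12 4 0 7 3, h.s23 4 0 3 7, h.s01 0 4 3 7, h.s12 0 3 4 7, neg_neg, neg_neg]
  have e_4756 : ng (c 4 7 5 6) = (ng (c 4 5 6 7)) := by rw [h.s12 4 5 7 6, h.s23 4 5 6 7, neg_neg]
  have e_4705 : ng (c 4 7 0 5) = (!ng (c 0 4 5 7)) := by rw [h.s12 4 0 7 5, h.s23 4 0 5 7, h.s01 0 4 5 7, neg_neg, ng_neg n_0457]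
  have e_4736 : ng (c 4 7 3 6) = (!ng (c 3 4 6 7)) := by rw [h.s12 4 3 7 6, h.s23 4 3 6 7, h.s01 3 4 6 7, neg_neg, ng_neg n_3467]
  have e_4706 : ng (c 4 7 0 6) = (!ng (c 0 4 6 7)) := by rw [h.s12 4 0 7 6, h.s23 4 0 6 7, h.s01 0 4 6 7, neg_neg, ng_neg n_0467]
  have e_4735 : ng (c 4 7 3 5) = (!ng (c 3 4 5 7)) := by rw [h.s12 4 3 7 5, h.s23 4 3 5 7, h.s01 3 4 5 7, neg_neg, ng_neg n_3457]
  have t023 := h.gp 4 7 0 3 5 6 (by decide)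
  rw [e_4703, e_4756, e_4705, e_4736, e_4706, e_4735] at t023
  have n_0346 : c 0 3 4 6 ≠ 0 := h.nz _ _ _ _ (by decide)
  have e_4603 : ng (c 4 6 0 3) = (ng (c 0 3 4 6)) := by rw [h.s12 4 0 6 3, h.s23 4 0 3 6, h.s01 0 4 3 6, h.s12 0 3 4 6, neg_neg, neg_neg]
  have e_4657 : ng (c 4 6 5 7) = (!ng (c 4 5 6 7)) := by rw [h.s12 4 5 6 7, ng_neg n_4567]
  have e_4605 : ng (c 4 6 0 5) = (!ng (c 0 4 5 6)) := by rw [h.s12 4 0 6 5, h.s23 4 0 5 6, h.s01 0 4 5 6, neg_neg, ng_neg n_0456]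
  have e_4637 : ng (c 4 6 3 7) = (ng (c 3 4 6 7)) := by rw [h.s12 4 3 6 7, h.s01 3 4 6 7, neg_neg]
  have e_4607 : ng (c 4 6 0 7) = (ng (c 0 4 6 7)) := by rw [h.s12 4 0 6 7, h.s01 0 4 6 7, neg_neg]
  have e_4635 : ng (c 4 6 3 5) = (!ng (c 3 4 5 6)) := by rw [h.s12 4 3 6 5, h.s23 4 3 5 6, h.s01 3 4 5 6, neg_neg, ng_neg n_3456]
  have t024 := h.gp 4 6 0 3 5 7 (by decide)
  rw [e_4603, e_4657, e_4605, e_4637, e_4607, e_4635] at t024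
  have n_0345 : c 0 3 4 5 ≠ 0 := h.nz _ _ _ _ (by decide)
  have e_4503 : ng (c 4 5 0 3) = (ng (c 0 3 4 5)) := by rw [h.s12 4 0 5 3, h.s23 4 0 3 5, h.s01 0 4 3 5, h.s12 0 3 4 5, neg_neg, neg_neg]
  have e_4506 : ng (c 4 5 0 6) = (ng (c 0 4 5 6)) := by rw [h.s12 4 0 5 6, h.s01 0 4 5 6, neg_neg]
  have e_4537 : ng (c 4 5 3 7) = (ng (c 3 4 5 7)) := by rw [h.s12 4 3 5 7, h.s01 3 4 5 7, neg_neg]
  have e_4507 : ng (c 4 5 0 7) = (ng (c 0 4 5 7)) := by rw [h.s12 4 0 5 7, h.s01 0 4 5 7, neg_neg]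
  have e_4536 : ng (c 4 5 3 6) = (ng (c 3 4 5 6)) := by rw [h.s12 4 3 5 6, h.s01 3 4 5 6, neg_neg]
  have t034 := h.gp 4 5 0 3 6 7 (by decide)
  rw [e_4503, e_4506, e_4537, e_4507, e_4536] at t034
  have e_3704 : ng (c 3 7 0 4) = (!ng (c 0 3 4 7)) := by rw [h.s12 3 0 7 4, h.s23 3 0 4 7, h.s01 0 3 4 7, neg_neg, ng_neg n_0347]
  have e_3756 : ng (c 3 7 5 6) = (ng (c 3 5 6 7)) := by rw [h.s12 3 5 7 6, h.s23 3 5 6 7, neg_neg]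
  have e_3705 : ng (c 3 7 0 5) = (!ng (c 0 3 5 7)) := by rw [h.s12 3 0 7 5, h.s23 3 0 5 7, h.s01 0 3 5 7, neg_neg, ng_neg n_0357]
  have e_3746 : ng (c 3 7 4 6) = (ng (c 3 4 6 7)) := by rw [h.s12 3 4 7 6, h.s23 3 4 6 7, neg_neg]
  have e_3706 : ng (c 3 7 0 6) = (!ng (c 0 3 6 7)) := by rw [h.s12 3 0 7 6, h.s23 3 0 6 7, h.s01 0 3 6 7, neg_neg, ng_neg n_0367]
  have e_3745 : ng (c 3 7 4 5) = (ng (c 3 4 5 7)) := by rw [h.s12 3 4 7 5, h.s23 3 4 5 7, neg_neg]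
  have t123 := h.gp 3 7 0 4 5 6 (by decide)
  rw [e_3704, e_3756, e_3705, e_3746, e_3706, e_3745] at t123
  have e_3604 : ng (c 3 6 0 4) = (!ng (c 0 3 4 6)) := by rw [h.s12 3 0 6 4, h.s23 3 0 4 6, h.s01 0 3 4 6, neg_neg, ng_neg n_0346]
  have e_3657 : ng (c 3 6 5 7) = (!ng (c 3 5 6 7)) := by rw [h.s12 3 5 6 7, ng_neg n_3567]
  have e_3605 : ng (c 3 6 0 5) = (!ng (c 0 3 5 6)) := by rw [h.s12 3 0 6 5, h.s23 3 0 5 6, h.s01 0 3 5 6, neg_neg, ng_neg n_0356]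
  have e_3647 : ng (c 3 6 4 7) = (!ng (c 3 4 6 7)) := by rw [h.s12 3 4 6 7, ng_neg n_3467]
  have e_3607 : ng (c 3 6 0 7) = (ng (c 0 3 6 7)) := by rw [h.s12 3 0 6 7, h.s01 0 3 6 7, neg_neg]
  have e_3645 : ng (c 3 6 4 5) = (ng (c 3 4 5 6)) := by rw [h.s12 3 4 6 5, h.s23 3 4 5 6, neg_neg]
  have t124 := h.gp 3 6 0 4 5 7 (by decide)
  rw [e_3604, e_3657, e_3605, e_3647, e_3607, e_3645] at t124
  have e_3504 : ng (c 3 5 0 4) = (!ng (c 0 3 4 5)) := by rw [h.s12 3 0 5 4, h.s23 3 0 4 5, h.s01 0 3 4 5, neg_neg, ng_neg n_0345]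
  have e_3506 : ng (c 3 5 0 6) = (ng (c 0 3 5 6)) := by rw [h.s12 3 0 5 6, h.s01 0 3 5 6, neg_neg]
  have e_3547 : ng (c 3 5 4 7) = (!ng (c 3 4 5 7)) := by rw [h.s12 3 4 5 7, ng_neg n_3457]
  have e_3507 : ng (c 3 5 0 7) = (ng (c 0 3 5 7)) := by rw [h.s12 3 0 5 7, h.s01 0 3 5 7, neg_neg]
  have e_3546 : ng (c 3 5 4 6) = (!ng (c 3 4 5 6)) := by rw [h.s12 3 4 5 6, ng_neg n_3456]
  have t134 := h.gp 3 5 0 4 6 7 (by decide)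
  rw [e_3504, e_3506, e_3547, e_3507, e_3546] at t134
  have e_3405 : ng (c 3 4 0 5) = (ng (c 0 3 4 5)) := by rw [h.s12 3 0 4 5, h.s01 0 3 4 5, neg_neg]
  have e_3406 : ng (c 3 4 0 6) = (ng (c 0 3 4 6)) := by rw [h.s12 3 0 4 6, h.s01 0 3 4 6, neg_neg]
  have e_3407 : ng (c 3 4 0 7) = (ng (c 0 3 4 7)) := by rw [h.s12 3 0 4 7, h.s01 0 3 4 7, neg_neg]
  have t234 := h.gp 3 4 0 5 6 7 (by decide)
  rw [e_3405, e_3406, e_3407] at t234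
  have n_0124 : c 0 1 2 4 ≠ 0 := h.nz _ _ _ _ (by decide)
  have n_0125 : c 0 1 2 5 ≠ 0 := h.nz _ _ _ _ (by decide)
  have n_0126 : c 0 1 2 6 ≠ 0 := h.nz _ _ _ _ (by decide)
  have n_0127 : c 0 1 2 7 ≠ 0 := h.nz _ _ _ _ (by decide)
  have q0 : nae4 (ng (c 0 1 2 4) ^^ ng (c 0 5 6 7)) (ng (c 0 1 2 5) ^^ !ng (c 0 4 6 7)) (ng (c 0 1 2 6) ^^ ng (c 0 4 5 7)) (ng (c 0 1 2 7) ^^ !ng (c 0 4 5 6)) = true :=
    P4 (h.comap ![0, 1, 2, 4, 5, 6, 7] (by decide))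
  have n_0123 : c 0 1 2 3 ≠ 0 := h.nz _ _ _ _ (by decide)
  have q1 : nae4 (ng (c 0 1 2 3) ^^ ng (c 0 5 6 7)) (ng (c 0 1 2 5) ^^ !ng (c 0 3 6 7)) (ng (c 0 1 2 6) ^^ ng (c 0 3 5 7)) (ng (c 0 1 2 7) ^^ !ng (c 0 3 5 6)) = true :=
    P4 (h.comap ![0, 1, 2, 3, 5, 6, 7] (by decide))
  have q2 : nae4 (ng (c 0 1 2 3) ^^ ng (c 0 4 6 7)) (ng (c 0 1 2 4) ^^ !ng (c 0 3 6 7)) (ng (c 0 1 2 6) ^^ ng (c 0 3 4 7)) (ng (c 0 1 2 7) ^^ !ng (c 0 3 4 6)) = true :=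
    P4 (h.comap ![0, 1, 2, 3, 4, 6, 7] (by decide))
  have q3 : nae4 (ng (c 0 1 2 3) ^^ ng (c 0 4 5 7)) (ng (c 0 1 2 4) ^^ !ng (c 0 3 5 7)) (ng (c 0 1 2 5) ^^ ng (c 0 3 4 7)) (ng (c 0 1 2 7) ^^ !ng (c 0 3 4 5)) = true :=
    P4 (h.comap ![0, 1, 2, 3, 4, 5, 7] (by decide))
  have q4 : nae4 (ng (c 0 1 2 3) ^^ ng (c 0 4 5 6)) (ng (c 0 1 2 4) ^^ !ng (c 0 3 5 6)) (ng (c 0 1 2 5) ^^ ng (c 0 3 4 6)) (ng (c 0 1 2 6) ^^ !ng (c 0 3 4 5)) = true :=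
    P4 (h.comap ![0, 1, 2, 3, 4, 5, 6] (by decide))
  clear n_0123 n_0124 n_0125 n_0126 n_0127 n_0345 n_0346 n_0347 n_0356 n_0357 n_0367 n_0456 n_0457 n_0467 n_0567 n_3456 n_3457 n_3467 n_3567 n_4567 e_6703 e_6745 e_6704 e_6735 e_6705 e_6734 e_5703 e_5746 e_5704 e_5736 e_5706 e_5734 e_5603 e_5647 e_5604 e_5637 e_5607 e_5634 e_4703 e_4756 e_4705 e_4736 e_4706 e_4735 e_4603 e_4657 e_4605 e_4637 e_4607 e_4635 e_4503 e_4506 e_4537 e_4507 e_4536 e_3704 e_3756 e_3705 e_3746 e_3706 e_3745 e_3604 e_3657 e_3605 e_3647 e_3607 e_3645 e_3504 e_3506 e_3547 e_3507 e_3546 e_3405 e_3406 e_3407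
  generalize ng (c 0 1 2 3) = v_0123 at *
  generalize ng (c 0 1 2 4) = v_0124 at *
  generalize ng (c 0 1 2 5) = v_0125 at *
  generalize ng (c 0 1 2 6) = v_0126 at *
  generalize ng (c 0 1 2 7) = v_0127 at *
  generalize ng (c 0 3 4 5) = v_0345 at *
  generalize ng (c 0 3 4 6) = v_0346 at *
  generalize ng (c 0 3 4 7) = v_0347 at *
  generalize ng (c 0 3 5 6) = v_0356 at *
  generalize ng (c 0 3 5 7) = v_0357 at *
  generalize ng (c 0 3 6 7) = v_0367 at *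
  generalize ng (c 0 4 5 6) = v_0456 at *
  generalize ng (c 0 4 5 7) = v_0457 at *
  generalize ng (c 0 4 6 7) = v_0467 at *
  generalize ng (c 0 5 6 7) = v_0567 at *
  generalize ng (c 3 4 5 6) = v_3456 at *
  generalize ng (c 3 4 5 7) = v_3457 at *
  generalize ng (c 3 4 6 7) = v_3467 at *
  generalize ng (c 3 5 6 7) = v_3567 at *
  generalize ng (c 4 5 6 7) = v_4567 at *
  clear h
  by_contra hcon
  rw [Bool.not_eq_true] at hcon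
  have hU1 : v_0124 = (v_0123 ^^ (v_4567) ^^ (!v_3567)) := by
    clear t012 t013 t014 t023 t024 t034 t123 t124 t134 t234 q0 q1 q2 q3 q4
    revert hcon
    revert v_0123 v_0124 v_0125 v_0126 v_0127 v_4567 v_3567 v_3467 v_3457 v_3456
    decide +kernel
  have hU2 : v_0125 = (v_0123 ^^ (v_4567) ^^ (v_3467)) := by
    clear t012 t013 t014 t023 t024 t034 t123 t124 t134 t234 q0 q1 q2 q3 q4 hU1
    revert hcon
    revert v_0123 v_0124 v_0125 v_0126 v_0127 v_4567 v_3567 v_3467 v_3457 v_3456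
    decide +kernel
  have hU3 : v_0126 = (v_0123 ^^ (v_4567) ^^ (!v_3457)) := by
    clear t012 t013 t014 t023 t024 t034 t123 t124 t134 t234 q0 q1 q2 q3 q4 hU1 hU2
    revert hcon
    revert v_0123 v_0124 v_0125 v_0126 v_0127 v_4567 v_3567 v_3467 v_3457 v_3456
    decide +kernel
  have hU4 : v_0127 = (v_0123 ^^ (v_4567) ^^ (v_3456)) := by
    clear t012 t013 t014 t023 t024 t034 t123 t124 t134 t234 q0 q1 q2 q3 q4 hU1 hU2 hU3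
    revert hcon
    revert v_0123 v_0124 v_0125 v_0126 v_0127 v_4567 v_3567 v_3467 v_3457 v_3456
    decide +kernel
  clear hcon
  subst hU1 hU2 hU3 hU4
  revert t014 t024 t034 t124 t134 t234 q0 q1 q2 q3 q4
  revert v_3456 v_0456 v_0356 v_0346 v_0345
  revert t013 t023 t123
  revert v_3457 v_0457 v_0357 v_0347
  revert t012
  revert v_0123 v_4567 v_3567 v_3467 v_0567 v_0467 v_0367
  decide +kernel

end Pool.Agent.MandelOM
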